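import Pool.Agent.LibKA2.Last
import Pool.Agent.LibK.Surf

/-!
The numerical surface of a surface, and the pseudo-effective polytope.
-/

set_option autoImplicit false

open Pool.Agent.LibGMM Pool.Agent.LibK

namespace Pool.Agent.LibKA2

variable {L : Type} [Field L] [Algebra ℂ L]

/-- The class of the prime divisor `ν`. -/
noncomputable def pc (S : SurfA L) (ν : S.prm) : S.Λ := S.cl (Finsupp.single ν 1)

/-! ### row W1: sections -/

/-- `1` is a section. -/
lemma eff_S (S : SurfA L) {E : S.prm →₀ ℤ} (hE : ∀ ν, 0 ≤ E ν) : 0 < S.h0 (S.cl E) := by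
  rw [S.h0_cl]
  have := S.finSec E
  have h1 : (1 : L) ∈ secD S.prm E := by
    intro ν _
    have h2 : ν.1.ord (1 : L) = 0 := by
      have h3 := ν.1.ord_const 1
      rwa [map_one] at h3
    rw [h2, zero_add]
    exact hE ν
  have : Nontrivial (secD S.prm E) := by
    refine ⟨⟨⟨1, h1⟩, 0, fun h => ?_⟩⟩
    exact one_ne_zero (congrArg Subtype.val h)
  exact Module.finrank_pos

lemma W1_le (S : SurfA L) (D : S.prm →₀ ℤ) (ν : S.prm) :
    secD S.prm (D - Finsupp.single ν 1) ≤ secD S.prm D := by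
  classical
  intro f hf μ h0
  have h1 := hf μ h0
  rw [Finsupp.sub_apply, Finsupp.single_apply] at h1
  split_ifs at h1 <;> omega

lemma mono_S (S : SurfA L) (D : S.Λ) (ν : S.prm) : S.h0 (D - pc S ν) ≤ S.h0 D := by
  obtain ⟨D', rfl⟩ := S.cl_surj D
  rw [pc, ← map_sub, S.h0_cl, S.h0_cl]
  have := S.finSec D'
  exact Submodule.finrank_mono (W1_le S D' ν)

/-- the divisor of a function. -/
noncomputable def W1_div (S : SurfA L) (f : L) (hf : f ≠ 0) : S.prm →₀ ℤ :=
  Finsupp.onFinset (((S.finDiv f hf).preimage Subtype.val_injective.injOn).toFinset)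
    (fun ν => ν.1.ord f) (by
      intro ν hν
      rw [Set.Finite.mem_toFinset]
      exact ⟨ν.2, hν⟩)

/-- Let `cl D' = D`. The sections of `D' - ν`, `ν ∈ F`, are proper subspaces of the space of sections of
`D'`, so some section `f` is in none of them (`ℂ` is infinite; add the subspace `0`); `E = D' + div f`. -/
lemma mem_S (S : SurfA L) {D : S.Λ} (h : 0 < S.h0 D) (F : Finset S.prm)
    (hF : ∀ ν ∈ F, S.h0 (D - pc S ν) < S.h0 D) :
    ∃ E : S.prm →₀ ℤ, (∀ ν, 0 ≤ E ν) ∧ (∀ ν ∈ F, E ν = 0) ∧ S.cl E = D := by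
  classical
  obtain ⟨D', rfl⟩ := S.cl_surj D
  have := S.finSec D'
  rw [S.h0_cl] at h
  have : Nontrivial (secD S.prm D') := Module.finrank_pos_iff.1 h
  obtain ⟨f, hf, hf0, hfF⟩ : ∃ f ∈ secD S.prm D', f ≠ 0 ∧
      ∀ ν ∈ F, f ∉ secD S.prm (D' - Finsupp.single ν 1) := by
    by_contra hcon
    push Not at hcon
    let p : Option F → Submodule ℂ (secD S.prm D') := fun o =>
      match o with
      | none => ⊥
      | some ν => (secD S.prm (D' - Finsupp.single ν.1 1)).comap (secD S.prm D').subtype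
    have hcov : ⋃ i, (p i : Set (secD S.prm D')) = Set.univ := by
      refine Set.eq_univ_of_forall fun f => ?_
      rw [Set.mem_iUnion]
      by_cases h0 : (f : L) = 0
      · exact ⟨none, (Submodule.mem_bot ℂ).2 (Subtype.ext h0)⟩
      · obtain ⟨ν, hν, hfν⟩ := hcon f.1 f.2 h0
        exact ⟨some ⟨ν, hν⟩, hfν⟩
    obtain ⟨o, ho⟩ := Subspace.exists_eq_top_of_iUnion_eq_univ hcov
    match o with
    | none => exact bot_ne_top ho
    | some ν =>
      have h1 : secD S.prm D' ≤ secD S.prm (D' - Finsupp.single ν.1 1) := by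
        intro f hf
        have h2 : (⟨f, hf⟩ : secD S.prm D') ∈ p (some ν) := ho ▸ Submodule.mem_top
        exact h2
      have h2 := hF ν.1 ν.2
      rw [pc, ← map_sub, S.h0_cl, S.h0_cl] at h2
      have := S.finSec (D' - Finsupp.single ν.1 1)
      exact absurd (Submodule.finrank_mono h1) (not_le.2 h2)
  refine ⟨D' + W1_div S f hf0, fun ν => ?_, fun ν hν => ?_, ?_⟩
  · have h1 := hf ν hf0
    change 0 ≤ D' ν + ν.1.ord f
    omega
  · have h1 := hf ν hf0
    have h2 := hfF ν hν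
    have h3 : ¬ (1 ≤ D' ν + ν.1.ord f) := by
      intro h4
      apply h2
      intro μ _
      have h5 := hf μ hf0
      rw [Finsupp.sub_apply, Finsupp.single_apply]
      split_ifs with h6
      · subst h6
        omega
      · omega
    change D' ν + ν.1.ord f = 0
    omega
  · rw [map_add, (S.cl_zero_iff (W1_div S f hf0)).2 ⟨f, hf0, fun ν => rfl⟩, add_zero]

/-! ### row W2: ampleness -/

/-- A section of `D` which generates at a point of `ν` (`S.centre` for the valuation ring of `ν` gives a point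
`x` with `Thr x ν`) is not a section of `D - ν`, so `D ν ≥ 0` by `S.C1`. -/
lemma nef_of_bpf (S : SurfA L) {D : S.Λ}
    (h : ∀ D' : S.prm →₀ ℤ, S.cl D' = D → ∀ x ∈ S.pts, ∃ f, GenAt S.prm x D' f) (ν : S.prm) :
    0 ≤ S.form D (pc S ν) := by
  by_contra hneg
  rw [not_le] at hneg
  have h1 := S.C1 ν D hneg
  obtain ⟨D', rfl⟩ := S.cl_surj D
  let V : ValuationSubring L :=
    { carrier := {x | 0 ≤ ν.1.ord x}
      mul_mem' := fun ha hb => ν.1.ring.mul_mem ha hb
      one_mem' := ν.1.ring.one_mem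
      add_mem' := fun ha hb => ν.1.ring.add_mem ha hb
      zero_mem' := ν.1.ring.zero_mem
      neg_mem' := fun hx => ν.1.ring.neg_mem hx
      mem_or_inv_mem' := by
        intro x
        by_cases hx : x = 0
        · left
          subst hx
          exact ν.1.ring.zero_mem
        have h2 := ν.1.ord_mul x x⁻¹ hx (inv_ne_zero hx)
        rw [mul_inv_cancel₀ hx, ← map_one (algebraMap ℂ L), ν.1.ord_const] at h2
        rcases le_total 0 (ν.1.ord x) with h3 | h3
        · exact Or.inl h3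
        · right
          change 0 ≤ ν.1.ord x⁻¹
          omega }
  obtain ⟨x, hx, hxV⟩ := S.centre V (fun c => by
    change 0 ≤ ν.1.ord _
    rw [ν.1.ord_const])
  obtain ⟨f, hf1, hf2, hf3⟩ := h D' rfl x hx
  have h2 := hf3 ν hxV
  have h3 : secD S.prm (D' - Finsupp.single ν 1) < secD S.prm D' := by
    refine lt_of_le_of_ne ?_ ?_
    · intro g hg μ hg0
      have h4 := hg μ hg0
      rw [Finsupp.sub_apply] at h4
      have h5 : 0 ≤ Finsupp.single ν (1 : ℤ) μ := by
        classical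
        rw [Finsupp.single_apply]
        split_ifs <;> simp
      omega
    · intro heq
      rw [← heq] at hf1
      have h4 := hf1 ν hf2
      rw [Finsupp.sub_apply, Finsupp.single_eq_same] at h4
      omega
  haveI := S.finSec D'
  have h4 := Submodule.finrank_lt_finrank_of_lt h3
  rw [← S.h0_cl, ← S.h0_cl, map_sub] at h4
  omega

lemma ample_S (S : SurfA L) (F : S.Λ) : ∃ N : ℕ, ∀ ν, 0 ≤ S.form (N • S.A + F) (pc S ν) := by
  obtain ⟨n0, hn0⟩ := S.serre F
  exact ⟨n0, fun ν => nef_of_bpf S (hn0 n0 le_rfl).2.2 ν⟩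

/-! ### row W3: the numerical surface -/

/-- coordinates. -/
noncomputable def co (S : SurfA L) :
    S.Λ ≃ₗ[ℤ] (Fin (Module.finrank ℤ S.Λ) → ℤ) := (Module.finBasis ℤ S.Λ).equivFun

/-- the Gram matrix. -/
noncomputable def gram (S : SurfA L) :
    Matrix (Fin (Module.finrank ℤ S.Λ)) (Fin (Module.finrank ℤ S.Λ)) ℤ :=
  fun i j => S.form (Module.finBasis ℤ S.Λ i) (Module.finBasis ℤ S.Λ j)

lemma fm_co (S : SurfA L) (a b : S.Λ) : fm (gram S) (co S a) (co S b) = S.form a b := by
  have ha : a = ∑ i, co S a i • Module.finBasis ℤ S.Λ i :=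
    ((Module.finBasis ℤ S.Λ).sum_equivFun a).symm
  have hb : b = ∑ j, co S b j • Module.finBasis ℤ S.Λ j :=
    ((Module.finBasis ℤ S.Λ).sum_equivFun b).symm
  have h : S.form a b = S.form (∑ i, co S a i • Module.finBasis ℤ S.Λ i)
      (∑ j, co S b j • Module.finBasis ℤ S.Λ j) := by rw [← ha, ← hb]
  rw [h]
  simp only [map_sum, LinearMap.sum_apply, map_smul, LinearMap.smul_apply, smul_eq_mul]
  unfold fm gram
  refine Finset.sum_comm.trans ?_
  refine Finset.sum_congr rfl fun j _ => ?_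
  rw [Finset.mul_sum]
  refine Finset.sum_congr rfl fun i _ => ?_
  simp only [Int.cast_id]
  ring

private lemma W3_fm (S : SurfA L) (x y : Fin (Module.finrank ℤ S.Λ) → ℤ) :
    fm (gram S) x y = S.form ((co S).symm x) ((co S).symm y) := by
  rw [← fm_co, LinearEquiv.apply_symm_apply, LinearEquiv.apply_symm_apply]

private lemma W3_cl (S : SurfA L) (E : S.prm →₀ ℤ) :
    S.cl E = E.sum fun ν b => b • pc S ν := by
  have h : S.cl E = S.cl (E.sum Finsupp.single) := by rw [Finsupp.sum_single]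
  rw [h, map_finsuppSum]
  refine Finsupp.sum_congr fun ν _ => ?_
  unfold pc
  rw [← map_zsmul, Finsupp.smul_single, smul_eq_mul, mul_one]

private lemma W3_symm_cl (S : SurfA L) (D : Fin (Module.finrank ℤ S.Λ) → ℤ) (ν : S.prm) :
    (co S).symm (D - co S (pc S ν)) = (co S).symm D - pc S ν := by
  rw [map_sub, LinearEquiv.symm_apply_apply]

private lemma W3_symm_sum (S : SurfA L) (a : S.prm →₀ ℕ) :
    (co S).symm (a.sum fun ν b => b • co S (pc S ν)) =
      S.cl (a.mapRange (fun n : ℕ => (n : ℤ)) Nat.cast_zero) := by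
  rw [W3_cl, Finsupp.sum_mapRange_index (h := fun (ν : S.prm) (b : ℤ) => b • pc S ν)
    (fun _ => zero_smul _ _), map_finsuppSum]
  refine Finsupp.sum_congr fun ν _ => ?_
  rw [map_nsmul, LinearEquiv.symm_apply_apply, natCast_zsmul]

/-- The numerical surface. -/
noncomputable def toNS (S : SurfA L) : NS (Module.finrank ℤ S.Λ) where
  C := S.prm
  G := gram S
  K := co S S.K
  cl ν := co S (pc S ν)
  h0 x := S.h0 ((co S).symm x)
  A := co S S.A
  l := co S S.exists_nef.choose
  symm := by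
    intro i j
    exact S.symm _ _
  parity := by
    intro D
    rw [W3_fm, W3_fm, LinearEquiv.symm_apply_apply]
    exact even_iff_two_dvd.1 (S.parity _)
  noether := by
    rw [fm_co]
    exact S.noether
  A_sq := by
    rw [fm_co]
    exact S.A_sq
  hodge := by
    intro D h h'
    rw [W3_fm, LinearEquiv.symm_apply_apply] at h
    rw [W3_fm]
    refine S.hodge _ h fun h0 => h' ?_
    exact (LinearEquiv.map_eq_zero_iff _).1 h0
  rr := by
    intro D
    have h := S.rr ((co S).symm D)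
    rw [W3_fm, W3_fm, map_sub, LinearEquiv.symm_apply_apply]
    rw [map_sub, S.symm _ S.K] at h
    linarith
  pos := by
    intro c c' h
    rw [fm_co]
    exact S.C1' c c' h
  mono := by
    intro D c
    rw [W3_symm_cl]
    exact mono_S S _ c
  sub := by
    intro D c
    rw [W3_symm_cl, W3_fm, LinearEquiv.symm_apply_apply]
    rcases lt_or_ge (S.form ((co S).symm D) (pc S c)) 0 with h | h
    · have h1 := S.C1 c _ h
      have h2 := le_max_left (0 : ℤ) (S.form ((co S).symm D) (pc S c) + 1)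
      unfold pc at h2 ⊢
      rw [← h1]
      linarith
    · have h1 := S.C2 c _ h
      have h2 := le_max_right (0 : ℤ) (S.form ((co S).symm D) (pc S c) + 1)
      unfold pc at h2 ⊢
      linarith
  zero := by
    rw [map_zero]
    exact S.h0_zero
  mem := by
    intro D h F hF
    obtain ⟨E, h1, h2, h3⟩ := mem_S S h F fun ν hν => by
      have := hF ν hν
      rwa [W3_symm_cl] at this
    refine ⟨E.mapRange Int.toNat rfl, fun c hc => ?_, ?_⟩
    · rw [Finsupp.mapRange_apply, h2 c hc]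
      rfl
    · apply (co S).symm.injective
      rw [W3_symm_sum, ← h3]
      congr 1
      ext ν
      rw [Finsupp.mapRange_apply, Finsupp.mapRange_apply]
      exact (Int.toNat_of_nonneg (h1 ν)).symm
  eff := by
    intro a
    rw [W3_symm_sum]
    refine eff_S S fun ν => ?_
    rw [Finsupp.mapRange_apply]
    exact Int.natCast_nonneg _
  pa := by
    intro c
    rw [fm_co, fm_co]
    have h := S.pa_nonneg c
    unfold pc
    linarith
  l_nef := by
    intro c
    rw [fm_co]
    exact S.exists_nef.choose_spec.1 c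
  l_eff := by
    rw [LinearEquiv.symm_apply_apply]
    exact S.exists_nef.choose_spec.2.1
  K_l := by
    rw [fm_co]
    exact S.exists_nef.choose_spec.2.2
  deg := by
    intro c
    rw [fm_co]
    exact S.A_pos c
  ample := by
    intro F
    obtain ⟨N, hN⟩ := ample_S S ((co S).symm F)
    refine ⟨N, fun c => ?_⟩
    rw [W3_fm, LinearEquiv.symm_apply_apply, map_add, map_zsmul, LinearEquiv.symm_apply_apply,
      natCast_zsmul]
    exact hN c

/-! ### row W4: the pseudo-effective polytope -/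

lemma W4_cl (S : SurfA L) (E : S.prm →₀ ℤ) : S.cl E = E.sum fun ν k => k • pc S ν := by
  conv_lhs => rw [← Finsupp.sum_single E]
  rw [map_finsuppSum]
  refine Finsupp.sum_congr fun ν _ => ?_
  rw [pc, ← map_zsmul, Finsupp.smul_single, smul_eq_mul, mul_one]

lemma W4_cst (S : SurfA L) (E : S.prm →₀ ℤ) :
    cst ℚ (co S (S.cl E)) = E.sum fun ν k => (k : ℚ) • (toNS S).v ℚ ν := by
  rw [W4_cl, Finsupp.sum, map_sum, NS.cst_sum]
  refine Finset.sum_congr rfl fun ν _ => ?_
  rw [map_zsmul, NS.cst_zsmul]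
  rfl

lemma W4_dot (S : SurfA L) (a b : S.Λ) :
    (toNS S).dot (cst ℚ (co S a)) (cst ℚ (co S b)) = ((S.form a b : ℤ) : ℚ) := by
  rw [NS.dot_cst]
  congr 1
  exact fm_co S a b

lemma W4_KG (S : SurfA L) (T : Finset S.prm) (a : ℕ) (Δ : S.prm →₀ ℤ) (ha : 0 < a)
    (hT : Δ.support ⊆ T) :
    (a : ℚ) • (toNS S).KG T (fun c : S.prm => (Δ c : ℚ) / a) =
      cst ℚ (co S (a • S.K + S.cl Δ)) := by
  have ha' : (a : ℚ) ≠ 0 := Nat.cast_ne_zero.2 ha.ne'
  have h1 : (toNS S).KG T (fun c : S.prm => (Δ c : ℚ) / a) =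
    (toNS S).KC ℚ + ∑ c ∈ T, ((Δ c : ℚ) / a) • (toNS S).v ℚ c := rfl
  rw [h1, map_add, NS.cst_add, W4_cst, smul_add]
  congr 1
  · rw [map_nsmul, NS.cst_nsmul]
    rfl
  · rw [Finsupp.sum_of_support_subset Δ hT _ (fun _ _ => by rw [Int.cast_zero, zero_smul]),
      Finset.smul_sum]
    refine Finset.sum_congr rfl fun ν _ => ?_
    rw [smul_smul, mul_div_cancel₀ _ ha']

/-- common denominators -/
lemma W4_den {C : Type} (b : C →₀ ℚ) (hb : ∀ c, 0 ≤ b c) : ∃ (n : ℕ) (E : C →₀ ℤ), 0 < n ∧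
    (∀ c, 0 ≤ E c) ∧ E.support ⊆ b.support ∧ ∀ c, (E c : ℚ) = n * b c := by
  classical
  have h1 : ∀ c, ∃ k : ℤ, (k : ℚ) = (∏ c ∈ b.support, (b c).den : ℕ) * b c := by
    intro c
    by_cases hc : c ∈ b.support
    · obtain ⟨k, hk⟩ := Finset.dvd_prod_of_mem (fun c => (b c).den) hc
      refine ⟨k * (b c).num, ?_⟩
      rw [hk]
      push_cast
      have h2 : ((b c).den : ℚ) * b c = (b c).num := Rat.den_mul_eq_num (b c)
      rw [mul_right_comm, h2, mul_comm]
    · refine ⟨0, ?_⟩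
      rw [Finsupp.notMem_support_iff.1 hc]
      simp
  choose k hk using h1
  have hn : 0 < ∏ c ∈ b.support, (b c).den := Finset.prod_pos fun c _ => (b c).den_pos
  have hz : ∀ c, k c ≠ 0 → c ∈ b.support := by
    intro c hc
    by_contra h2
    apply hc
    have h3 := hk c
    rw [Finsupp.notMem_support_iff.1 h2, mul_zero] at h3
    exact_mod_cast h3
  refine ⟨_, Finsupp.onFinset b.support k hz, hn, fun c => ?_, fun c hc => ?_, hk⟩
  · have h2 : (0 : ℚ) ≤ k c := by
      rw [hk]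
      exact mul_nonneg (Nat.cast_nonneg _) (hb c)
    change 0 ≤ k c
    exact_mod_cast h2
  · exact hz c (Finsupp.mem_support_iff.1 hc)

theorem psef_polytope (S : SurfA L) (T : Finset S.prm) : ∃ J : Finset S.Λ,
    (∀ α ∈ J, ∀ ν : S.prm, 0 ≤ S.form α (S.cl (Finsupp.single ν 1))) ∧
    ∀ (a : ℕ) (Δ : S.prm →₀ ℤ), 0 < a → Δ.support ⊆ T → (∀ ν, 0 ≤ Δ ν ∧ Δ ν < a) →
      (∀ α ∈ J, 0 ≤ S.form α (a • S.K + S.cl Δ)) →
      ∃ n : ℕ, 0 < n ∧ 0 < S.h0 (n • (a • S.K + S.cl Δ)) := by
  classical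
  obtain ⟨U, hU1, hU2⟩ := NS.polytope (toNS S) T
  have hint : ∀ α : Fin (Module.finrank ℤ S.Λ) → ℚ, ∃ (n : ℕ) (β : S.Λ), 0 < n ∧
      (n : ℚ) • α = cst ℚ (co S β) := by
    intro α
    obtain ⟨n, hn, y, hy⟩ := NS.exists_isInt α
    refine ⟨n, (co S).symm y, hn, ?_⟩
    rw [hy, LinearEquiv.apply_symm_apply]
  choose n β hn hβ using hint
  have key : ∀ (α : Fin (Module.finrank ℤ S.Λ) → ℚ) (x : S.Λ),
      0 ≤ S.form (β α) x ↔ 0 ≤ (toNS S).dot α (cst ℚ (co S x)) := by
    intro α x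
    have h1 := W4_dot S (β α) x
    rw [← hβ, NS.dot_smul_left] at h1
    have h2 : (0 : ℚ) < n α := Nat.cast_pos.2 (hn α)
    rw [← mul_nonneg_iff_of_pos_left h2, h1]
    exact Int.cast_nonneg_iff.symm
  refine ⟨U.image β, ?_, ?_⟩
  · intro γ hγ ν
    obtain ⟨α, hα, rfl⟩ := Finset.mem_image.1 hγ
    exact (key α _).2 (hU1 α hα ν)
  · intro a Δ ha hΔT hΔ hJ
    have ha' : (0 : ℚ) < a := Nat.cast_pos.2 ha
    have hKG := W4_KG S T a Δ ha hΔT
    have h1 : (toNS S).QEff ((toNS S).KG T (fun c : S.prm => (Δ c : ℚ) / a)) := by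
      refine (hU2 _ (fun c => ?_) (fun c => ?_)).2 fun α hα => ?_
      · exact div_nonneg (Int.cast_nonneg (hΔ c).1) ha'.le
      · rw [div_lt_one ha']
        exact_mod_cast (hΔ c).2
      · have h2 := (key α _).1 (hJ (β α) (Finset.mem_image_of_mem β hα))
        rw [← hKG, NS.dot_smul_right, mul_nonneg_iff_of_pos_left ha'] at h2
        rwa [NS.dot_comm]
    obtain ⟨b, hb, hb2⟩ : ∃ b : S.prm →₀ ℚ, (∀ c, 0 ≤ b c) ∧
      (toNS S).KG T (fun c : S.prm => (Δ c : ℚ) / a) =
        b.sum fun c r => r • (toNS S).v ℚ c := h1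
    obtain ⟨N, E, hN, hE, hEs, hEb⟩ := W4_den b hb
    refine ⟨N, hN, ?_⟩
    have h3 : N • (a • S.K + S.cl Δ) = S.cl (a • E) := by
      apply (co S).injective
      have h4 : cst ℚ (co S (N • (a • S.K + S.cl Δ)) - co S (S.cl (a • E))) = 0 := by
        rw [NS.cst_sub, sub_eq_zero, map_nsmul, NS.cst_nsmul, ← hKG, hb2, map_nsmul, map_nsmul,
          NS.cst_nsmul, W4_cst, smul_comm]
        refine congrArg ((a : ℚ) • ·) ?_
        rw [Finsupp.sum_of_support_subset E hEs _ (fun _ _ => by rw [Int.cast_zero, zero_smul]),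
          Finsupp.sum, Finset.smul_sum]
        refine Finset.sum_congr rfl fun c _ => ?_
        rw [hEb, smul_smul]
      exact sub_eq_zero.1 (NS.cst_eq_zero h4)
    rw [h3]
    refine eff_S S fun c => ?_
    rw [Finsupp.smul_apply]
    exact nsmul_nonneg (hE c) a

end Pool.Agent.LibKA2
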