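import Pool.Agent.LibKA2.Contr

/-!
The steps of the algorithm.
-/

set_option autoImplicit false

namespace Pool.Agent.LibKA2

open Finset

variable {m : ℕ}

namespace NS

variable {Y : NS m} {SS R CC : Finset Y.C} {Γ γ : Y.C → ℚ}
  {φ : (Fin m → ℚ) →ₗ[ℚ] (Fin m → ℚ)}

/-! ### row A1 -/

/-- the initial state: `R = CC = ∅`, `φ = id`, `γ = Γ`. -/
lemma st_init (h0 : ∀ c, 0 ≤ Γ c) (h1 : ∀ c, Γ c < 1) : Y.St SS Γ ∅ LinearMap.id ∅ Γ := by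
  refine ⟨Y.ctr_id, Finset.empty_subset _, fun c hc => absurd hc (Finset.notMem_empty c), ?_, h0, h1,
    fun c hc => absurd hc (Finset.notMem_empty c), 0, 0, Y.sp_zero _, Y.sp_zero _, ?_⟩
  · rintro z ⟨c, hc, _⟩
    exact absurd hc (Finset.notMem_empty c)
  · unfold KG DD cb
    simp only [LinearMap.id_coe, id_eq, sub_self, add_zero]

lemma Ctr.φ_DD (h : Y.Ctr R φ) (SS : Finset Y.C) (γ : Y.C → ℚ) :
    φ (Y.DD φ SS γ) = Y.DD φ SS γ := by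
  unfold DD
  rw [map_add, h.idem, h.φ_cb]

/-- `D' φ(x) = D' x`. -/
lemma Ctr.A1_dot_DD (h : Y.Ctr R φ) (SS : Finset Y.C) (γ : Y.C → ℚ) (x : Fin m → ℚ) :
    Y.dot (Y.DD φ SS γ) (φ x) = Y.dot (Y.DD φ SS γ) x := by
  rw [← h.adj, h.φ_DD]

lemma Ctr.DD_nx (h : Y.Ctr R φ) (SS : Finset Y.C) (γ : Y.C → ℚ) (e : Fin m → ℚ) :
    Y.DD (Y.nx φ e) SS γ = Y.DD φ SS γ + Y.dot (Y.DD φ SS γ) e • e := by
  have h1 : Y.cb (Y.nx φ e) SS γ = Y.cb φ SS γ + Y.dot (Y.cb φ SS γ) e • e := by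
    rw [dot_cb]
    unfold cb
    rw [Finset.sum_smul, ← Finset.sum_add_distrib]
    refine Finset.sum_congr rfl fun c _ => ?_
    rw [nx_apply, smul_add, smul_smul]
  unfold DD
  rw [h1, nx_apply, Y.dot_add_left, add_smul]
  abel

/-- the other components of `Γ'` are `≥ 0` on `φ(c)`. -/
lemma Ctr.A1_sum (h : Y.Ctr R φ) (hγ : ∀ c, 0 ≤ γ c) (T : Finset Y.C) {c : Y.C} (hc : c ∉ R)
    (hT : c ∉ T) : 0 ≤ Y.dot (Y.cb φ T γ) (φ (Y.v ℚ c)) := by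
  rw [dot_cb]
  refine Finset.sum_nonneg fun c' hc' => mul_nonneg (hγ c') ?_
  by_cases hR : c' ∈ R
  · rw [h.ker c' hR, Y.dot_zero_left]
  · exact h.pos hR hc (fun hcc => hT (hcc ▸ hc'))

/-- if `D' c < 0`, `φ(c) ^ 2 < 0`: `(K' + φ(c)) φ(c) < 0` if `c ∈ SS`, and `K' φ(c) < 0` otherwise
(`D' = K' + Γ'`, the other components of `Γ'` are `≥ 0` on `c`, and `γ c < 1`). -/
lemma St.adj (h : Y.St SS Γ R φ CC γ) {c : Y.C} (hc : c ∉ R)
    (h1 : Y.dot (Y.DD φ SS γ) (Y.v ℚ c) < 0) (h2 : Y.dot (φ (Y.v ℚ c)) (φ (Y.v ℚ c)) < 0) :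
    Y.dot (φ (Y.v ℚ c)) (φ (Y.v ℚ c)) + Y.dot (Y.KC ℚ) (φ (Y.v ℚ c)) < 0 ∧
      (c ∉ SS → Y.dot (Y.KC ℚ) (φ (Y.v ℚ c)) < 0) := by
  classical
  have h3 : Y.dot (Y.DD φ SS γ) (φ (Y.v ℚ c)) < 0 := by
    rw [h.ctr.A1_dot_DD]
    exact h1
  have h4 : Y.dot (Y.DD φ SS γ) (φ (Y.v ℚ c)) =
      Y.dot (Y.KC ℚ) (φ (Y.v ℚ c)) + Y.dot (Y.cb φ SS γ) (φ (Y.v ℚ c)) := by
    unfold DD
    rw [Y.dot_add_left, h.ctr.dot_φ']
  rw [h4] at h3
  by_cases hS : c ∈ SS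
  · have h5 : Y.cb φ SS γ = γ c • φ (Y.v ℚ c) + Y.cb φ (SS.erase c) γ := by
      unfold cb
      rw [Finset.add_sum_erase SS (fun c => γ c • φ (Y.v ℚ c)) hS]
    rw [h5, Y.dot_add_left, Y.dot_smul_left] at h3
    have h6 := h.ctr.A1_sum h.nonneg (SS.erase c) hc (Finset.notMem_erase c SS)
    have h7 : Y.dot (φ (Y.v ℚ c)) (φ (Y.v ℚ c)) ≤ γ c * Y.dot (φ (Y.v ℚ c)) (φ (Y.v ℚ c)) := by
      have := h.lt c
      nlinarith
    exact ⟨by linarith, fun h => absurd hS h⟩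
  · have h6 := h.ctr.A1_sum h.nonneg SS hc hS
    exact ⟨by linarith, fun _ => by linarith⟩

/-- the new class `D''` is `≤ 0` on the curves on which `D'` is, if `D' e ≤ 0`. -/
lemma St.A1_le (h : Y.St SS Γ R φ CC γ) {c : Y.C} (hc : c ∉ R)
    (h1 : Y.dot (Y.DD φ SS γ) (Y.v ℚ c) ≤ 0) {c' : Y.C} (hc' : c' ∈ CC) (hcc : c ≠ c') :
    Y.dot (Y.DD (Y.nx φ (φ (Y.v ℚ c))) SS γ) (Y.v ℚ c') ≤ 0 := by
  rw [h.ctr.DD_nx, Y.dot_add_left, Y.dot_smul_left, h.ctr.A1_dot_DD]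
  have h2 := h.le c' hc'
  have h3 : 0 ≤ Y.dot (φ (Y.v ℚ c)) (Y.v ℚ c') := by
    rw [← h.ctr.dot_φ]
    exact h.ctr.pos hc (h.disj c' hc') hcc
  have h4 := mul_nonpos_of_nonpos_of_nonneg h1 h3
  linarith

/-- `(- D' e) e` lies in the cone of `R ∪ {c}`. -/
lemma St.A1_sp [DecidableEq Y.C] (h : Y.St SS Γ R φ CC γ) {c : Y.C} (hc : c ∉ R)
    (h1 : Y.dot (Y.DD φ SS γ) (Y.v ℚ c) ≤ 0) :
    Y.Sp (insert c R) (-(Y.dot (Y.DD φ SS γ) (φ (Y.v ℚ c)) • φ (Y.v ℚ c))) := by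
  have h2 : Y.Sp (insert c R) (φ (Y.v ℚ c)) := by
    have h3 : φ (Y.v ℚ c) = Y.v ℚ c + (φ (Y.v ℚ c) - Y.v ℚ c) := by abel
    rw [h3]
    exact Sp.add Y (Y.sp_v (Finset.mem_insert_self c R))
      (Sp.mono Y (h.ctr.exp c hc) (Finset.subset_insert c R))
  rw [← neg_smul, h.ctr.A1_dot_DD]
  exact Sp.smul Y h2 (by linarith)

/-! ### row A2: step (a) -/

/-- (a) contract a curve of `CC` with `K φ(c) < 0` (`Ctr.minus_one`, `Ctr.step`, `ND.contract`, `DD_nx`). -/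
theorem St.stepA [DecidableEq Y.C] (h : Y.St SS Γ R φ CC γ) {c : Y.C} (hc : c ∈ CC)
    (h1 : Y.dot (Y.KC ℚ) (φ (Y.v ℚ c)) < 0) :
    Y.St SS Γ (insert c R) (Y.nx φ (φ (Y.v ℚ c))) (CC.erase c) γ ∧
      Y.dot (φ (Y.v ℚ c)) (φ (Y.v ℚ c)) = -1 := by
  have hcR := h.disj c hc
  have hneg : Y.dot (φ (Y.v ℚ c)) (φ (Y.v ℚ c)) < 0 := by
    have h2 := h.nd (fun x => if x = c then 1 else 0) ⟨c, hc, by simp⟩
    have h3 : Y.cb φ CC (fun x => if x = c then 1 else 0) = φ (Y.v ℚ c) := by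
      unfold cb
      rw [Finset.sum_eq_single c]
      · simp
      · intro b _ hb
        simp [hb]
      · intro h4
        exact absurd hc h4
    rwa [h3] at h2
  obtain ⟨e1, e2⟩ := h.ctr.minus_one hcR hneg h1
  refine ⟨?_, e1⟩
  obtain ⟨x, y, hx, ⟨a, ha, hy⟩, hxy⟩ := h.sp
  refine ⟨h.ctr.step hcR e1 e2, (Finset.erase_subset c CC).trans h.sub, ?_, ?_, h.nonneg, h.lt, ?_, ?_⟩
  · intro c' hc'
    rw [Finset.mem_insert, not_or]
    exact ⟨Finset.ne_of_mem_erase hc', h.disj c' (Finset.mem_of_mem_erase hc')⟩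
  · refine ND.contract (Finset.notMem_erase c CC) ?_
    rw [Finset.insert_erase hc]
    exact h.nd
  · intro c' hc'
    exact h.A1_le hcR (h.le c hc) (Finset.mem_of_mem_erase hc') (Finset.ne_of_mem_erase hc').symm
  · refine ⟨x + a c • Y.v ℚ c + -(Y.dot (Y.DD φ SS γ) (φ (Y.v ℚ c)) • φ (Y.v ℚ c)),
      ∑ r ∈ CC.erase c, a r • Y.v ℚ r, ?_, ⟨a, ha, rfl⟩, ?_⟩
    · refine Sp.add Y (Sp.add Y (Sp.mono Y hx (Finset.subset_insert c R)) ?_)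
        (h.A1_sp hcR (h.le c hc))
      exact Sp.smul Y (Y.sp_v (Finset.mem_insert_self c R)) (ha c)
    · have h5 : y = a c • Y.v ℚ c + ∑ r ∈ CC.erase c, a r • Y.v ℚ r := by
        rw [hy, Finset.add_sum_erase CC (fun r => a r • Y.v ℚ r) hc]
      rw [h.ctr.DD_nx, ← sub_sub, hxy, h5]
      abel

/-! ### row A3: step (b) -/

/-- (b) subtract `N = cb z`, the solution of `(D' - N) c = 0` on `CC`, from `Γ'`; `z ≥ 0` and
`z ≤ γ` on `CC` by `ND.nonneg`. -/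
theorem St.stepB (h : Y.St SS Γ R φ CC γ) (hK : ∀ c ∈ CC, 0 ≤ Y.dot (Y.KC ℚ) (φ (Y.v ℚ c))) :
    ∃ γ' : Y.C → ℚ, Y.St0 SS Γ R φ CC γ' := by
  classical
  obtain ⟨z, hz⟩ := h.nd.solve (fun c => Y.dot (Y.DD φ SS γ) (Y.v ℚ c))
  have hz0 : ∀ c ∈ CC, 0 ≤ z c := ND.nonneg h.ctr h.nd h.disj
    (fun c hc => by rw [hz c hc]; exact h.le c hc)
  -- `SS = CC ∪ (SS \ CC)`
  have hsplit : ∀ g : Y.C → ℚ, Y.cb φ SS g = Y.cb φ CC g + Y.cb φ (SS \ CC) g := by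
    intro g
    unfold cb
    rw [add_comm, Finset.sum_sdiff h.sub]
  have hγ1 : Y.cb φ CC (fun c => if c ∈ CC then γ c - z c else γ c) =
      Y.cb φ CC γ - Y.cb φ CC z := by
    unfold cb
    rw [← Finset.sum_sub_distrib]
    refine Finset.sum_congr rfl fun c hc => ?_
    simp only [hc, if_true]
    rw [sub_smul]
  have hγ2 : Y.cb φ (SS \ CC) (fun c => if c ∈ CC then γ c - z c else γ c) =
      Y.cb φ (SS \ CC) γ := by
    unfold cb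
    refine Finset.sum_congr rfl fun c hc => ?_
    simp only [(Finset.mem_sdiff.1 hc).2, if_false]
  have hDD : Y.DD φ SS (fun c => if c ∈ CC then γ c - z c else γ c) =
      Y.DD φ SS γ - Y.cb φ CC z := by
    unfold DD
    rw [hsplit, hsplit γ, hγ1, hγ2]
    abel
  have heq : ∀ c ∈ CC, Y.dot (Y.DD φ SS (fun c => if c ∈ CC then γ c - z c else γ c))
      (Y.v ℚ c) = 0 := by
    intro c hc
    have h3 : Y.dot (Y.cb φ CC z) (Y.v ℚ c) = Y.dot (Y.cb φ CC z) (φ (Y.v ℚ c)) := by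
      rw [← h.ctr.adj, h.ctr.φ_cb]
    rw [hDD, Y.dot_sub_left, h3, hz c hc, sub_self]
  have hz1 : ∀ c ∈ CC, 0 ≤ γ c - z c := by
    refine ND.nonneg (z := fun c => γ c - z c) h.ctr h.nd h.disj (fun c hc => ?_)
    have h1 : Y.cb φ CC (fun c => γ c - z c) = Y.cb φ CC γ - Y.cb φ CC z := by
      unfold cb
      rw [← Finset.sum_sub_distrib]
      exact Finset.sum_congr rfl fun c _ => sub_smul _ _ _
    have h2 := heq c hc
    rw [← h.ctr.A1_dot_DD] at h2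
    unfold DD at h2
    rw [hsplit, hγ1, hγ2, Y.dot_add_left, Y.dot_add_left, h.ctr.dot_φ', ← h1] at h2
    have h3 := hK c hc
    have h4 := h.ctr.A1_sum h.nonneg (SS \ CC) (h.disj c hc)
      (fun hcc => (Finset.mem_sdiff.1 hcc).2 hc)
    linarith
  obtain ⟨x, y, hx, hy, hxy⟩ := h.sp
  obtain ⟨x', y', hx', hy', hxy'⟩ := h.ctr.sp_cb h.disj hz0
  refine ⟨fun c => if c ∈ CC then γ c - z c else γ c,
    ⟨h.ctr, h.sub, h.disj, h.nd, ?_, ?_, fun c hc => (heq c hc).le, ?_⟩, heq, hK⟩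
  · intro c
    split_ifs with hc
    · exact hz1 c hc
    · exact h.nonneg c
  · intro c
    split_ifs with hc
    · have h1 := h.lt c
      have h2 := hz0 c hc
      linarith
    · exact h.lt c
  · refine ⟨x + x', y + y', Sp.add Y hx hx', Sp.add Y hy hy', ?_⟩
    rw [hDD, sub_sub_eq_add_sub, add_sub_right_comm, hxy, hxy']
    abel

/-! ### row A4: step (c1) -/

/-- (c1) `α = φ(R0) + Z` with square `≥ 0`: `Good`. -/
theorem St0.stop (h : Y.St0 SS Γ R φ CC γ) {n0 : ℕ} (hn0 : 1 ≤ n0)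
    (hSS : ∀ c ∈ SS, -(n0 : ℚ) ≤ Y.dot (Y.v ℚ c) (Y.v ℚ c)) {c0 : Y.C} (hR : c0 ∉ R)
    (hCC : c0 ∉ CC) (h1 : Y.dot (Y.DD φ SS γ) (Y.v ℚ c0) < 0)
    (h2 : Y.dot (φ (Y.v ℚ c0)) (φ (Y.v ℚ c0)) < 0) {z : Y.C → ℚ}
    (hz : ∀ c ∈ CC, Y.dot (φ (Y.v ℚ c0) + Y.cb φ CC z) (φ (Y.v ℚ c)) = 0)
    (hα : 0 ≤ Y.dot (φ (Y.v ℚ c0) + Y.cb φ CC z) (φ (Y.v ℚ c0) + Y.cb φ CC z)) :
    Y.Good SS Γ (SS.card.factorial * n0 ^ SS.card).factorial 1 := by
  classical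
  have hctr : Y.Ctr R φ := h.ctr
  have hne : ∀ c ∈ CC, c0 ≠ c := fun c hc h0 => hCC (by rw [h0]; exact hc)
  have hzb : ∀ c ∈ CC, Y.dot (Y.cb φ CC z) (φ (Y.v ℚ c)) =
      -Y.dot (φ (Y.v ℚ c0)) (φ (Y.v ℚ c)) := by
    intro c hc
    have h3 := hz c hc
    rw [Y.dot_add_left] at h3
    linarith
  have hz0 : ∀ c ∈ CC, 0 ≤ z c := by
    refine ND.nonneg hctr h.nd h.disj fun c hc => ?_
    have h4 := hctr.pos hR (h.disj c hc) (hne c hc)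
    rw [hzb c hc]
    linarith
  obtain ⟨α, hαd⟩ : ∃ α : Fin m → ℚ, α = φ (Y.v ℚ c0) + Y.cb φ CC z := ⟨_, rfl⟩
  rw [← hαd] at hα
  have hzα : ∀ c ∈ CC, Y.dot α (φ (Y.v ℚ c)) = 0 := by
    intro c hc
    rw [hαd]
    exact hz c hc
  have hφα : φ α = α := by
    rw [hαd, map_add, hctr.idem, hctr.φ_cb]
  have hdot : ∀ x, Y.dot α x = Y.dot α (φ x) := fun x => by
    rw [← hctr.adj, hφα]
  have hexp : ∀ x, Y.dot α x = Y.dot (φ (Y.v ℚ c0)) x + ∑ c ∈ CC, z c * Y.dot (φ (Y.v ℚ c)) x := by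
    intro x
    rw [hαd, Y.dot_add_left, dot_cb]
  have hαα : Y.dot α (φ (Y.v ℚ c0)) = Y.dot α α := by
    have h3 := hexp α
    rw [Y.dot_comm (φ (Y.v ℚ c0)) α] at h3
    have h4 : ∑ c ∈ CC, z c * Y.dot (φ (Y.v ℚ c)) α = 0 := by
      refine Finset.sum_eq_zero fun c hc => ?_
      rw [Y.dot_comm, hzα c hc, mul_zero]
    rw [h4, add_zero] at h3
    exact h3.symm
  -- nef
  have hnef : Y.Nef α := by
    intro c
    rw [hdot]
    by_cases hcR : c ∈ R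
    · rw [hctr.ker c hcR, Y.dot_zero_right]
    · by_cases hcC : c ∈ CC
      · rw [hzα c hcC]
      · by_cases hc0 : c = c0
        · rw [hc0, hαα]
          exact hα
        · rw [hexp]
          refine add_nonneg (hctr.pos hR hcR (Ne.symm hc0)) (Finset.sum_nonneg fun c' hc' => ?_)
          refine mul_nonneg (hz0 c' hc') (hctr.pos (h.disj c' hc') hcR ?_)
          rintro rfl
          exact hcC hc'
  -- integrality
  have hint : IsInt ((((SS.card.factorial * n0 ^ SS.card).factorial : ℕ) : ℚ) • α) := by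
    obtain ⟨b, hb⟩ : ∃ b : Y.C → ℤ, ∀ c, -Y.dot (φ (Y.v ℚ c0)) (φ (Y.v ℚ c)) = b c := by
      have h3 : ∀ c, ∃ a : ℤ, -Y.dot (φ (Y.v ℚ c0)) (φ (Y.v ℚ c)) = a := by
        intro c
        obtain ⟨a, ha⟩ := Y.isInt_dot (hctr.int _ (Y.isInt_v c0)) (hctr.int _ (Y.isInt_v c))
        exact ⟨-a, by rw [ha]; push_cast; ring⟩
      choose b hb using h3
      exact ⟨b, hb⟩
    have hden := ND.denom hctr h.nd hn0 (fun c hc => (hSS c (h.sub hc)).trans (hctr.sq_v c))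
      (Finset.card_le_card h.sub) (z := z) (b := b) (fun c hc => by rw [hzb c hc, hb c])
    obtain ⟨D, hD⟩ : ∃ D : ℕ, D = (SS.card.factorial * n0 ^ SS.card).factorial := ⟨_, rfl⟩
    rw [← hD] at hden ⊢
    rw [hαd, smul_add]
    refine isInt_add ?_ ?_
    · have h3 := isInt_smul (hctr.int _ (Y.isInt_v c0)) (D : ℤ)
      rwa [Int.cast_natCast] at h3
    · unfold cb
      rw [Finset.smul_sum]
      have h3 : ∀ s : Finset Y.C, s ⊆ CC → IsInt (∑ c ∈ s, (D : ℚ) • z c • φ (Y.v ℚ c)) := by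
        intro s
        induction s using Finset.induction_on with
        | empty =>
          intro _
          rw [Finset.sum_empty]
          exact ⟨0, by rw [cst_zero]⟩
        | insert c s hc ih =>
          intro hs
          rw [Finset.sum_insert hc]
          obtain ⟨k, hk⟩ := (hden c (hs (Finset.mem_insert_self c s))).1
          refine isInt_add ?_ (ih fun x hx => hs (Finset.mem_insert_of_mem hx))
          rw [smul_smul, hk]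
          exact isInt_smul (hctr.int _ (Y.isInt_v c)) k
      exact h3 CC (Finset.Subset.refl _)
  -- `(K + Γ) α = D' α = D' c0`
  have hsp : ∀ S : Finset Y.C, (∀ c ∈ S, Y.dot α (Y.v ℚ c) = 0) → ∀ x, Y.Sp S x →
      Y.dot x α = 0 := by
    rintro S hS x ⟨a, _, rfl⟩
    rw [Y.dot_sum_left]
    refine Finset.sum_eq_zero fun c hc => ?_
    rw [Y.dot_smul_left, Y.dot_comm, hS c hc, mul_zero]
  have hKG : Y.dot (Y.KG SS Γ) α = Y.dot (Y.DD φ SS γ) α := by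
    obtain ⟨x, y, hx, hy, hxy⟩ := h.sp
    have h3 : Y.dot (Y.KG SS Γ - Y.DD φ SS γ) α = 0 := by
      rw [hxy, Y.dot_add_left, hsp R (fun c hc => ?_) x hx, hsp CC (fun c hc => ?_) y hy, add_zero]
      · rw [hdot]
        exact hzα c hc
      · rw [hdot, hctr.ker c hc, Y.dot_zero_right]
    rw [Y.dot_sub_left] at h3
    linarith
  have hDφ : ∀ x, Y.dot (φ x) (Y.DD φ SS γ) = Y.dot (Y.DD φ SS γ) x := fun x => by
    rw [hctr.adj, hctr.φ_DD, Y.dot_comm]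
  have hDα : Y.dot (Y.DD φ SS γ) α = Y.dot (Y.DD φ SS γ) (Y.v ℚ c0) := by
    rw [Y.dot_comm, hexp, hDφ]
    have h3 : ∑ c ∈ CC, z c * Y.dot (φ (Y.v ℚ c)) (Y.DD φ SS γ) = 0 := by
      refine Finset.sum_eq_zero fun c hc => ?_
      rw [hDφ, h.eq c hc, mul_zero]
    rw [h3, add_zero]
  -- `K α ≤ D' α`
  have hKle : Y.dot (Y.KC ℚ) α ≤ Y.dot (Y.DD φ SS γ) α := by
    unfold DD
    rw [Y.dot_add_left, dot_cb, hctr.adj, hφα]
    have h3 : 0 ≤ ∑ c ∈ SS, γ c * Y.dot (φ (Y.v ℚ c)) α := by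
      refine Finset.sum_nonneg fun c _ => mul_nonneg (h.nonneg c) ?_
      rw [hctr.adj, hφα, Y.dot_comm]
      exact hnef c
    linarith
  -- `K α ≥ -1`
  have hKge : -1 ≤ Y.dot (Y.KC ℚ) α := by
    rw [Y.dot_comm, hexp]
    have h3 : 0 ≤ ∑ c ∈ CC, z c * Y.dot (φ (Y.v ℚ c)) (Y.KC ℚ) := by
      refine Finset.sum_nonneg fun c hc => mul_nonneg (hz0 c hc) ?_
      rw [Y.dot_comm]
      exact h.kpos c hc
    have h4 := hctr.pa c0 hR
    obtain ⟨a, ha⟩ := Y.isInt_dot (hctr.int _ (Y.isInt_v c0)) (hctr.int _ (Y.isInt_v c0))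
    have h5 : Y.dot (φ (Y.v ℚ c0)) (φ (Y.v ℚ c0)) ≤ -1 := by
      rw [ha] at h2 ⊢
      have h6 : a < 0 := by exact_mod_cast h2
      have h7 : a ≤ -1 := by omega
      exact_mod_cast h7
    rw [Y.dot_comm (φ (Y.v ℚ c0)) (Y.KC ℚ)]
    linarith
  refine ⟨α, hnef, hint, ?_, ?_, ?_⟩
  · rw [hKG, hDα]
    exact h1
  · rw [hDα] at hKle
    linarith
  · linarith

/-! ### row A5: step (c2) -/

/-- (c2) otherwise `CC ∪ {c0}` is negative definite; either `c0 ∈ SS`, `K φ(c0) ≥ 0`: add it to `CC`; or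
`φ(c0)` is a `(-1)`-class: contract it. -/
theorem St0.next [DecidableEq Y.C] (h : Y.St0 SS Γ R φ CC γ) {c0 : Y.C} (hR : c0 ∉ R)
    (hCC : c0 ∉ CC) (h1 : Y.dot (Y.DD φ SS γ) (Y.v ℚ c0) < 0)
    (h2 : Y.dot (φ (Y.v ℚ c0)) (φ (Y.v ℚ c0)) < 0)
    (hnd : Y.ND φ (insert c0 CC)) :
    Y.St SS Γ R φ (insert c0 CC) γ ∨
      (Y.St SS Γ (insert c0 R) (Y.nx φ (φ (Y.v ℚ c0))) CC γ ∧
        Y.dot (φ (Y.v ℚ c0)) (φ (Y.v ℚ c0)) = -1) := by
  obtain ⟨x, y, hx, hy, hxy⟩ := h.sp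
  by_cases hS : c0 ∈ SS
  · left
    refine ⟨h.ctr, ?_, ?_, hnd, h.nonneg, h.lt, ?_, x, y, hx, ?_, hxy⟩
    · intro c hc
      rcases Finset.mem_insert.1 hc with rfl | hc
      · exact hS
      · exact h.sub hc
    · intro c hc
      rcases Finset.mem_insert.1 hc with rfl | hc
      · exact hR
      · exact h.disj c hc
    · intro c hc
      rcases Finset.mem_insert.1 hc with rfl | hc
      · exact h1.le
      · exact h.le c hc
    · exact Sp.mono Y hy (Finset.subset_insert c0 CC)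
  · right
    have h3 := (h.toSt.adj hR h1 h2).2 hS
    obtain ⟨e1, e2⟩ := h.ctr.minus_one hR h2 h3
    refine ⟨⟨h.ctr.step hR e1 e2, h.sub, ?_, ND.contract hCC hnd, h.nonneg, h.lt, ?_, ?_⟩, e1⟩
    · intro c hc
      rw [Finset.mem_insert, not_or]
      exact ⟨fun hcc => hCC (hcc ▸ hc), h.disj c hc⟩
    · intro c hc
      exact h.toSt.A1_le hR h1.le hc (fun hcc => hCC (hcc ▸ hc))
    · refine ⟨x + -(Y.dot (Y.DD φ SS γ) (φ (Y.v ℚ c0)) • φ (Y.v ℚ c0)), y,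
        Sp.add Y (Sp.mono Y hx (Finset.subset_insert c0 R)) (h.toSt.A1_sp hR h1.le), hy, ?_⟩
      rw [h.ctr.DD_nx, ← sub_sub, hxy]
      abel

end NS

end Pool.Agent.LibKA2
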