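import Pool.Agent.LibKA2.Nef

/-!
Contractions and negative definite sets of curves.
-/

set_option autoImplicit false

namespace Pool.Agent.LibKA2

open Finset

variable {m : ℕ}

namespace NS

variable (Y : NS m)

/-! ### row C1: the cone `Sp` -/

lemma sp_zero (R : Finset Y.C) : Y.Sp R 0 :=
  ⟨fun _ => 0, fun _ => le_rfl, by simp⟩

lemma Sp.add {R : Finset Y.C} {x y : Fin m → ℚ} (hx : Y.Sp R x) (hy : Y.Sp R y) :
    Y.Sp R (x + y) := by
  obtain ⟨a, ha, rfl⟩ := hx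
  obtain ⟨b, hb, rfl⟩ := hy
  refine ⟨fun r => a r + b r, fun r => add_nonneg (ha r) (hb r), ?_⟩
  rw [← Finset.sum_add_distrib]
  exact Finset.sum_congr rfl fun r _ => (add_smul _ _ _).symm

lemma Sp.smul {R : Finset Y.C} {x : Fin m → ℚ} (hx : Y.Sp R x) {a : ℚ} (ha : 0 ≤ a) :
    Y.Sp R (a • x) := by
  obtain ⟨b, hb, rfl⟩ := hx
  refine ⟨fun r => a * b r, fun r => mul_nonneg ha (hb r), ?_⟩
  rw [Finset.smul_sum]
  exact Finset.sum_congr rfl fun r _ => smul_smul _ _ _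

lemma Sp.mono {R R' : Finset Y.C} {x : Fin m → ℚ} (hx : Y.Sp R x) (h : R ⊆ R') :
    Y.Sp R' x := by
  classical
  obtain ⟨a, ha, rfl⟩ := hx
  refine ⟨fun r => if r ∈ R then a r else 0, fun r => ?_, ?_⟩
  · dsimp only
    split_ifs
    · exact ha r
    · exact le_rfl
  · rw [← Finset.sum_subset h (f := fun r => (if r ∈ R then a r else 0) • Y.v ℚ r)]
    · exact Finset.sum_congr rfl fun r hr => by rw [if_pos hr]
    · intro r _ hr
      rw [if_neg hr, zero_smul]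

lemma sp_v {R : Finset Y.C} {c : Y.C} (hc : c ∈ R) : Y.Sp R (Y.v ℚ c) := by
  classical
  refine ⟨fun r => if r = c then 1 else 0, fun r => ?_, ?_⟩
  · dsimp only
    split_ifs
    · exact zero_le_one
    · exact le_rfl
  · rw [Finset.sum_eq_single c]
    · simp
    · intro r _ hr
      simp [hr]
    · intro h
      exact absurd hc h

lemma Sp.sum {R : Finset Y.C} {ι : Type} {s : Finset ι} {x : ι → Fin m → ℚ}
    (h : ∀ i ∈ s, Y.Sp R (x i)) : Y.Sp R (∑ i ∈ s, x i) := by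
  classical
  exact Finset.sum_induction x (fun z => Y.Sp R z) (fun _ _ ha hb => Sp.add Y ha hb)
    (sp_zero Y R) h

private lemma C1_pos {c c' : Y.C} (hcc : c ≠ c') : 0 ≤ Y.dot (Y.v ℚ c) (Y.v ℚ c') := by
  rw [v, v, dot_cst]
  exact_mod_cast Y.pos c c' hcc

/-- if `c` is not in `R`: `x c ≥ 0` for `x` in the cone of `R`. -/
lemma Sp.dot_nonneg {R : Finset Y.C} {x : Fin m → ℚ} (hx : Y.Sp R x) {c : Y.C} (hc : c ∉ R) :
    0 ≤ Y.dot x (Y.v ℚ c) := by
  obtain ⟨a, ha, rfl⟩ := hx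
  rw [dot_sum_left]
  refine Finset.sum_nonneg fun r hr => ?_
  rw [dot_smul_left]
  exact mul_nonneg (ha r) (C1_pos Y (fun h => hc (h ▸ hr)))

/-! ### row C2: contractions -/

/-- `kk`: `Y.noether`. -/
lemma ctr_id : Y.Ctr ∅ LinearMap.id where
  idem _ := rfl
  adj _ _ := rfl
  int _ h := h
  sq _ := le_rfl
  ker c hc := absurd hc (Finset.notMem_empty c)
  exp c _ := by
    rw [LinearMap.id_apply, sub_self]
    exact sp_zero Y ∅
  pa c _ := by
    rw [LinearMap.id_apply, v, KC, dot_cst, dot_cst]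
    exact_mod_cast Y.pa c
  kk := by
    rw [LinearMap.id_apply, KC, dot_cst, LinearMap.range_id, finrank_top, Module.finrank_fin_fun]
    exact_mod_cast Y.noether

variable {Y} {R : Finset Y.C} {φ : (Fin m → ℚ) →ₗ[ℚ] (Fin m → ℚ)}

lemma Ctr.dot_φ (h : Y.Ctr R φ) (x y : Fin m → ℚ) : Y.dot (φ x) (φ y) = Y.dot (φ x) y := by
  rw [← h.adj, h.idem]

lemma Ctr.dot_φ' (h : Y.Ctr R φ) (x y : Fin m → ℚ) : Y.dot (φ x) (φ y) = Y.dot x (φ y) := by
  rw [h.adj, h.idem]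

/-- images of distinct curves. -/
lemma Ctr.pos (h : Y.Ctr R φ) {c c' : Y.C} (hc : c ∉ R) (hc' : c' ∉ R) (hcc : c ≠ c') :
    0 ≤ Y.dot (φ (Y.v ℚ c)) (φ (Y.v ℚ c')) := by
  rw [h.dot_φ]
  have h1 : φ (Y.v ℚ c) = Y.v ℚ c + (φ (Y.v ℚ c) - Y.v ℚ c) := by abel
  rw [h1, dot_add_left]
  exact add_nonneg (C1_pos Y hcc) (Sp.dot_nonneg Y (h.exp c hc) hc')

/-- the square of the image is at least the square. -/
lemma Ctr.sq_v (h : Y.Ctr R φ) (c : Y.C) :
    Y.dot (Y.v ℚ c) (Y.v ℚ c) ≤ Y.dot (φ (Y.v ℚ c)) (φ (Y.v ℚ c)) :=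
  h.sq _

/-- a curve with `φ(c) ^ 2 < 0` and `K φ(c) < 0` becomes a `(-1)`-curve (`parity'`, `pa`). -/
lemma Ctr.minus_one (h : Y.Ctr R φ) {c : Y.C} (hc : c ∉ R)
    (h1 : Y.dot (φ (Y.v ℚ c)) (φ (Y.v ℚ c)) < 0) (h2 : Y.dot (Y.KC ℚ) (φ (Y.v ℚ c)) < 0) :
    Y.dot (φ (Y.v ℚ c)) (φ (Y.v ℚ c)) = -1 ∧ Y.dot (Y.KC ℚ) (φ (Y.v ℚ c)) = -1 := by
  have hi : IsInt (φ (Y.v ℚ c)) := h.int _ (isInt_v Y c)
  obtain ⟨a, ha⟩ := isInt_dot Y hi hi
  obtain ⟨b, hb⟩ := isInt_dot Y (isInt_KC Y) hi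
  have h3 := h.pa c hc
  rw [ha] at h1 h3 ⊢
  rw [hb] at h2 h3 ⊢
  have h1' : a < 0 := by exact_mod_cast h1
  have h2' : b < 0 := by exact_mod_cast h2
  have h3' : -2 ≤ a + b := by exact_mod_cast h3
  have ha1 : a = -1 := by omega
  have hb1 : b = -1 := by omega
  rw [ha1, hb1]
  norm_num

/-- `φ ^ 2 + K φ < 0`, so `= -2`. -/
lemma Ctr.minus_two (h : Y.Ctr R φ) {c : Y.C} (hc : c ∉ R)
    (h1 : Y.dot (φ (Y.v ℚ c)) (φ (Y.v ℚ c)) + Y.dot (Y.KC ℚ) (φ (Y.v ℚ c)) < 0) :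
    Y.dot (φ (Y.v ℚ c)) (φ (Y.v ℚ c)) + Y.dot (Y.KC ℚ) (φ (Y.v ℚ c)) = -2 := by
  have hi : IsInt (φ (Y.v ℚ c)) := h.int _ (isInt_v Y c)
  obtain ⟨a, ha⟩ := parity' Y hi
  have h3 := h.pa c hc
  rw [ha] at h1 h3 ⊢
  have h1' : 2 * a < 0 := by exact_mod_cast h1
  have h3' : -2 ≤ 2 * a := by exact_mod_cast h3
  have ha1 : a = -1 := by omega
  rw [ha1]
  norm_num

variable (Y) in
/-- The contraction of the curve with the class `e` on the contracted surface. -/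
noncomputable def nx (φ : (Fin m → ℚ) →ₗ[ℚ] (Fin m → ℚ)) (e : Fin m → ℚ) :
    (Fin m → ℚ) →ₗ[ℚ] (Fin m → ℚ) where
  toFun x := φ x + Y.dot (φ x) e • e
  map_add' x y := by
    rw [map_add, Y.dot_add_left, add_smul]
    abel
  map_smul' a x := by
    rw [map_smul, Y.dot_smul_left, mul_smul, smul_add, RingHom.id_apply]

lemma nx_apply (e x : Fin m → ℚ) : Y.nx φ e x = φ x + Y.dot (φ x) e • e := rfl

/-! ### row C3: the rank -/

/-- `range (Y.nx φ e)` is the orthogonal complement of `e` in `range φ`. -/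
lemma Ctr.rank_nx (h : Y.Ctr R φ) {e : Fin m → ℚ} (he : φ e = e) (he2 : Y.dot e e = -1) :
    Module.finrank ℚ (LinearMap.range (Y.nx φ e)) + 1 = Module.finrank ℚ (LinearMap.range φ) := by
  let f : (Fin m → ℚ) →ₗ[ℚ] ℚ :=
    { toFun := fun y => Y.dot y e
      map_add' := fun x y => Y.dot_add_left x y e
      map_smul' := fun a x => by rw [Y.dot_smul_left, RingHom.id_apply, smul_eq_mul] }
  let g : LinearMap.range φ →ₗ[ℚ] ℚ := f.comp (LinearMap.range φ).subtype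
  have hf : ∀ y, f y = Y.dot y e := fun _ => rfl
  have hg : ∀ y, g y = Y.dot y.1 e := fun _ => rfl
  have hker : (LinearMap.ker g).map (LinearMap.range φ).subtype = LinearMap.range (Y.nx φ e) := by
    ext y
    constructor
    · rintro ⟨⟨y', hy'⟩, hy, rfl⟩
      have hy0 : Y.dot y' e = 0 := by
        have := LinearMap.mem_ker.mp hy
        rwa [hg] at this
      obtain ⟨x, rfl⟩ := hy'
      refine ⟨x, ?_⟩
      rw [nx_apply]
      simp only [Submodule.subtype_apply]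
      rw [hy0, zero_smul, add_zero]
    · rintro ⟨x, rfl⟩
      rw [nx_apply]
      have hmem : φ x + Y.dot (φ x) e • e ∈ LinearMap.range φ :=
        ⟨x + Y.dot (φ x) e • e, by rw [map_add, map_smul, he]⟩
      refine ⟨⟨_, hmem⟩, ?_, rfl⟩
      rw [SetLike.mem_coe, LinearMap.mem_ker, hg]
      simp only
      rw [Y.dot_add_left, Y.dot_smul_left, he2]
      ring
  have hsurj : LinearMap.range g = ⊤ := by
    rw [LinearMap.range_eq_top]
    intro a
    refine ⟨⟨(-a) • e, ⟨(-a) • e, by rw [map_smul, he]⟩⟩, ?_⟩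
    rw [hg]
    simp only
    rw [Y.dot_smul_left, he2]
    ring
  have h1 := LinearMap.finrank_range_add_finrank_ker g
  rw [hsurj, finrank_top, Module.finrank_self] at h1
  rw [← hker, Submodule.finrank_map_subtype_eq]
  omega

/-! ### row C4: contraction of one more curve -/

theorem Ctr.step [DecidableEq Y.C] (h : Y.Ctr R φ) {c : Y.C} (hc : c ∉ R)
    (h1 : Y.dot (φ (Y.v ℚ c)) (φ (Y.v ℚ c)) = -1) (h2 : Y.dot (Y.KC ℚ) (φ (Y.v ℚ c)) = -1) :
    Y.Ctr (insert c R) (Y.nx φ (φ (Y.v ℚ c))) := by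
  set e := φ (Y.v ℚ c) with he
  have hφe : φ e = e := h.idem _
  have hx1 : ∀ x, Y.dot (φ x) e = Y.dot x e := fun x => by rw [h.adj, hφe]
  have hnx : ∀ x, Y.nx φ e x = φ x + Y.dot x e • e := fun x => by rw [nx_apply, hx1]
  have hnφ : ∀ x, φ (Y.nx φ e x) = Y.nx φ e x := fun x => by
    rw [hnx, map_add, map_smul, hφe, h.idem]
  have hne : ∀ x, Y.dot (Y.nx φ e x) e = 0 := fun x => by
    rw [hnx, Y.dot_add_left, Y.dot_smul_left, hx1, h1]
    ring
  have hadj : ∀ x y, Y.dot (Y.nx φ e x) y = Y.dot x (Y.nx φ e y) := fun x y => by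
    rw [hnx, hnx, Y.dot_add_left, Y.dot_smul_left, Y.dot_add_right, Y.dot_smul_right, h.adj,
      Y.dot_comm e y]
    ring
  have hsq : ∀ x, Y.dot (Y.nx φ e x) (Y.nx φ e x) = Y.dot (φ x) (φ x) + Y.dot x e ^ 2 :=
    fun x => by
      rw [hnx, Y.dot_add_left, Y.dot_add_right, Y.dot_add_right, Y.dot_smul_left,
        Y.dot_smul_left, Y.dot_smul_right, Y.dot_smul_right, h1, Y.dot_comm e (φ x), hx1]
      ring
  have hInt : IsInt e := h.int _ (Y.isInt_v c)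
  have hKn : ∀ x, Y.dot (Y.KC ℚ) (Y.nx φ e x) = Y.dot (Y.KC ℚ) (φ x) - Y.dot x e := fun x => by
    rw [hnx, Y.dot_add_right, Y.dot_smul_right, h2]
    ring
  have hexp : ∀ c', c' ∉ insert c R → Y.Sp (insert c R) (Y.nx φ e (Y.v ℚ c') - Y.v ℚ c') := by
    intro c' hc'
    have hc'R : c' ∉ R := fun hh => hc' (mem_insert_of_mem hh)
    have hcc : c' ≠ c := fun hh => hc' (hh ▸ mem_insert_self _ _)
    have h3 := Sp.mono Y (h.exp c' hc'R) (subset_insert c R)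
    have h4 := Sp.mono Y (h.exp c hc) (subset_insert c R)
    have h5 : Y.Sp (insert c R) e := by
      have h6 := Sp.add Y h4 (Y.sp_v (mem_insert_self c R))
      rw [sub_add_cancel] at h6
      exact h6
    have h7 : 0 ≤ Y.dot (Y.v ℚ c') e := by
      rw [← hx1]
      exact h.pos hc'R hc hcc
    have h8 := Sp.add Y h3 (Sp.smul Y h5 h7)
    rw [hnx]
    have h9 : φ (Y.v ℚ c') + Y.dot (Y.v ℚ c') e • e - Y.v ℚ c' =
        φ (Y.v ℚ c') - Y.v ℚ c' + Y.dot (Y.v ℚ c') e • e := by abel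
    rw [h9]
    exact h8
  refine ⟨fun x => ?_, hadj, fun x hx => ?_, fun x => ?_, fun c' hc' => ?_, hexp,
    fun c' hc' => ?_, ?_⟩
  · rw [nx_apply, hnφ, hne, zero_smul, add_zero]
  · obtain ⟨a, ha⟩ := isInt_dot (Y := Y) hx hInt
    rw [hnx, ha]
    exact isInt_add (h.int x hx) (isInt_smul hInt a)
  · rw [hsq]
    have := h.sq x
    nlinarith [sq_nonneg (Y.dot x e)]
  · rcases mem_insert.1 hc' with h3 | h3
    · rw [h3, nx_apply, ← he, h1]
      simp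
    · rw [nx_apply, h.ker c' h3, Y.dot_zero_left]
      simp
  · have hc'R : c' ∉ R := fun hh => hc' (mem_insert_of_mem hh)
    have hcc : c' ≠ c := fun hh => hc' (hh ▸ mem_insert_self _ _)
    have h7 : 0 ≤ Y.dot (Y.v ℚ c') e := by
      rw [← hx1]
      exact h.pos hc'R hc hcc
    obtain ⟨a, ha⟩ := isInt_dot (Y := Y) (Y.isInt_v c') hInt
    rw [hsq, hKn]
    have h8 := h.pa c' hc'R
    rw [ha] at h7 ⊢
    have h9 : (0 : ℤ) ≤ a := by exact_mod_cast h7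
    have h10 : a ≤ a ^ 2 := by nlinarith
    have h11 : (a : ℚ) ≤ (a : ℚ) ^ 2 := by exact_mod_cast h10
    linarith
  · have h3 := h.rank_nx hφe h1
    have h4 := h.kk
    have h5 : (Module.finrank ℚ (LinearMap.range φ) : ℚ) =
        Module.finrank ℚ (LinearMap.range (Y.nx φ e)) + 1 := by exact_mod_cast h3.symm
    rw [hsq, h2]
    linarith

/-! ### row C5: negative definite sets -/

lemma dot_cb (CC : Finset Y.C) (z : Y.C → ℚ) (x : Fin m → ℚ) :
    Y.dot (Y.cb φ CC z) x = ∑ c ∈ CC, z c * Y.dot (φ (Y.v ℚ c)) x := by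
  unfold cb
  rw [Y.dot_sum_left]
  exact Finset.sum_congr rfl fun c _ => Y.dot_smul_left _ _ _

lemma Ctr.φ_cb (h : Y.Ctr R φ) (CC : Finset Y.C) (z : Y.C → ℚ) :
    φ (Y.cb φ CC z) = Y.cb φ CC z := by
  unfold cb
  rw [map_sum]
  refine Finset.sum_congr rfl fun c _ => ?_
  rw [map_smul, h.idem]

/-- the Gram matrix is invertible. -/
theorem ND.solve {CC : Finset Y.C} (h : Y.ND φ CC) (b : Y.C → ℚ) :
    ∃ z : Y.C → ℚ, ∀ c ∈ CC, Y.dot (Y.cb φ CC z) (φ (Y.v ℚ c)) = b c := by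
  classical
  let L : (CC → ℚ) →ₗ[ℚ] (CC → ℚ) :=
    { toFun := fun w c => ∑ c' : CC, w c' * Y.dot (φ (Y.v ℚ c'.1)) (φ (Y.v ℚ c.1))
      map_add' := fun w w' => by
        funext c
        simp only [Pi.add_apply, add_mul, Finset.sum_add_distrib]
      map_smul' := fun a w => by
        funext c
        simp only [Pi.smul_apply, smul_eq_mul, RingHom.id_apply, Finset.mul_sum, mul_assoc] }
  let E : (CC → ℚ) → Y.C → ℚ := fun w c => if hc : c ∈ CC then w ⟨c, hc⟩ else 0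
  have hE : ∀ (w : CC → ℚ) (c : CC), E w c.1 = w c := by
    intro w c
    simp only [E, dif_pos c.2]
  have hL : ∀ (w : CC → ℚ) (c : CC), L w c = Y.dot (Y.cb φ CC (E w)) (φ (Y.v ℚ c.1)) := by
    intro w c
    rw [dot_cb, ← Finset.sum_coe_sort CC (fun c' => E w c' * Y.dot (φ (Y.v ℚ c')) (φ (Y.v ℚ c.1)))]
    exact Finset.sum_congr rfl fun c' _ => by rw [hE]
  have hinj : Function.Injective L := by
    rw [injective_iff_map_eq_zero]
    intro w hw
    by_contra hne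
    obtain ⟨c, hc⟩ : ∃ c, w c ≠ 0 := by
      by_contra hcon
      push Not at hcon
      exact hne (funext hcon)
    have h1 := h (E w) ⟨c.1, c.2, by rw [hE]; exact hc⟩
    have h2 : Y.dot (Y.cb φ CC (E w)) (Y.cb φ CC (E w)) = 0 := by
      rw [dot_cb]
      refine Finset.sum_eq_zero fun c' hc' => ?_
      rw [Y.dot_comm, ← hL w ⟨c', hc'⟩, hw]
      exact mul_zero _
    rw [h2] at h1
    exact lt_irrefl _ h1
  obtain ⟨w, hw⟩ := (LinearMap.injective_iff_surjective.1 hinj) (fun c => b c.1)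
  refine ⟨E w, fun c hc => ?_⟩
  rw [← hL w ⟨c, hc⟩, hw]

/-- `Z c ≤ 0` on `CC` implies `z ≥ 0`: with `z = z⁺ - z⁻`, `0 ≥ Z Z⁻ = Z⁺ Z⁻ - (Z⁻) ^ 2 ≥ -(Z⁻) ^ 2`. -/
theorem ND.nonneg (hφ : Y.Ctr R φ) {CC : Finset Y.C} (h : Y.ND φ CC) (hCC : ∀ c ∈ CC, c ∉ R)
    {z : Y.C → ℚ} (hz : ∀ c ∈ CC, Y.dot (Y.cb φ CC z) (φ (Y.v ℚ c)) ≤ 0) : ∀ c ∈ CC, 0 ≤ z c := by
  classical
  intro c0 hc0
  by_contra hneg
  push Not at hneg
  have h1 := h (fun c => max (-z c) 0) ⟨c0, hc0, by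
    show max (-z c0) 0 ≠ 0
    rw [max_eq_left (by linarith)]
    linarith⟩
  have h2 : Y.dot (Y.cb φ CC z) (Y.cb φ CC (fun c => max (-z c) 0)) ≤ 0 := by
    rw [Y.dot_comm, dot_cb]
    refine Finset.sum_nonpos fun c hc => ?_
    rw [Y.dot_comm]
    exact mul_nonpos_of_nonneg_of_nonpos (le_max_right _ _) (hz c hc)
  have h3 : Y.cb φ CC z = Y.cb φ CC (fun c => max (z c) 0) - Y.cb φ CC (fun c => max (-z c) 0) := by
    unfold cb
    rw [← Finset.sum_sub_distrib]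
    refine Finset.sum_congr rfl fun c _ => ?_
    rw [← sub_smul]
    congr 1
    show z c = max (z c) 0 - max (-z c) 0
    rcases le_total (z c) 0 with h4 | h4
    · rw [max_eq_right h4, max_eq_left (by linarith)]
      ring
    · rw [max_eq_left h4, max_eq_right (by linarith)]
      ring
  have h5 : 0 ≤ Y.dot (Y.cb φ CC (fun c => max (z c) 0)) (Y.cb φ CC (fun c => max (-z c) 0)) := by
    rw [dot_cb]
    refine Finset.sum_nonneg fun c hc => ?_
    rw [Y.dot_comm, dot_cb, Finset.mul_sum]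
    refine Finset.sum_nonneg fun c' hc' => ?_
    by_cases hcc : c' = c
    · subst hcc
      have h6 : max (z c') 0 * (max (-z c') 0 * Y.dot (φ (Y.v ℚ c')) (φ (Y.v ℚ c'))) = 0 := by
        rcases le_total (z c') 0 with h7 | h7
        · rw [max_eq_right h7, zero_mul]
        · rw [max_eq_right (by linarith : -z c' ≤ 0), zero_mul, mul_zero]
      rw [h6]
    · exact mul_nonneg (le_max_right _ _) (mul_nonneg (le_max_right _ _)
        (hφ.pos (hCC c' hc') (hCC c hc) hcc))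
  rw [h3, Y.dot_sub_left] at h2
  linarith

/-! ### row C6: more on negative definite sets -/

/-- one more curve: `α = φ(c0) + Z` orthogonal to `CC` has negative square. -/
theorem ND.cons [DecidableEq Y.C] {CC : Finset Y.C} (h : Y.ND φ CC) {c0 : Y.C} (hc0 : c0 ∉ CC)
    {z : Y.C → ℚ}
    (hz : ∀ c ∈ CC, Y.dot (φ (Y.v ℚ c0) + Y.cb φ CC z) (φ (Y.v ℚ c)) = 0)
    (hα : Y.dot (φ (Y.v ℚ c0) + Y.cb φ CC z) (φ (Y.v ℚ c0) + Y.cb φ CC z) < 0) :
    Y.ND φ (insert c0 CC) := by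
  intro w hw
  set α : Fin m → ℚ := φ (Y.v ℚ c0) + Y.cb φ CC z with hα_def
  set u : Y.C → ℚ := fun c => w c - w c0 * z c with hu_def
  have hE : Y.cb φ (insert c0 CC) w = w c0 • α + Y.cb φ CC u := by
    rw [cb, Finset.sum_insert hc0, hα_def, smul_add, add_assoc]
    congr 1
    rw [cb, cb, Finset.smul_sum, ← Finset.sum_add_distrib]
    refine Finset.sum_congr rfl fun c _ => ?_
    rw [smul_smul, ← add_smul, hu_def]
    congr 1
    ring
  have horth : Y.dot (Y.cb φ CC u) α = 0 := by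
    rw [dot_cb]
    refine Finset.sum_eq_zero fun c hc => ?_
    rw [Y.dot_comm, hz c hc, mul_zero]
  have hsq : Y.dot (Y.cb φ (insert c0 CC) w) (Y.cb φ (insert c0 CC) w) =
      w c0 ^ 2 * Y.dot α α + Y.dot (Y.cb φ CC u) (Y.cb φ CC u) := by
    rw [hE, Y.dot_add_left, Y.dot_add_right, Y.dot_add_right, Y.dot_smul_left, Y.dot_smul_left,
      Y.dot_smul_right, Y.dot_smul_right, Y.dot_comm α (Y.cb φ CC u), horth]
    ring
  have hu_le : Y.dot (Y.cb φ CC u) (Y.cb φ CC u) ≤ 0 := by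
    by_cases hu : ∃ c ∈ CC, u c ≠ 0
    · exact (h u hu).le
    · push Not at hu
      have h0 : Y.cb φ CC u = 0 := by
        rw [cb]
        refine Finset.sum_eq_zero fun c hc => ?_
        rw [hu c hc, zero_smul]
      rw [h0, Y.dot_zero_left]
  rw [hsq]
  by_cases hw0 : w c0 = 0
  · obtain ⟨c, hc, hwc⟩ := hw
    rcases Finset.mem_insert.mp hc with rfl | hc
    · exact absurd hw0 hwc
    · have hlt := h u ⟨c, hc, by rw [hu_def]; simpa [hw0] using hwc⟩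
      rw [hw0]
      linarith
  · have h2 : 0 < w c0 ^ 2 := by positivity
    have h3 : w c0 ^ 2 * Y.dot α α < 0 := mul_neg_of_pos_of_neg h2 hα
    linarith

/-- contraction of one of the curves of a negative definite set. -/
theorem ND.contract [DecidableEq Y.C] {CC : Finset Y.C} {c0 : Y.C} (hc0 : c0 ∉ CC)
    (h : Y.ND φ (insert c0 CC)) : Y.ND (Y.nx φ (φ (Y.v ℚ c0))) CC := by
  intro z hz
  set e : Fin m → ℚ := φ (Y.v ℚ c0) with he
  set z' : Y.C → ℚ := fun c =>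
    if c = c0 then ∑ c' ∈ CC, z c' * Y.dot (φ (Y.v ℚ c')) e else z c with hz'
  have hz'c : ∀ c ∈ CC, z' c = z c := by
    intro c hc
    have hne : c ≠ c0 := fun h0 => hc0 (h0 ▸ hc)
    rw [hz']
    exact if_neg hne
  have hE : Y.cb (Y.nx φ e) CC z = Y.cb φ (insert c0 CC) z' := by
    rw [cb, cb, Finset.sum_insert hc0]
    have h1 : z' c0 = ∑ c' ∈ CC, z c' * Y.dot (φ (Y.v ℚ c')) e := by
      rw [hz']
      exact if_pos rfl
    rw [h1, ← he, Finset.sum_smul, ← Finset.sum_add_distrib]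
    refine Finset.sum_congr rfl fun c hc => ?_
    rw [nx_apply, hz'c c hc, smul_add, smul_smul]
    abel
  rw [hE]
  obtain ⟨c, hc, hzc⟩ := hz
  exact h z' ⟨c, Finset.mem_insert_of_mem hc, by rw [hz'c c hc]; exact hzc⟩

lemma ND.mono {CC CC' : Finset Y.C} (h : Y.ND φ CC) (hCC : CC' ⊆ CC) : Y.ND φ CC' := by
  classical
  intro z hz
  set z' : Y.C → ℚ := fun c => if c ∈ CC' then z c else 0 with hz'
  have hE : Y.cb φ CC' z = Y.cb φ CC z' := by
    rw [cb, cb, ← Finset.sum_subset hCC]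
    · refine Finset.sum_congr rfl fun c hc => ?_
      rw [hz']
      simp only [if_pos hc]
    · intro c _ hc
      rw [hz']
      simp only [if_neg hc, zero_smul]
  rw [hE]
  obtain ⟨c, hc, hzc⟩ := hz
  refine h z' ⟨c, hCC hc, ?_⟩
  rw [hz']
  simpa only [if_pos hc] using hzc

/-- `cb` lies in the cone of `R ∪ CC`. -/
lemma Ctr.sp_cb (h : Y.Ctr R φ) {CC : Finset Y.C} (hCC : ∀ c ∈ CC, c ∉ R) {z : Y.C → ℚ}
    (hz : ∀ c ∈ CC, 0 ≤ z c) : ∃ x y, Y.Sp R x ∧ Y.Sp CC y ∧ Y.cb φ CC z = x + y := by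
  refine ⟨∑ c ∈ CC, z c • (φ (Y.v ℚ c) - Y.v ℚ c), ∑ c ∈ CC, z c • Y.v ℚ c,
    Sp.sum Y fun c hc => Sp.smul Y (h.exp c (hCC c hc)) (hz c hc),
    Sp.sum Y fun c hc => Sp.smul Y (sp_v Y hc) (hz c hc), ?_⟩
  rw [cb, ← Finset.sum_add_distrib]
  refine Finset.sum_congr rfl fun c _ => ?_
  rw [← smul_add, sub_add_cancel]

/-! ### row C7: denominators -/

lemma c7_dot_single (CC : Finset Y.C) [DecidableEq Y.C] {c : Y.C} (hc : c ∈ CC) (a : ℚ) :
    Y.cb φ CC (fun d => if d = c then a else 0) = a • φ (Y.v ℚ c) := by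
  unfold cb
  rw [Finset.sum_eq_single c]
  · show (if c = c then a else 0) • _ = _
    rw [if_pos rfl]
  · intro b _ hb
    show (if b = c then a else 0) • _ = _
    rw [if_neg hb, zero_smul]
  · intro h
    exact absurd hc h

lemma c7_neg {CC : Finset Y.C} (h : Y.ND φ CC) {c : Y.C} (hc : c ∈ CC) :
    Y.dot (φ (Y.v ℚ c)) (φ (Y.v ℚ c)) < 0 := by
  classical
  have h1 := h (fun d => if d = c then 1 else 0) ⟨c, hc, by simp⟩
  rw [c7_dot_single CC hc, one_smul] at h1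
  exact h1

lemma c7_two {CC : Finset Y.C} (h : Y.ND φ CC) {c d : Y.C} (hc : c ∈ CC) (hd : d ∈ CC)
    (hcd : c ≠ d) (x y : ℚ) (hx : y ≠ 0) :
    x ^ 2 * Y.dot (φ (Y.v ℚ c)) (φ (Y.v ℚ c)) + 2 * x * y * Y.dot (φ (Y.v ℚ c)) (φ (Y.v ℚ d)) +
      y ^ 2 * Y.dot (φ (Y.v ℚ d)) (φ (Y.v ℚ d)) < 0 := by
  classical
  have h1 := h (fun e => (if e = c then x else 0) + (if e = d then y else 0))
    ⟨d, hd, by simp [hcd.symm, hx]⟩
  have h2 : Y.cb φ CC (fun e => (if e = c then x else 0) + (if e = d then y else 0)) =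
      x • φ (Y.v ℚ c) + y • φ (Y.v ℚ d) := by
    rw [← c7_dot_single CC hc x, ← c7_dot_single CC hd y]
    unfold cb
    rw [← Finset.sum_add_distrib]
    exact Finset.sum_congr rfl fun e _ => by rw [add_smul]
  rw [h2] at h1
  simp only [dot_add_left, dot_add_right, dot_smul_left, dot_smul_right] at h1
  rw [Y.dot_comm (φ (Y.v ℚ d)) (φ (Y.v ℚ c))] at h1
  linarith

lemma c7_cs {CC : Finset Y.C} (h : Y.ND φ CC) {c d : Y.C} (hc : c ∈ CC) (hd : d ∈ CC) :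
    Y.dot (φ (Y.v ℚ c)) (φ (Y.v ℚ d)) ^ 2 ≤
      Y.dot (φ (Y.v ℚ c)) (φ (Y.v ℚ c)) * Y.dot (φ (Y.v ℚ d)) (φ (Y.v ℚ d)) := by
  by_cases hcd : c = d
  · subst hcd
    exact le_of_eq (sq _)
  have h1 := c7_neg h hc
  have h2 := c7_two h hc hd hcd (Y.dot (φ (Y.v ℚ c)) (φ (Y.v ℚ d)))
    (-Y.dot (φ (Y.v ℚ c)) (φ (Y.v ℚ c))) (by linarith)
  set a := Y.dot (φ (Y.v ℚ c)) (φ (Y.v ℚ c))
  set b := Y.dot (φ (Y.v ℚ c)) (φ (Y.v ℚ d))
  set e := Y.dot (φ (Y.v ℚ d)) (φ (Y.v ℚ d))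
  have h3 : a * (a * e - b ^ 2) < 0 := by nlinarith
  by_contra h4
  push Not at h4
  nlinarith

lemma c7_abs {CC : Finset Y.C} (h : Y.ND φ CC) {n0 : ℕ}
    (hCC : ∀ c ∈ CC, -(n0 : ℚ) ≤ Y.dot (φ (Y.v ℚ c)) (φ (Y.v ℚ c))) {c d : Y.C} (hc : c ∈ CC)
    (hd : d ∈ CC) : |Y.dot (φ (Y.v ℚ c)) (φ (Y.v ℚ d))| ≤ n0 := by
  have h1 := c7_cs h hc hd
  have h2 := c7_neg h hc
  have h3 := c7_neg h hd
  have h4 := hCC c hc
  have h5 := hCC d hd
  apply abs_le_of_sq_le_sq _ (Nat.cast_nonneg n0)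
  nlinarith

lemma c7_cb (CC : Finset Y.C) (z : Y.C → ℚ) :
    Y.cb φ CC z = ∑ c : CC, z c.1 • φ (Y.v ℚ c.1) := by
  unfold cb
  rw [Finset.sum_coe_sort CC (fun c => z c • φ (Y.v ℚ c))]

lemma c7_fact {s t : ℕ} (hst : s ≤ t) {b : ℕ} (hb : 1 ≤ b) :
    s.factorial * b ^ s ≤ t.factorial * b ^ t :=
  Nat.mul_le_mul (Nat.factorial_le hst) (Nat.pow_le_pow_right hb hst)

lemma c7_det {n : Type} [Fintype n] [DecidableEq n] (A : Matrix n n ℤ) {b s : ℕ} (hb : 1 ≤ b)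
    (hs : Fintype.card n ≤ s) (hA : ∀ i j, |A i j| ≤ b) : |A.det| ≤ ((s.factorial * b ^ s : ℕ) : ℤ) := by
  have h1 := Matrix.det_le (A := A) (abv := AbsoluteValue.abs) (x := (b : ℤ)) hA
  have h2 : |A.det| ≤ (Fintype.card n).factorial • (b : ℤ) ^ Fintype.card n := h1
  refine h2.trans ?_
  have h3 := c7_fact hs hb
  rw [nsmul_eq_mul]
  exact_mod_cast h3

lemma c7_cramer {n : Type} [Fintype n] [DecidableEq n] (A : Matrix n n ℚ) (z : n → ℚ) (i : n) :
    A.det * z i = (A.updateCol i (A.mulVec z)).det := by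
  rw [← Matrix.cramer_apply, Matrix.cramer_eq_adjugate_mulVec, Matrix.mulVec_mulVec,
    Matrix.adjugate_mul, Matrix.smul_mulVec, Matrix.one_mulVec]
  rfl

/-- The Gram matrix of `CC` is integral with entries at most `n0` in absolute value
(`(φ(c) φ(c')) ^ 2 ≤ φ(c) ^ 2 φ(c') ^ 2`), so its determinant is a nonzero integer of absolute value at most
`m ! n0 ^ m`, `m` the number of curves (`Matrix.det_le`); Cramer's rule. -/
theorem ND.denom (hφ : Y.Ctr R φ) {CC : Finset Y.C} (h : Y.ND φ CC) {n0 : ℕ} (hn0 : 1 ≤ n0)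
    (hCC : ∀ c ∈ CC, -(n0 : ℚ) ≤ Y.dot (φ (Y.v ℚ c)) (φ (Y.v ℚ c))) {s : ℕ} (hs : CC.card ≤ s)
    {z : Y.C → ℚ} {b : Y.C → ℤ}
    (hz : ∀ c ∈ CC, Y.dot (Y.cb φ CC z) (φ (Y.v ℚ c)) = b c) :
    ∀ c ∈ CC, (∃ m : ℤ, (((s.factorial * n0 ^ s).factorial : ℕ) : ℚ) * z c = m) ∧
      ∀ b0 : ℕ, n0 ≤ b0 → (∀ c ∈ CC, |b c| ≤ b0) → |z c| ≤ (s.factorial * b0 ^ s : ℕ) := by
  classical
  have hint : ∀ c d : Y.C, ∃ a : ℤ, Y.dot (φ (Y.v ℚ c)) (φ (Y.v ℚ d)) = a := fun c d =>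
    Y.isInt_dot (hφ.int _ (Y.isInt_v c)) (hφ.int _ (Y.isInt_v d))
  choose g hg using hint
  let A : Matrix CC CC ℤ := fun c d => g c.1 d.1
  let M : Matrix CC CC ℚ := fun c d => Y.dot (φ (Y.v ℚ c.1)) (φ (Y.v ℚ d.1))
  have hMA : M = A.map (Int.castRingHom ℚ) := by
    ext c d
    exact hg c.1 d.1
  have hA : ∀ i j, |A i j| ≤ (n0 : ℤ) := by
    intro i j
    have h1 := c7_abs h hCC i.2 j.2
    rw [hg] at h1
    exact_mod_cast h1
  have hcbM : ∀ (w : Y.C → ℚ) (c : CC), Y.dot (Y.cb φ CC w) (φ (Y.v ℚ c.1)) =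
      M.mulVec (fun d => w d.1) c := by
    intro w c
    rw [c7_cb, dot_sum_left]
    unfold Matrix.mulVec dotProduct
    refine Finset.sum_congr rfl fun d _ => ?_
    rw [dot_smul_left, Y.dot_comm (φ (Y.v ℚ d.1)) (φ (Y.v ℚ c.1))]
    exact mul_comm _ _
  have hdet : M.det ≠ 0 := by
    intro h0
    obtain ⟨w, hw, hw'⟩ := Matrix.exists_mulVec_eq_zero_iff.2 h0
    obtain ⟨c, hc⟩ := Function.ne_iff.1 hw
    let w' : Y.C → ℚ := fun d => if hd : d ∈ CC then w ⟨d, hd⟩ else 0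
    have hw1 : (fun d : CC => w' d.1) = w := by
      funext d
      simp only [w', d.2, dif_pos]
    have hwc : w' c.1 = w c := congrFun hw1 c
    have h1 := h w' ⟨c.1, c.2, by
      rw [hwc]
      exact hc⟩
    have h2 : Y.dot (Y.cb φ CC w') (Y.cb φ CC w') = 0 := by
      calc Y.dot (Y.cb φ CC w') (Y.cb φ CC w') =
          Y.dot (Y.cb φ CC w') (∑ d : CC, w' d.1 • φ (Y.v ℚ d.1)) := by rw [← c7_cb]
        _ = ∑ d : CC, w' d.1 * Y.dot (Y.cb φ CC w') (φ (Y.v ℚ d.1)) := by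
          rw [dot_sum_right]
          exact Finset.sum_congr rfl fun d _ => dot_smul_right _ _ _ _
        _ = 0 := by
          refine Finset.sum_eq_zero fun d _ => ?_
          rw [hcbM w' d, hw1, hw', Pi.zero_apply, mul_zero]
    linarith
  have hdetA : M.det = (A.det : ℚ) := by
    rw [hMA]
    exact (RingHom.map_det (Int.castRingHom ℚ) A).symm
  have hdetA0 : A.det ≠ 0 := by
    intro h0
    rw [hdetA, h0, Int.cast_zero] at hdet
    exact hdet rfl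
  have hdA := c7_det A (s := s) hn0 (by rw [Fintype.card_coe]; exact hs) hA
  intro c hc
  -- Cramer's rule
  let c' : CC := ⟨c, hc⟩
  have hcr : (A.det : ℚ) * z c = ((A.updateCol c' (fun d => b d.1)).det : ℚ) := by
    have h1 := c7_cramer M (fun d => z d.1) c'
    have h2 : M.mulVec (fun d : CC => z d.1) = fun d : CC => ((b d.1 : ℤ) : ℚ) := by
      funext d
      rw [← hcbM z d]
      exact hz d.1 d.2
    rw [h2, hdetA] at h1
    rw [show (c' : CC).1 = c from rfl] at h1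
    rw [h1]
    have h3 : M.updateCol c' (fun d : CC => ((b d.1 : ℤ) : ℚ)) =
        (A.updateCol c' (fun d => b d.1)).map (Int.castRingHom ℚ) := by
      ext i j
      rw [Matrix.map_apply, Matrix.updateCol_apply, Matrix.updateCol_apply]
      split_ifs
      · rfl
      · rw [hMA, Matrix.map_apply]
    rw [h3]
    exact (RingHom.map_det (Int.castRingHom ℚ) _).symm
  refine ⟨?_, ?_⟩
  · have hdvd : A.det.natAbs ∣ (s.factorial * n0 ^ s).factorial := by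
      apply Nat.dvd_factorial (Int.natAbs_pos.2 hdetA0)
      have h1 : (A.det.natAbs : ℤ) ≤ ((s.factorial * n0 ^ s : ℕ) : ℤ) := by
        rw [Int.natCast_natAbs]
        exact hdA
      exact_mod_cast h1
    have hdvd' : A.det ∣ (((s.factorial * n0 ^ s).factorial : ℕ) : ℤ) :=
      Int.natAbs_dvd.1 (Int.natCast_dvd_natCast.2 hdvd)
    obtain ⟨k, hk⟩ := hdvd'
    refine ⟨k * (A.updateCol c' (fun d => b d.1)).det, ?_⟩
    have hk' : (((s.factorial * n0 ^ s).factorial : ℕ) : ℚ) = (A.det : ℚ) * (k : ℚ) := by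
      exact_mod_cast hk
    rw [hk', Int.cast_mul, ← hcr]
    ring
  · intro b0 hb0 hb
    have h1 := c7_det (A.updateCol c' (fun d => b d.1)) (b := b0) (s := s) (by omega)
      (by rw [Fintype.card_coe]; exact hs) (by
        intro i j
        rw [Matrix.updateCol_apply]
        split_ifs
        · exact hb i.1 i.2
        · exact (hA i j).trans (by exact_mod_cast hb0))
    have h2 : |(A.det : ℚ)| * |z c| ≤ ((s.factorial * b0 ^ s : ℕ) : ℚ) := by
      rw [← abs_mul, hcr]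
      exact_mod_cast h1
    have h3 : (1 : ℚ) ≤ |(A.det : ℚ)| := by
      have : (1 : ℤ) ≤ |A.det| := Int.one_le_abs hdetA0
      exact_mod_cast this
    calc |z c| = 1 * |z c| := (one_mul _).symm
      _ ≤ |(A.det : ℚ)| * |z c| := mul_le_mul_of_nonneg_right h3 (abs_nonneg _)
      _ ≤ _ := h2

end NS

end Pool.Agent.LibKA2
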