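import Mathlib

/-!
Numerical surfaces: a lattice `ℤ^m` with a form of signature `(1, m - 1)`, the classes of the
curves, the dimensions `h0`, and exactly the properties of them which are used.
-/

set_option autoImplicit false

namespace Pool.Agent.LibKA2

variable {m : ℕ}

/-- The form with the Gram matrix `G`. -/
def fm {k : Type} [CommRing k] (G : Matrix (Fin m) (Fin m) ℤ) (x y : Fin m → k) : k :=
  ∑ i, ∑ j, (G i j : k) * (x i * y j)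

/-- Integral classes in the ring `k`. -/
def cst (k : Type) [CommRing k] (x : Fin m → ℤ) : Fin m → k := fun i => (x i : k)

/-- Rational classes as real classes. -/
def rl (x : Fin m → ℚ) : Fin m → ℝ := fun i => (x i : ℝ)

/-- `x` is integral. -/
def IsInt (x : Fin m → ℚ) : Prop := ∃ y : Fin m → ℤ, x = cst ℚ y

/-- The numerical data of a smooth rational surface of Picard number `m`. -/
structure NS (m : ℕ) where
  /-- the curves (prime divisors) -/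
  C : Type
  /-- the Gram matrix of the intersection form -/
  G : Matrix (Fin m) (Fin m) ℤ
  /-- the canonical class -/
  K : Fin m → ℤ
  /-- the classes of the curves -/
  cl : C → Fin m → ℤ
  /-- the dimension of the space of sections -/
  h0 : (Fin m → ℤ) → ℕ
  /-- an ample class -/
  A : Fin m → ℤ
  /-- a nef and effective class with `K l < 0` -/
  l : Fin m → ℤ
  symm : ∀ i j, G i j = G j i
  parity : ∀ D, (2 : ℤ) ∣ fm G D D + fm G K D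
  noether : fm G K K + m = 10
  A_sq : 0 < fm G A A
  hodge : ∀ D, fm G A D = 0 → D ≠ 0 → fm G D D < 0
  rr : ∀ D, 2 + fm G D D - fm G K D ≤ 2 * ((h0 D : ℤ) + h0 (K - D))
  pos : ∀ c c', c ≠ c' → 0 ≤ fm G (cl c) (cl c')
  mono : ∀ D c, h0 (D - cl c) ≤ h0 D
  sub : ∀ D c, (h0 D : ℤ) ≤ h0 (D - cl c) + max 0 (fm G D (cl c) + 1)
  zero : h0 0 = 1
  mem : ∀ D, 0 < h0 D → ∀ F : Finset C, (∀ c ∈ F, h0 (D - cl c) < h0 D) →
    ∃ a : C →₀ ℕ, (∀ c ∈ F, a c = 0) ∧ D = a.sum fun c b => b • cl c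
  eff : ∀ a : C →₀ ℕ, 0 < h0 (a.sum fun c b => b • cl c)
  pa : ∀ c, -2 ≤ fm G (cl c) (cl c) + fm G K (cl c)
  l_nef : ∀ c, 0 ≤ fm G l (cl c)
  l_eff : 0 < h0 l
  K_l : fm G K l < 0
  deg : ∀ c, 1 ≤ fm G A (cl c)
  ample : ∀ F : Fin m → ℤ, ∃ N : ℕ, ∀ c, 0 ≤ fm G ((N : ℤ) • A + F) (cl c)

namespace NS

variable (Y : NS m)

/-- The intersection form. -/
def dot {k : Type} [CommRing k] (x y : Fin m → k) : k := fm Y.G x y

/-- The canonical class in the ring `k`. -/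
def KC (k : Type) [CommRing k] : Fin m → k := cst k Y.K

/-- The ample class in the ring `k`. -/
def AC (k : Type) [CommRing k] : Fin m → k := cst k Y.A

/-- The class of the curve `c` in the ring `k`. -/
def v (k : Type) [CommRing k] (c : Y.C) : Fin m → k := cst k (Y.cl c)

/-- Nef classes. -/
def Nef {k : Type} [CommRing k] [LE k] (x : Fin m → k) : Prop := ∀ c, 0 ≤ Y.dot x (Y.v k c)

/-- Classes which are combinations of curves with coefficients `≥ 0`. -/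
def QEff (x : Fin m → ℚ) : Prop :=
  ∃ a : Y.C →₀ ℚ, (∀ c, 0 ≤ a c) ∧ x = a.sum fun c b => b • Y.v ℚ c

/-- The class `K + Γ`. -/
def KG (SS : Finset Y.C) (Γ : Y.C → ℚ) : Fin m → ℚ :=
  Y.KC ℚ + ∑ c ∈ SS, Γ c • Y.v ℚ c

/-- `x` is the sum of the curves of `R` with coefficients `≥ 0`. -/
def Sp (R : Finset Y.C) (x : Fin m → ℚ) : Prop :=
  ∃ a : Y.C → ℚ, (∀ r, 0 ≤ a r) ∧ x = ∑ r ∈ R, a r • Y.v ℚ r

/-- `φ` is the projection to the classes of the surface obtained by contracting the curves of `R`,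
one after the other. -/
structure Ctr (R : Finset Y.C) (φ : (Fin m → ℚ) →ₗ[ℚ] (Fin m → ℚ)) : Prop where
  idem : ∀ x, φ (φ x) = φ x
  adj : ∀ x y, Y.dot (φ x) y = Y.dot x (φ y)
  int : ∀ x, IsInt x → IsInt (φ x)
  sq : ∀ x, Y.dot x x ≤ Y.dot (φ x) (φ x)
  ker : ∀ c ∈ R, φ (Y.v ℚ c) = 0
  exp : ∀ c, c ∉ R → Y.Sp R (φ (Y.v ℚ c) - Y.v ℚ c)
  pa : ∀ c, c ∉ R → -2 ≤ Y.dot (φ (Y.v ℚ c)) (φ (Y.v ℚ c)) + Y.dot (Y.KC ℚ) (φ (Y.v ℚ c))
  kk : Y.dot (φ (Y.KC ℚ)) (φ (Y.KC ℚ)) + (Module.finrank ℚ (LinearMap.range φ) : ℚ) = 10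

/-- The combination of the images of the curves of `CC`. -/
def cb (φ : (Fin m → ℚ) →ₗ[ℚ] (Fin m → ℚ)) (CC : Finset Y.C) (z : Y.C → ℚ) :
    Fin m → ℚ := ∑ c ∈ CC, z c • φ (Y.v ℚ c)

/-- The images of the curves of `CC` are negative definite. -/
def ND (φ : (Fin m → ℚ) →ₗ[ℚ] (Fin m → ℚ)) (CC : Finset Y.C) : Prop :=
  ∀ z : Y.C → ℚ, (∃ c ∈ CC, z c ≠ 0) → Y.dot (Y.cb φ CC z) (Y.cb φ CC z) < 0

/-- The class `K' + Γ'` on the contracted surface. -/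
def DD (φ : (Fin m → ℚ) →ₗ[ℚ] (Fin m → ℚ)) (SS : Finset Y.C) (γ : Y.C → ℚ) :
    Fin m → ℚ := φ (Y.KC ℚ) + Y.cb φ SS γ

/-- The states of the algorithm. -/
structure St (SS : Finset Y.C) (Γ : Y.C → ℚ) (R : Finset Y.C)
    (φ : (Fin m → ℚ) →ₗ[ℚ] (Fin m → ℚ)) (CC : Finset Y.C) (γ : Y.C → ℚ) : Prop where
  ctr : Y.Ctr R φ
  sub : CC ⊆ SS
  disj : ∀ c ∈ CC, c ∉ R
  nd : Y.ND φ CC
  nonneg : ∀ c, 0 ≤ γ c
  lt : ∀ c, γ c < 1
  le : ∀ c ∈ CC, Y.dot (Y.DD φ SS γ) (Y.v ℚ c) ≤ 0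
  sp : ∃ x y, Y.Sp R x ∧ Y.Sp CC y ∧ Y.KG SS Γ - Y.DD φ SS γ = x + y

/-- States with `D' c = 0` and `K' c ≥ 0` on `CC`. -/
structure St0 (SS : Finset Y.C) (Γ : Y.C → ℚ) (R : Finset Y.C)
    (φ : (Fin m → ℚ) →ₗ[ℚ] (Fin m → ℚ)) (CC : Finset Y.C) (γ : Y.C → ℚ) : Prop
    extends Y.St SS Γ R φ CC γ where
  eq : ∀ c ∈ CC, Y.dot (Y.DD φ SS γ) (Y.v ℚ c) = 0
  kpos : ∀ c ∈ CC, 0 ≤ Y.dot (Y.KC ℚ) (φ (Y.v ℚ c))

/-- What the criterion gives: a nef class with denominator `d`. -/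
def Good (SS : Finset Y.C) (Γ : Y.C → ℚ) (d : ℕ) (B : ℚ) : Prop :=
  ∃ α : Fin m → ℚ, Y.Nef α ∧ IsInt ((d : ℚ) • α) ∧ Y.dot (Y.KG SS Γ) α < 0 ∧
    0 < -Y.dot (Y.KC ℚ) α ∧ -Y.dot (Y.KC ℚ) α ≤ B

end NS

end Pool.Agent.LibKA2
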