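import Pool.Agent.LibKA2.Nef

/-!
The mobile part of a class, and nef real classes `P` with `P ^ 2 = 0`, `K P < 0`.
-/

set_option autoImplicit false

namespace Pool.Agent.LibKA2

open Finset

variable {m : ℕ}

namespace NS

variable (Y : NS m)

/-! ### row M1: the mobile part -/

/-- Strong induction on the degree `(Y.dot Y.A D).toNat`: if `h0 (D - c) = h0 D` for some `c` go on with `D - c`
(its degree is smaller and still `≥ 0`, because it has a section). -/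
theorem mobile {D : Fin m → ℤ} (h : 0 < Y.h0 D) :
    ∃ (M : Fin m → ℤ) (f : Y.C →₀ ℕ), D = M + f.sum (fun c b => b • Y.cl c) ∧
      Y.h0 M = Y.h0 D ∧ ∀ c, Y.h0 (M - Y.cl c) < Y.h0 M := by
  classical
  obtain ⟨n, hn⟩ : ∃ n : ℕ, (Y.dot Y.A D).toNat = n := ⟨_, rfl⟩
  induction n using Nat.strong_induction_on generalizing D with
  | _ n ih =>
    by_cases hc : ∀ c, Y.h0 (D - Y.cl c) < Y.h0 D
    · exact ⟨D, 0, by simp, rfl, hc⟩
    · push Not at hc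
      obtain ⟨c, hc⟩ := hc
      have h1 : Y.h0 (D - Y.cl c) = Y.h0 D := le_antisymm (Y.mono D c) hc
      have h2 : 0 < Y.h0 (D - Y.cl c) := by rw [h1]; exact h
      have h3 : 0 ≤ Y.dot Y.A (D - Y.cl c) := by
        have h4 := Y.nef_mul Y.A_nef h2
        have h5 : Y.dot (Y.AC ℚ) (cst ℚ (D - Y.cl c)) =
            ((Y.dot Y.A (D - Y.cl c) : ℤ) : ℚ) := Y.dot_cst _ _
        rw [h5] at h4
        exact_mod_cast h4
      have h4 : Y.dot Y.A (D - Y.cl c) = Y.dot Y.A D - Y.dot Y.A (Y.cl c) := Y.dot_sub_right _ _ _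
      have h5 : 1 ≤ Y.dot Y.A (Y.cl c) := Y.deg c
      obtain ⟨M, f, hM, hM1, hM2⟩ := ih (Y.dot Y.A (D - Y.cl c)).toNat (by omega) h2 rfl
      refine ⟨M, f + Finsupp.single c 1, ?_, hM1.trans h1, hM2⟩
      have h6 : (f + Finsupp.single c 1).sum (fun c b => b • Y.cl c) =
          f.sum (fun c b => b • Y.cl c) + Y.cl c := by
        rw [Finsupp.sum_add_index' (h := fun c b => b • Y.cl c) (fun _ => zero_smul _ _)
          (fun _ _ _ => add_smul _ _ _), Finsupp.sum_single_index (h := fun c b => b • Y.cl c) (zero_smul _ _),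
          one_smul]
      rw [h6, ← add_assoc, ← hM]
      abel

/-! ### row M2: sections of mobile classes -/

private lemma M2_dot (a : Y.C →₀ ℕ) (y : Fin m → ℤ) :
    Y.dot y (a.sum fun c b => b • Y.cl c) = a.sum fun c b => (b : ℤ) * Y.dot y (Y.cl c) := by
  unfold Finsupp.sum
  rw [Y.dot_sum_right]
  exact sum_congr rfl fun c _ => Y.dot_nsmul_right _ _ _

private lemma M2_pos (a : Y.C →₀ ℕ) (c : Y.C)
    (h : a c ≠ 0 → 0 ≤ Y.dot (Y.cl c) (Y.cl c)) :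
    0 ≤ Y.dot (a.sum fun c b => b • Y.cl c) (Y.cl c) := by
  rw [Y.dot_comm, M2_dot]
  refine sum_nonneg fun c' hc' => mul_nonneg (Int.natCast_nonneg _) ?_
  by_cases hcc : c' = c
  · subst hcc
    exact h (Finsupp.mem_support_iff.1 hc')
  · rw [Y.dot_comm]
    exact Y.pos c' c hcc

/-- all components have square `≥ 0`: choose the member without the negative curves of degree
`≤ A M` (`finite_neg`, `Y.mem`); its components have degree `≤ A M`. -/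
lemma mobile_mem {M : Fin m → ℤ} (h : 0 < Y.h0 M)
    (hM : ∀ c, Y.h0 (M - Y.cl c) < Y.h0 M) :
    ∃ g : Y.C →₀ ℕ, M = g.sum (fun c b => b • Y.cl c) ∧
      ∀ c, g c ≠ 0 → 0 ≤ Y.dot (Y.cl c) (Y.cl c) := by
  classical
  obtain ⟨a, ha, haM⟩ := Y.mem M h (Y.finite_neg (Y.dot Y.A M)).toFinset (fun c _ => hM c)
  refine ⟨a, haM, fun c hc => ?_⟩
  by_contra hcon
  push Not at hcon
  apply hc
  apply ha
  rw [Set.Finite.mem_toFinset]
  refine ⟨hcon, ?_⟩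
  have h1 : Y.dot Y.A M = a.sum fun c b => (b : ℤ) * Y.dot Y.A (Y.cl c) := by
    conv_lhs => rw [haM]
    exact Y.M2_dot a Y.A
  rw [h1]
  have h2 : (a c : ℤ) * Y.dot Y.A (Y.cl c) ≤ a.sum fun c b => (b : ℤ) * Y.dot Y.A (Y.cl c) :=
    single_le_sum (f := fun c => (a c : ℤ) * Y.dot Y.A (Y.cl c))
      (fun c' _ => mul_nonneg (Int.natCast_nonneg _) (zero_le_one.trans (Y.deg c')))
      (Finsupp.mem_support_iff.2 hc)
  have h3 : (1 : ℤ) ≤ a c := by exact_mod_cast Nat.one_le_iff_ne_zero.2 hc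
  have h4 : (0 : ℤ) ≤ Y.dot Y.A (Y.cl c) := zero_le_one.trans (Y.deg c)
  nlinarith

/-- `Y.mem` with `F = {c}` gives a member without the component `c`. -/
lemma mobile_nef {M : Fin m → ℤ} (h : 0 < Y.h0 M)
    (hM : ∀ c, Y.h0 (M - Y.cl c) < Y.h0 M) (c : Y.C) : 0 ≤ Y.dot M (Y.cl c) := by
  obtain ⟨a, ha, haM⟩ := Y.mem M h {c} (fun c _ => hM c)
  rw [haM]
  exact Y.M2_pos a c fun h0 => absurd (ha c (mem_singleton_self c)) h0

/-- Let `g` be a sum of curves with square `≥ 0` (so that `g' c ≥ 0` for all `g' ≤ g`, `c` in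
the support of `g`).  Induction on `g' ≤ g` (remove one curve after the other, `Y.sub`): with `M = cls g`,
`h0 (cls g') ≤ 1 + ∑ g'_c (M c + 1)`, hence `h0 M ≤ 1 + M ^ 2 + ∑ g_c`. -/
theorem h0_le {M : Fin m → ℤ} (g : Y.C →₀ ℕ)
    (hg : M = g.sum (fun c b => b • Y.cl c))
    (h : ∀ c, g c ≠ 0 → 0 ≤ Y.dot (Y.cl c) (Y.cl c)) :
    (Y.h0 M : ℤ) ≤ 1 + Y.dot M M + g.sum fun _ b => (b : ℤ) := by
  classical
  have hcls : ∀ x y : Y.C →₀ ℕ, (x + y).sum (fun c b => b • Y.cl c) =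
      x.sum (fun c b => b • Y.cl c) + y.sum (fun c b => b • Y.cl c) := fun x y =>
    Finsupp.sum_add_index' (fun _ => zero_smul _ _) (fun _ _ _ => add_smul _ _ _)
  have hsg : ∀ c : Y.C, (Finsupp.single c 1).sum (fun c b => b • Y.cl c) = Y.cl c := fun c => by
    rw [Finsupp.sum_single_index (h := fun c b => b • Y.cl c) (zero_smul _ _), one_smul]
  have key : ∀ n : ℕ, ∀ g' : Y.C →₀ ℕ, (∃ g'', g = g' + g'') → (g'.sum fun _ b => b) = n →
      (Y.h0 (g'.sum fun c b => b • Y.cl c) : ℤ) ≤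
        1 + g'.sum fun c b => (b : ℤ) * (Y.dot M (Y.cl c) + 1) := by
    intro n
    induction n with
    | zero =>
      intro g' _ hn
      have h0 : g' = 0 := by
        ext c
        by_contra hc
        have h1 : c ∈ g'.support := Finsupp.mem_support_iff.2 hc
        exact hc (Finset.sum_eq_zero_iff.1 hn c h1)
      rw [h0, Finsupp.sum_zero_index, Finsupp.sum_zero_index, Y.zero]
      norm_num
    | succ n ih =>
      intro g' hg' hn
      obtain ⟨g'', hg''⟩ := hg'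
      have h0 : g' ≠ 0 := by
        rintro rfl
        rw [Finsupp.sum_zero_index] at hn
        omega
      obtain ⟨c, hc⟩ := Finsupp.support_nonempty_iff.2 h0
      have hc1 := Finsupp.mem_support_iff.1 hc
      obtain ⟨g1, hg1⟩ : ∃ g1, g' = g1 + Finsupp.single c 1 := by
        refine ⟨g' - Finsupp.single c 1, ?_⟩
        rw [tsub_add_cancel_of_le]
        rw [Finsupp.single_le_iff]
        exact Nat.one_le_iff_ne_zero.2 hc1
      have hgc : g c ≠ 0 := by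
        rw [hg'', Finsupp.add_apply]
        omega
      have hn1 : (g1.sum fun _ b => b) = n := by
        have h2 : (g'.sum fun _ b => b) = (g1.sum fun _ b => b) + 1 := by
          rw [hg1, Finsupp.sum_add_index' (fun _ => rfl) (fun _ _ _ => rfl),
            Finsupp.sum_single_index rfl]
        omega
      have h3 := ih g1 ⟨Finsupp.single c 1 + g'', by rw [← add_assoc, ← hg1, hg'']⟩ hn1
      have h4 := Y.sub (g'.sum fun c b => b • Y.cl c) c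
      have h5 : (g'.sum fun c b => b • Y.cl c) - Y.cl c = g1.sum fun c b => b • Y.cl c := by
        rw [hg1, hcls, hsg, add_sub_cancel_right]
      rw [h5] at h4
      have h6 : 0 ≤ Y.dot (g'.sum fun c b => b • Y.cl c) (Y.cl c) :=
        Y.M2_pos g' c fun _ => h c hgc
      have h7 : 0 ≤ Y.dot (g''.sum fun c b => b • Y.cl c) (Y.cl c) :=
        Y.M2_pos g'' c fun _ => h c hgc
      have h8 : Y.dot M (Y.cl c) = Y.dot (g'.sum fun c b => b • Y.cl c) (Y.cl c) +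
          Y.dot (g''.sum fun c b => b • Y.cl c) (Y.cl c) := by
        rw [hg, hg'', hcls, Y.dot_add_left]
      have h9 : (g'.sum fun c b => (b : ℤ) * (Y.dot M (Y.cl c) + 1)) =
          (g1.sum fun c b => (b : ℤ) * (Y.dot M (Y.cl c) + 1)) + (Y.dot M (Y.cl c) + 1) := by
        rw [hg1, Finsupp.sum_add_index' (fun _ => by simp)
          (fun _ _ _ => by push_cast; ring), Finsupp.sum_single_index (by simp)]
        simp
      have h10 : max 0 (fm Y.G (g'.sum fun c b => b • Y.cl c) (Y.cl c) + 1) ≤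
          Y.dot M (Y.cl c) + 1 := by
        have h11 : fm Y.G (g'.sum fun c b => b • Y.cl c) (Y.cl c) =
          Y.dot (g'.sum fun c b => b • Y.cl c) (Y.cl c) := rfl
        rw [h11]
        exact max_le (by linarith) (by linarith)
      rw [h9]
      linarith
  have h1 := key _ g ⟨0, by rw [add_zero]⟩ rfl
  rw [← hg] at h1
  refine h1.trans (le_of_eq ?_)
  have h2 : Y.dot M M = g.sum fun c b => (b : ℤ) * Y.dot M (Y.cl c) := by
    conv_lhs => rw [hg]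
    rw [Y.M2_dot, ← hg]
  rw [h2, add_assoc]
  congr 1
  unfold Finsupp.sum
  rw [← sum_add_distrib]
  exact sum_congr rfl fun c _ => by ring

/-! ### row M3: approximation -/

/-- Dirichlet. -/
lemma dirichlet (t : ℝ) {η : ℝ} (hη : 0 < η) (N : ℕ) :
    ∃ (b : ℕ) (p : ℤ), N ≤ b ∧ 0 < b ∧ |p - b * t| ≤ η := by
  obtain ⟨n, hn⟩ := exists_nat_gt ((N + 1 : ℝ) / η)
  have hn1 : (0 : ℝ) < n := lt_of_le_of_lt (by positivity) hn
  have hn0 : 0 < n := by exact_mod_cast hn1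
  obtain ⟨j, k, hk, hkn, hjk⟩ := Real.exists_int_int_abs_mul_sub_le t hn0
  obtain ⟨k', rfl⟩ : ∃ k' : ℕ, k = k' := ⟨k.toNat, (Int.toNat_of_nonneg hk.le).symm⟩
  have hk1 : 1 ≤ k' := by omega
  refine ⟨(N + 1) * k', ((N : ℤ) + 1) * j, ?_, ?_, ?_⟩
  · nlinarith
  · positivity
  · have h1 : (((((N : ℤ) + 1) * j : ℤ) : ℝ) - (((N + 1) * k' : ℕ) : ℝ) * t)
        = -((N + 1 : ℝ) * (((k' : ℤ) : ℝ) * t - j)) := by
      push_cast
      ring
    rw [h1, abs_neg, abs_mul, abs_of_pos (by positivity : (0 : ℝ) < (N + 1 : ℝ))]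
    have h2 : (N + 1 : ℝ) * |((k' : ℤ) : ℝ) * t - j| ≤ (N + 1 : ℝ) * (1 / ((n : ℝ) + 1)) :=
      mul_le_mul_of_nonneg_left hjk (by positivity)
    refine h2.trans ?_
    rw [mul_one_div, div_le_iff₀ (by positivity)]
    rw [div_lt_iff₀ hη] at hn
    nlinarith

/-- For `η` and `N` there are an integral class `D = b P + δ H`, `b ≥ N`, `|δ| ≤ η`
(common integral multiples `d X`, `d H` of `X`, `H`, and `dirichlet`). -/
lemma approx {X H : Fin m → ℚ} {t η : ℝ} (hη : 0 < η) (N : ℕ) :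
    ∃ (D : Fin m → ℤ) (b δ : ℝ), (N : ℝ) ≤ b ∧ 1 ≤ b ∧ |δ| ≤ η ∧
      cst ℝ D = b • (rl X + t • rl H) + δ • rl H := by
  obtain ⟨a1, ha1, x, hx⟩ := exists_isInt X
  obtain ⟨a2, ha2, y, hy⟩ := exists_isInt H
  have hd : (0 : ℝ) < (a1 : ℝ) * a2 := by positivity
  have hd1 : (1 : ℝ) ≤ (a1 : ℝ) * a2 := by
    have : 1 ≤ a1 * a2 := Nat.succ_le_of_lt (Nat.mul_pos ha1 ha2)
    exact_mod_cast this
  obtain ⟨b, p, hb, hb0, hp⟩ := dirichlet t (div_pos hη hd) N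
  have hb1 : (1 : ℝ) ≤ b := by exact_mod_cast hb0
  have hbN : (N : ℝ) ≤ b := by exact_mod_cast hb
  refine ⟨fun i => (b : ℤ) * ((a2 : ℤ) * x i) + p * ((a1 : ℤ) * y i), (a1 : ℝ) * a2 * b,
    (a1 : ℝ) * a2 * (p - b * t), ?_, ?_, ?_, ?_⟩
  · nlinarith
  · nlinarith
  · rw [abs_mul, abs_of_pos hd]
    calc (a1 : ℝ) * a2 * |(p : ℝ) - b * t| ≤ (a1 : ℝ) * a2 * (η / ((a1 : ℝ) * a2)) :=
          mul_le_mul_of_nonneg_left hp hd.le
      _ = η := by field_simp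
  · funext i
    have hxi : ((a1 : ℝ)) * (X i : ℝ) = x i := by
      have h1 : ((a1 : ℚ)) * X i = (x i : ℚ) := congrFun hx i
      exact_mod_cast congrArg (fun q : ℚ => (q : ℝ)) h1
    have hyi : ((a2 : ℝ)) * (H i : ℝ) = y i := by
      have h1 : ((a2 : ℚ)) * H i = (y i : ℚ) := congrFun hy i
      exact_mod_cast congrArg (fun q : ℚ => (q : ℝ)) h1
    simp only [cst, rl, Pi.add_apply, Pi.smul_apply, smul_eq_mul]
    push_cast
    rw [← hxi, ← hyi]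
    ring

/-! ### row M4: many components -/

private lemma M4_eta {κ HP kh hh hl : ℝ} (hκ : 0 < κ) (h1 : 0 ≤ HP) (h2 : 0 ≤ kh) (h3 : 0 ≤ hh)
    (h4 : 0 ≤ hl) : ∃ η : ℝ, 0 < η ∧ η ≤ 1 ∧ 3 * η * HP + η * kh / 2 + η ^ 2 * hh ≤ κ / 4 ∧
      η * hl < 1 := by
  have hS : 0 < 1 + 3 * HP + kh + hh := by linarith
  have hT : 0 < 2 * (1 + hl) := by linarith
  refine ⟨min (min 1 (κ / (4 * (1 + 3 * HP + kh + hh)))) (1 / (2 * (1 + hl))), ?_, ?_, ?_, ?_⟩
  · refine lt_min (lt_min one_pos ?_) ?_ <;> positivity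
  · exact (min_le_left _ _).trans (min_le_left _ _)
  · set η := min (min 1 (κ / (4 * (1 + 3 * HP + kh + hh)))) (1 / (2 * (1 + hl))) with hη
    have h0 : 0 < η := by
      refine lt_min (lt_min one_pos ?_) ?_ <;> positivity
    have h1' : η ≤ 1 := (min_le_left _ _).trans (min_le_left _ _)
    have h2' : η ≤ κ / (4 * (1 + 3 * HP + kh + hh)) := (min_le_left _ _).trans (min_le_right _ _)
    have h3' : η * (4 * (1 + 3 * HP + kh + hh)) ≤ κ := by
      rwa [le_div_iff₀ (by linarith)] at h2'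
    have h4' : η ^ 2 * hh ≤ η * hh := by
      have : η ^ 2 ≤ η := by nlinarith
      exact mul_le_mul_of_nonneg_right this h3
    have h5' : 0 ≤ η * kh := mul_nonneg h0.le h2
    nlinarith
  · set η := min (min 1 (κ / (4 * (1 + 3 * HP + kh + hh)))) (1 / (2 * (1 + hl))) with hη
    have h2' : η ≤ 1 / (2 * (1 + hl)) := min_le_right _ _
    have h3' : η * (2 * (1 + hl)) ≤ 1 := by
      rwa [le_div_iff₀ hT] at h2'
    have h0 : 0 < η := by
      refine lt_min (lt_min one_pos ?_) ?_ <;> positivity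
    nlinarith [mul_nonneg h0.le h4]

/-- Let `P = X + t H` be nef, `P ^ 2 = 0`, `K P < 0`.  `D` as in `approx`, with mobile part `M`
(`D = M + F`): `M P ≤ D P = δ H P ≤ η H P`,
`M ^ 2 ≤ M D = b M P + δ M H ≤ 2 b η H P + η ^ 2 H ^ 2`, `2 h0 M = 2 h0 D ≥ 2 + D ^ 2 - K D`, and
`h0 M ≤ 1 + M ^ 2 + ∑ g` for the member `g` of `mobile_mem`.  So for `η` small (depending only on `P`, `H`)
the number `∑ g` of components is at least `b (-K P) / 4`, while `A M ≤ A D ≤ b (A P + A H)`. -/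
lemma many {X H : Fin m → ℚ} {t : ℝ} (hP : Y.Nef (rl X + t • rl H)) (hH : Y.Nef H)
    (hP2 : Y.dot (rl X + t • rl H) (rl X + t • rl H) = 0)
    (hK : Y.dot (Y.KC ℝ) (rl X + t • rl H) < 0) :
    ∃ (B β : ℝ), 0 < β ∧ ∀ N : ℕ, ∃ (g : Y.C →₀ ℕ) (b : ℝ), (N : ℝ) ≤ b ∧ 1 ≤ b ∧
      (∀ c, g c ≠ 0 → 0 ≤ Y.dot (Y.cl c) (Y.cl c)) ∧
      β * b ≤ g.sum (fun _ a => (a : ℝ)) ∧
      g.sum (fun c a => (a : ℝ) * Y.dot (Y.AC ℝ) (Y.v ℝ c)) ≤ B * b ∧
      g.sum (fun c a => (a : ℝ) * Y.dot (rl X + t • rl H) (Y.v ℝ c)) ≤ B := by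
  set P : Fin m → ℝ := rl X + t • rl H with hPdef
  have hHr : Y.Nef (rl H) := Y.nef_rl hH
  have AP0 : 0 ≤ Y.dot (Y.AC ℝ) P := Y.nef_A hP
  have AH0 : 0 ≤ Y.dot (Y.AC ℝ) (rl H) := Y.nef_A hHr
  have HH0 : 0 ≤ Y.dot (rl H) (rl H) := Y.nef_sq hHr
  have HP0 : 0 ≤ Y.dot (rl H) P := Y.cone_mul Y.hasHodge_real AH0 HH0 AP0 hP2.ge
  have HL0 : 0 ≤ Y.dot (rl H) (cst ℝ Y.l) := Y.nef_mul hHr Y.l_eff
  have PL0 : 0 ≤ Y.dot P (cst ℝ Y.l) := Y.nef_mul hP Y.l_eff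
  have PH : Y.dot P (rl H) = Y.dot (rl H) P := Y.dot_comm _ _
  obtain ⟨η, hη0, hη1, hη2, hη3⟩ := M4_eta (κ := -Y.dot (Y.KC ℝ) P) (by linarith) HP0
    (abs_nonneg (Y.dot (Y.KC ℝ) (rl H))) HH0 HL0
  refine ⟨Y.dot (Y.AC ℝ) P + Y.dot (Y.AC ℝ) (rl H) + Y.dot (rl H) P, -Y.dot (Y.KC ℝ) P / 4,
    by linarith, fun N => ?_⟩
  obtain ⟨D, b, δ, hNb, hb1, hδ, hD⟩ := approx (X := X) (H := H) (t := t) hη0 N
  rw [← hPdef] at hD
  obtain ⟨hδ1, hδ2⟩ := abs_le.1 hδ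
  have hDD : ((Y.dot D D : ℤ) : ℝ) =
      2 * b * δ * Y.dot (rl H) P + δ ^ 2 * Y.dot (rl H) (rl H) := by
    rw [← Y.dot_cst (k := ℝ), hD]
    simp only [dot_add_left, dot_add_right, dot_smul_left, dot_smul_right, PH]
    rw [hP2]
    ring
  have hKD : ((Y.dot Y.K D : ℤ) : ℝ) = b * Y.dot (Y.KC ℝ) P + δ * Y.dot (Y.KC ℝ) (rl H) := by
    rw [← Y.dot_cst (k := ℝ), hD]
    change Y.dot (Y.KC ℝ) _ = _
    simp only [dot_add_right, dot_smul_right]
  have hDl : ((Y.dot D Y.l : ℤ) : ℝ) =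
      b * Y.dot P (cst ℝ Y.l) + δ * Y.dot (rl H) (cst ℝ Y.l) := by
    rw [← Y.dot_cst (k := ℝ), hD]
    simp only [dot_add_left, dot_smul_left]
  have hDl2 : (-1 : ℝ) < ((Y.dot D Y.l : ℤ) : ℝ) := by
    rw [hDl]
    have h1 : 0 ≤ b * Y.dot P (cst ℝ Y.l) := mul_nonneg (by linarith) PL0
    have h2 : -η * Y.dot (rl H) (cst ℝ Y.l) ≤ δ * Y.dot (rl H) (cst ℝ Y.l) :=
      mul_le_mul_of_nonneg_right hδ1 HL0
    linarith
  have hDl3 : Y.dot Y.K Y.l < Y.dot D Y.l := by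
    have h1 : (-1 : ℤ) < Y.dot D Y.l := by exact_mod_cast hDl2
    have h2 : Y.dot Y.K Y.l < 0 := Y.K_l
    omega
  have hrr := Y.rr' hDl3
  have hrr2 : (2 : ℝ) + ((Y.dot D D : ℤ) : ℝ) - ((Y.dot Y.K D : ℤ) : ℝ) ≤ 2 * (Y.h0 D : ℝ) := by
    exact_mod_cast hrr
  rw [hDD, hKD] at hrr2
  have hb0 : 0 < b := by linarith
  have e1 : -(η * (b * Y.dot (rl H) P)) ≤ δ * (b * Y.dot (rl H) P) := by
    have := mul_le_mul_of_nonneg_right hδ1 (mul_nonneg hb0.le HP0)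
    linarith
  have e2 : 0 ≤ δ ^ 2 * Y.dot (rl H) (rl H) := mul_nonneg (sq_nonneg _) HH0
  have e3 : δ * Y.dot (Y.KC ℝ) (rl H) ≤ η * |Y.dot (Y.KC ℝ) (rl H)| := by
    calc δ * Y.dot (Y.KC ℝ) (rl H) ≤ |δ * Y.dot (Y.KC ℝ) (rl H)| := le_abs_self _
      _ = |δ| * |Y.dot (Y.KC ℝ) (rl H)| := abs_mul _ _
      _ ≤ _ := mul_le_mul_of_nonneg_right hδ (abs_nonneg _)
  -- the main inequality
  have hmain : b * (3 * η * Y.dot (rl H) P + η * |Y.dot (Y.KC ℝ) (rl H)| / 2 +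
      η ^ 2 * Y.dot (rl H) (rl H)) ≤ b * (-Y.dot (Y.KC ℝ) P / 4) :=
    mul_le_mul_of_nonneg_left hη2 hb0.le
  have e4 : η * |Y.dot (Y.KC ℝ) (rl H)| ≤ b * (η * |Y.dot (Y.KC ℝ) (rl H)|) :=
    le_mul_of_one_le_left (mul_nonneg hη0.le (abs_nonneg _)) hb1
  have e5 : η ^ 2 * Y.dot (rl H) (rl H) ≤ b * (η ^ 2 * Y.dot (rl H) (rl H)) :=
    le_mul_of_one_le_left (mul_nonneg (sq_nonneg _) HH0) hb1
  have e6 : 0 ≤ b * (η * Y.dot (rl H) P) := mul_nonneg hb0.le (mul_nonneg hη0.le HP0)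
  have e7 : 0 ≤ η ^ 2 * Y.dot (rl H) (rl H) := mul_nonneg (sq_nonneg _) HH0
  have e8 : 0 < b * (-Y.dot (Y.KC ℝ) P) := mul_pos hb0 (by linarith)
  have hh0 : 0 < (Y.h0 D : ℝ) := by nlinarith
  have hh0' : 0 < Y.h0 D := by exact_mod_cast hh0
  obtain ⟨M, f, hDM, hM0, hMm⟩ := Y.mobile hh0'
  have hMpos : 0 < Y.h0 M := by rw [hM0]; exact hh0'
  obtain ⟨g, hgM, hg0⟩ := Y.mobile_mem hMpos hMm
  have hle := Y.h0_le g hgM hg0
  have hle2 : (Y.h0 M : ℝ) ≤ 1 + ((Y.dot M M : ℤ) : ℝ) + g.sum (fun _ a => (a : ℝ)) := by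
    have h1 : (g.sum (fun _ a => (a : ℝ))) = ((g.sum fun _ a => (a : ℤ) : ℤ) : ℝ) := by
      simp only [Finsupp.sum]
      push_cast
      rfl
    rw [h1]
    exact_mod_cast hle
  set F : Fin m → ℤ := f.sum (fun c b => b • Y.cl c) with hF
  have hF0 : 0 < Y.h0 F := Y.eff f
  have hDr : cst ℝ D = cst ℝ M + cst ℝ F := by rw [hDM, cst_add]
  have nefM : Y.Nef (cst ℝ M) := by
    intro c
    have h1 := Y.mobile_nef hMpos hMm c
    change 0 ≤ Y.dot (cst ℝ M) (cst ℝ (Y.cl c))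
    rw [Y.dot_cst]
    exact_mod_cast h1
  have nefA : Y.Nef (Y.AC ℝ) := by
    have h1 := Y.nef_rl Y.A_nef
    have h2 : rl (Y.AC ℚ) = Y.AC ℝ := rl_cst _
    rwa [h2] at h1
  have key : ∀ x : Fin m → ℝ, Y.Nef x → Y.dot x (cst ℝ M) ≤ Y.dot x (cst ℝ D) := by
    intro x hx
    have h1 := Y.nef_mul hx hF0
    rw [hDr, dot_add_right]
    linarith
  have hPM : Y.dot P (cst ℝ M) ≤ δ * Y.dot (rl H) P := by
    have h1 := key P hP
    rw [hD] at h1
    simp only [dot_add_right, dot_smul_right, PH] at h1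
    rw [hP2] at h1
    linarith
  have hPM0 : 0 ≤ Y.dot P (cst ℝ M) := Y.nef_mul hP hMpos
  have hHM0 : 0 ≤ Y.dot (rl H) (cst ℝ M) := Y.nef_mul hHr hMpos
  have e9 : δ * Y.dot (rl H) P ≤ η * Y.dot (rl H) P := mul_le_mul_of_nonneg_right hδ2 HP0
  have e10 : δ * Y.dot (rl H) (rl H) ≤ η * Y.dot (rl H) (rl H) :=
    mul_le_mul_of_nonneg_right hδ2 HH0
  have hHM : Y.dot (rl H) (cst ℝ M) ≤ b * Y.dot (rl H) P + η * Y.dot (rl H) (rl H) := by
    have h1 := key (rl H) hHr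
    rw [hD] at h1
    simp only [dot_add_right, dot_smul_right] at h1
    linarith
  have hMM : ((Y.dot M M : ℤ) : ℝ) ≤ 2 * b * (η * Y.dot (rl H) P) +
      η ^ 2 * Y.dot (rl H) (rl H) := by
    have h1 := key (cst ℝ M) nefM
    rw [hD, Y.dot_cst] at h1
    simp only [dot_add_right, dot_smul_right] at h1
    rw [Y.dot_comm (cst ℝ M) P, Y.dot_comm (cst ℝ M) (rl H)] at h1
    have h2 : b * Y.dot P (cst ℝ M) ≤ b * (η * Y.dot (rl H) P) :=
      mul_le_mul_of_nonneg_left (hPM.trans e9) hb0.le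
    have h3 : δ * Y.dot (rl H) (cst ℝ M) ≤ η * Y.dot (rl H) (cst ℝ M) :=
      mul_le_mul_of_nonneg_right hδ2 hHM0
    have h4 : η * Y.dot (rl H) (cst ℝ M) ≤
        η * (b * Y.dot (rl H) P + η * Y.dot (rl H) (rl H)) :=
      mul_le_mul_of_nonneg_left hHM hη0.le
    nlinarith
  have sumA : g.sum (fun c a => (a : ℝ) * Y.dot (Y.AC ℝ) (Y.v ℝ c)) =
      Y.dot (Y.AC ℝ) (cst ℝ M) := by
    rw [hgM, Y.dot_fsum_right]
  have sumP : g.sum (fun c a => (a : ℝ) * Y.dot P (Y.v ℝ c)) = Y.dot P (cst ℝ M) := by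
    rw [hgM, Y.dot_fsum_right]
  refine ⟨g, b, hNb, hb1, hg0, ?_, ?_, ?_⟩
  · have h1 : (Y.h0 M : ℝ) = (Y.h0 D : ℝ) := by rw [hM0]
    nlinarith
  · rw [sumA]
    have h1 := key _ nefA
    rw [hD] at h1
    simp only [dot_add_right, dot_smul_right] at h1
    have h2 : δ * Y.dot (Y.AC ℝ) (rl H) ≤ 1 * Y.dot (Y.AC ℝ) (rl H) :=
      mul_le_mul_of_nonneg_right (hδ2.trans hη1) AH0
    have h3 : Y.dot (Y.AC ℝ) (rl H) ≤ b * Y.dot (Y.AC ℝ) (rl H) :=
      le_mul_of_one_le_left AH0 hb1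
    have h4 : 0 ≤ b * Y.dot (rl H) P := mul_nonneg hb0.le HP0
    nlinarith
  · rw [sumP]
    have h1 : η * Y.dot (rl H) P ≤ 1 * Y.dot (rl H) P := mul_le_mul_of_nonneg_right hη1 HP0
    linarith

/-! ### row M5: the existence of a fibre class -/

private lemma M5_gap {ι : Type} {P : ι → ℝ} {S : Set ι} (hS : (P '' S).Finite)
    (h0 : ∀ i ∈ S, 0 ≤ P i) : ∃ δ : ℝ, 0 < δ ∧ ∀ i ∈ S, P i = 0 ∨ δ ≤ P i := by
  classical
  set F : Finset ℝ := hS.toFinset.filter (fun r => 0 < r) with hF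
  by_cases hne : F.Nonempty
  · refine ⟨F.min' hne, (mem_filter.1 (F.min'_mem hne)).2, fun i hi => ?_⟩
    rcases (h0 i hi).eq_or_lt with h | h
    · exact Or.inl h.symm
    · refine Or.inr (F.min'_le _ ?_)
      rw [hF, mem_filter, Set.Finite.mem_toFinset]
      exact ⟨⟨i, hi, rfl⟩, h⟩
  · refine ⟨1, one_pos, fun i hi => ?_⟩
    rcases (h0 i hi).eq_or_lt with h | h
    · exact Or.inl h.symm
    · exfalso
      refine hne ⟨P i, ?_⟩
      rw [hF, mem_filter, Set.Finite.mem_toFinset]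
      exact ⟨⟨i, hi, rfl⟩, h⟩

/-- Some component `c` of `g` has `A c ≤ 2 B / β` and `P c ≤ 2 B / (β b)` (mean values); the curves
with `A c ≤ 2 B / β` have finitely many classes, so finitely many values of `P c ≥ 0`; for `N` large `P c = 0`. -/
theorem exists_fibre {X H : Fin m → ℚ} {t : ℝ} (hP : Y.Nef (rl X + t • rl H))
    (hH : Y.Nef H) (hP2 : Y.dot (rl X + t • rl H) (rl X + t • rl H) = 0)
    (hK : Y.dot (Y.KC ℝ) (rl X + t • rl H) < 0) :
    ∃ c, 0 ≤ Y.dot (Y.cl c) (Y.cl c) ∧ Y.dot (rl X + t • rl H) (Y.v ℝ c) = 0 := by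
  obtain ⟨B, β, hβ, hmany⟩ := Y.many hP hH hP2 hK
  set P : Fin m → ℝ := rl X + t • rl H with hPdef
  set L : ℝ := 2 * B / β with hL
  have hA : ∀ c, Y.dot (Y.AC ℝ) (Y.v ℝ c) = ((Y.dot Y.A (Y.cl c) : ℤ) : ℝ) := fun c =>
    Y.dot_cst _ _
  have hA1 : ∀ c, (1 : ℝ) ≤ Y.dot (Y.AC ℝ) (Y.v ℝ c) := by
    intro c
    rw [hA]
    exact_mod_cast Y.deg c
  -- the finite set of values
  have hfin : ((fun c : Y.C => Y.dot P (Y.v ℝ c)) ''
      {c | Y.dot Y.A (Y.cl c) ≤ ⌊L⌋}).Finite := by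
    refine ((Y.finite_cl ⌊L⌋).image fun x => Y.dot P (cst ℝ x)).subset ?_
    rintro r ⟨c, hc, rfl⟩
    exact ⟨Y.cl c, ⟨c, rfl, hc⟩, rfl⟩
  obtain ⟨δ, hδ, hgap⟩ := M5_gap hfin fun c _ => hP c
  obtain ⟨N, hN⟩ := exists_nat_gt (L / δ)
  obtain ⟨g, b, hNb, hb1, hsq, hsum, hAs, hPs⟩ := hmany N
  have hb0 : 0 < b := by linarith
  have hex : ∃ c, g c ≠ 0 ∧ Y.dot (Y.AC ℝ) (Y.v ℝ c) + b * Y.dot P (Y.v ℝ c) ≤ L := by
    by_contra hno
    push Not at hno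
    have h1 : L * (g.sum fun _ a => (a : ℝ)) <
        g.sum (fun c a => (a : ℝ) * (Y.dot (Y.AC ℝ) (Y.v ℝ c) + b * Y.dot P (Y.v ℝ c))) := by
      rw [Finsupp.sum, Finsupp.sum, Finset.mul_sum]
      have hne : g.support.Nonempty := by
        rw [Finset.nonempty_iff_ne_empty]
        intro he
        rw [Finsupp.sum, he, Finset.sum_empty] at hsum
        have := mul_pos hβ hb0
        linarith
      refine Finset.sum_lt_sum_of_nonempty hne fun c hc => ?_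
      have hc' : g c ≠ 0 := Finsupp.mem_support_iff.1 hc
      have hpos : (0 : ℝ) < g c := by exact_mod_cast Nat.pos_of_ne_zero hc'
      rw [mul_comm L]
      exact mul_lt_mul_of_pos_left (hno c hc') hpos
    have h2 : g.sum (fun c a => (a : ℝ) * (Y.dot (Y.AC ℝ) (Y.v ℝ c) + b * Y.dot P (Y.v ℝ c)))
        = g.sum (fun c a => (a : ℝ) * Y.dot (Y.AC ℝ) (Y.v ℝ c)) +
          b * g.sum (fun c a => (a : ℝ) * Y.dot P (Y.v ℝ c)) := by
      rw [Finsupp.sum, Finsupp.sum, Finsupp.sum, Finset.mul_sum, ← Finset.sum_add_distrib]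
      refine Finset.sum_congr rfl fun c _ => ?_
      ring
    have hBpos : 0 < B := by
      have h3 : (g.sum fun _ a => (a : ℝ)) ≤
          g.sum (fun c a => (a : ℝ) * Y.dot (Y.AC ℝ) (Y.v ℝ c)) := by
        rw [Finsupp.sum, Finsupp.sum]
        refine Finset.sum_le_sum fun c _ => ?_
        have := mul_le_mul_of_nonneg_left (hA1 c) (Nat.cast_nonneg (α := ℝ) (g c))
        linarith
      have h4 : 0 < B * b := lt_of_lt_of_le (mul_pos hβ hb0) (hsum.trans (h3.trans hAs))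
      exact (pos_iff_pos_of_mul_pos h4).2 hb0
    have hL0 : 0 < L := div_pos (by linarith) hβ
    have h5 : L * (β * b) ≤ L * (g.sum fun _ a => (a : ℝ)) :=
      mul_le_mul_of_nonneg_left hsum hL0.le
    have h6 : L * (β * b) = 2 * B * b := by
      rw [hL]
      field_simp
    have h7 : b * g.sum (fun c a => (a : ℝ) * Y.dot P (Y.v ℝ c)) ≤ b * B :=
      mul_le_mul_of_nonneg_left hPs hb0.le
    rw [h2] at h1
    linarith
  obtain ⟨c, hgc, hc⟩ := hex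
  refine ⟨c, hsq c hgc, ?_⟩
  have hPc : 0 ≤ Y.dot P (Y.v ℝ c) := hP c
  have hAc : ((Y.dot Y.A (Y.cl c) : ℤ) : ℝ) ≤ L := by
    rw [← hA]
    have := mul_nonneg hb0.le hPc
    linarith
  rcases hgap c (Int.le_floor.2 hAc) with h | h
  · exact h
  · exfalso
    have h1 : b * δ ≤ L := by
      have h2 := mul_le_mul_of_nonneg_left h hb0.le
      have h3 := hA1 c
      have h4 : b * Y.dot P (Y.v ℝ c) ≤ L - 1 := by linarith
      linarith
    have h2 : L < b * δ := by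
      have := lt_of_lt_of_le hN hNb
      rwa [div_lt_iff₀ hδ] at this
    linarith

end NS

end Pool.Agent.LibKA2
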