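import Pool.Agent.LibKA2.Alg
import Pool.Agent.LibKA2.Mob

/-!
The last state of the algorithm.
-/

set_option autoImplicit false

namespace Pool.Agent.LibKA2

open Finset

variable {m : ℕ}

namespace NS

variable {Y : NS m} {SS R CC : Finset Y.C} {Γ γ : Y.C → ℚ}
  {φ : (Fin m → ℚ) →ₗ[ℚ] (Fin m → ℚ)}

/-! ### row Z1: the class `H` -/

/-- `H = φ(A) + Z`, `Z` in the cone of the images of `CC`, `H c = 0` on `CC`. -/
theorem exists_H (h : Y.Ctr R φ) (hnd : Y.ND φ CC) (hCC : ∀ c ∈ CC, c ∉ R) :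
    ∃ H : Fin m → ℚ, φ H = H ∧ 0 < Y.dot H H ∧ (∀ c ∈ CC, Y.dot H (Y.v ℚ c) = 0) ∧
      (∀ c ∈ R, Y.dot H (Y.v ℚ c) = 0) ∧
      ∀ c, c ∉ CC → c ∉ R → Y.dot (Y.AC ℚ) (Y.v ℚ c) ≤ Y.dot H (Y.v ℚ c) := by
  have hAc : ∀ c, c ∉ R → Y.dot (Y.AC ℚ) (Y.v ℚ c) ≤ Y.dot (Y.AC ℚ) (φ (Y.v ℚ c)) := by
    intro c hc
    have h1 : 0 ≤ Y.dot (Y.AC ℚ) (φ (Y.v ℚ c) - Y.v ℚ c) :=
      Y.nef_qeff Y.A_nef (Y.qeff_sp (h.exp c hc))
    rw [Y.dot_sub_right] at h1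
    linarith
  have hA0 : ∀ c, c ∉ R → 0 ≤ Y.dot (Y.AC ℚ) (φ (Y.v ℚ c)) := fun c hc =>
    (Y.A_nef c).trans (hAc c hc)
  obtain ⟨z, hz⟩ := ND.solve hnd fun c => -Y.dot (Y.AC ℚ) (φ (Y.v ℚ c))
  have hz0 : ∀ c ∈ CC, 0 ≤ z c := by
    refine ND.nonneg h hnd hCC fun c hc => ?_
    rw [hz c hc]
    linarith [hA0 c (hCC c hc)]
  obtain ⟨H, hHd⟩ : ∃ H : Fin m → ℚ, H = φ (Y.AC ℚ) + Y.cb φ CC z := ⟨_, rfl⟩
  have hφH : φ H = H := by rw [hHd, map_add, h.idem, h.φ_cb]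
  have hdot : ∀ x, Y.dot H x = Y.dot H (φ x) := fun x => by rw [← h.adj, hφH]
  have hexp : ∀ x, Y.dot H x =
      Y.dot (φ (Y.AC ℚ)) x + ∑ c ∈ CC, z c * Y.dot (φ (Y.v ℚ c)) x := by
    intro x
    rw [hHd, Y.dot_add_left, dot_cb]
  have hC : ∀ c ∈ CC, Y.dot H (φ (Y.v ℚ c)) = 0 := by
    intro c hc
    rw [hHd, Y.dot_add_left, hz c hc, h.dot_φ']
    ring
  refine ⟨H, hφH, ?_, ?_, ?_, ?_⟩
  · have h1 : Y.dot H H = Y.dot H (Y.AC ℚ) := by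
      rw [hexp H, hdot (Y.AC ℚ), Y.dot_comm (φ (Y.AC ℚ)) H]
      have h2 : ∑ c ∈ CC, z c * Y.dot (φ (Y.v ℚ c)) H = 0 :=
        Finset.sum_eq_zero fun c hc => by rw [Y.dot_comm, hC c hc, mul_zero]
      rw [h2, add_zero]
    rw [h1, hexp]
    have h2 : 0 ≤ ∑ c ∈ CC, z c * Y.dot (φ (Y.v ℚ c)) (Y.AC ℚ) := by
      refine Finset.sum_nonneg fun c hc => mul_nonneg (hz0 c hc) ?_
      rw [Y.dot_comm]
      exact hA0 c (hCC c hc)
    have h3 := h.sq (Y.AC ℚ)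
    have h4 : Y.dot (φ (Y.AC ℚ)) (φ (Y.AC ℚ)) = Y.dot (φ (Y.AC ℚ)) (Y.AC ℚ) := h.dot_φ _ _
    have h5 : 0 < Y.dot (Y.AC ℚ) (Y.AC ℚ) := Y.AC_sq
    linarith
  · intro c hc
    rw [hdot, hC c hc]
  · intro c hc
    rw [hdot, h.ker c hc, Y.dot_zero_right]
  · intro c hc hcR
    rw [hdot, hexp, h.dot_φ']
    have h2 : 0 ≤ ∑ c' ∈ CC, z c' * Y.dot (φ (Y.v ℚ c')) (φ (Y.v ℚ c)) := by
      refine Finset.sum_nonneg fun c' hc' => mul_nonneg (hz0 c' hc') (h.pos (hCC c' hc') hcR ?_)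
      rintro rfl
      exact hc hc'
    linarith [hAc c hcR]

/-! ### row Z3: not nef -/

/-- `D'` is not nef: else `nonvanish` and `St.sp` show that `K + Γ` is effective
(`K D' = D' ^ 2 - Γ' D' ≤ D' ^ 2`). -/
theorem St0.not_nef (h : Y.St0 SS Γ R φ CC γ) (hG : ¬ Y.QEff (Y.KG SS Γ)) :
    ¬ Y.Nef (Y.DD φ SS γ) := by
  intro hN
  have hctr : Y.Ctr R φ := h.ctr
  have hφD : φ (Y.DD φ SS γ) = Y.DD φ SS γ := hctr.φ_DD SS γ
  have h1 : Y.dot (Y.KC ℚ) (Y.DD φ SS γ) ≤ Y.dot (Y.DD φ SS γ) (Y.DD φ SS γ) := by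
    have h2 : Y.dot (Y.DD φ SS γ) (Y.DD φ SS γ) =
        Y.dot (Y.KC ℚ) (Y.DD φ SS γ) + ∑ c ∈ SS, γ c * Y.dot (φ (Y.v ℚ c)) (Y.DD φ SS γ) := by
      have h3 : Y.dot (φ (Y.KC ℚ) + Y.cb φ SS γ) (Y.DD φ SS γ) =
          Y.dot (Y.KC ℚ) (Y.DD φ SS γ) + ∑ c ∈ SS, γ c * Y.dot (φ (Y.v ℚ c)) (Y.DD φ SS γ) := by
        rw [Y.dot_add_left, dot_cb, hctr.adj, hφD]
      exact h3
    have h4 : 0 ≤ ∑ c ∈ SS, γ c * Y.dot (φ (Y.v ℚ c)) (Y.DD φ SS γ) := by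
      refine Finset.sum_nonneg fun c _ => mul_nonneg (h.nonneg c) ?_
      rw [hctr.adj, hφD, Y.dot_comm]
      exact hN c
    linarith
  obtain ⟨x, y, hx, hy, hxy⟩ := h.sp
  apply hG
  have h5 : Y.KG SS Γ = Y.DD φ SS γ + (x + y) := by
    rw [← hxy]
    abel
  rw [h5]
  exact Y.qeff_add (Y.nonvanish hN h1) (Y.qeff_add (Y.qeff_sp hx) (Y.qeff_sp hy))

/-! ### row Z2: the threshold -/

variable (Y) in
lemma z2_dot (D H : Fin m → ℚ) (t : ℝ) (x : Fin m → ℚ) :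
    Y.dot (rl D + t • rl H) (rl x) = ((Y.dot D x : ℚ) : ℝ) + t * ((Y.dot H x : ℚ) : ℝ) := by
  rw [dot_add_left, dot_smul_left, dot_rl, dot_rl]

variable (Y) in
lemma z2_v (D H : Fin m → ℚ) (t : ℝ) (c : Y.C) :
    Y.dot (rl D + t • rl H) (Y.v ℝ c) =
      ((Y.dot D (Y.v ℚ c) : ℚ) : ℝ) + t * ((Y.dot H (Y.v ℚ c) : ℚ) : ℝ) := by
  rw [← rl_v, z2_dot]

variable (Y) in
lemma z2_A_v (c : Y.C) : (1 : ℚ) ≤ Y.dot (Y.AC ℚ) (Y.v ℚ c) := by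
  unfold AC v
  rw [dot_cst]
  have h := Y.deg c
  exact_mod_cast h

variable (Y) in
/-- a large multiple of `H` makes `D` nef -/
lemma z2_nonempty {D H : Fin m → ℚ} {T : Set Y.C}
    (hT : ∀ c ∈ T, Y.dot D (Y.v ℚ c) = 0 ∧ Y.dot H (Y.v ℚ c) = 0)
    (hT' : ∀ c, c ∉ T → Y.dot (Y.AC ℚ) (Y.v ℚ c) ≤ Y.dot H (Y.v ℚ c)) :
    ∃ t : ℝ, 0 ≤ t ∧ ∀ c, 0 ≤ ((Y.dot D (Y.v ℚ c) : ℚ) : ℝ) + t * ((Y.dot H (Y.v ℚ c) : ℚ) : ℝ) := by
  obtain ⟨a, ha, F, hF⟩ := exists_isInt D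
  obtain ⟨N, hN⟩ := Y.ample F
  have ha' : (0 : ℚ) < a := by exact_mod_cast ha
  have key : ∀ c, 0 ≤ Y.dot D (Y.v ℚ c) + (N : ℚ) / a * Y.dot H (Y.v ℚ c) := by
    intro c
    by_cases hc : c ∈ T
    · rw [(hT c hc).1, (hT c hc).2]
      simp
    · have h1 : (0 : ℤ) ≤ Y.dot ((N : ℤ) • Y.A + F) (Y.cl c) := hN c
      rw [dot_add_left] at h1
      have h2 : Y.dot ((N : ℤ) • Y.A) (Y.cl c) = (N : ℤ) * Y.dot Y.A (Y.cl c) :=
        dot_smul_left _ _ _ _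
      rw [h2] at h1
      have h3 : (0 : ℚ) ≤ (N : ℚ) * Y.dot (Y.AC ℚ) (Y.v ℚ c) + a * Y.dot D (Y.v ℚ c) := by
        rw [← Y.dot_smul_left (a : ℚ) D, hF]
        unfold AC v
        rw [dot_cst, dot_cst]
        exact_mod_cast h1
      have h4 : (N : ℚ) * Y.dot (Y.AC ℚ) (Y.v ℚ c) ≤ N * Y.dot H (Y.v ℚ c) :=
        mul_le_mul_of_nonneg_left (hT' c hc) (Nat.cast_nonneg N)
      have h5 : 0 ≤ ((a : ℚ) * Y.dot D (Y.v ℚ c) + N * Y.dot H (Y.v ℚ c)) / a :=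
        div_nonneg (by linarith) ha'.le
      have h6 : ((a : ℚ) * Y.dot D (Y.v ℚ c) + N * Y.dot H (Y.v ℚ c)) / a =
          Y.dot D (Y.v ℚ c) + (N : ℚ) / a * Y.dot H (Y.v ℚ c) := by
        field_simp
      rwa [h6] at h5
  refine ⟨((N : ℚ) / a : ℚ), ?_, fun c => ?_⟩
  · have : (0 : ℚ) ≤ (N : ℚ) / a := div_nonneg (Nat.cast_nonneg N) ha'.le
    exact_mod_cast this
  · have := key c
    exact_mod_cast this

/-- small steps keep the class in the positive cone -/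
lemma z2_eps {PP HP HH AP AH t : ℝ} (ht : 0 < t) (hPP : 0 < PP) (hAP : 0 < AP) (hHH : 0 ≤ HH) :
    ∃ ε : ℝ, 0 < ε ∧ ε ≤ t ∧ 0 ≤ PP - 2 * ε * HP + ε ^ 2 * HH ∧ 0 ≤ AP - ε * AH := by
  have h1 : 0 < |HP| + 1 := by positivity
  have h2 : 0 < |AH| + 1 := by positivity
  refine ⟨min t (min (PP / (2 * (|HP| + 1))) (AP / (|AH| + 1))), ?_, min_le_left _ _, ?_, ?_⟩
  · apply lt_min ht (lt_min (by positivity) (by positivity))
  · set ε := min t (min (PP / (2 * (|HP| + 1))) (AP / (|AH| + 1)))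
    have he0 : 0 < ε := lt_min ht (lt_min (by positivity) (by positivity))
    have he : ε ≤ PP / (2 * (|HP| + 1)) := (min_le_right _ _).trans (min_le_left _ _)
    rw [le_div_iff₀ (by positivity)] at he
    have h3 : ε * HP ≤ ε * |HP| := mul_le_mul_of_nonneg_left (le_abs_self _) he0.le
    have h4 : 0 ≤ ε ^ 2 * HH := by positivity
    nlinarith
  · set ε := min t (min (PP / (2 * (|HP| + 1))) (AP / (|AH| + 1)))
    have he0 : 0 < ε := lt_min ht (lt_min (by positivity) (by positivity))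
    have he : ε ≤ AP / (|AH| + 1) := (min_le_right _ _).trans (min_le_right _ _)
    rw [le_div_iff₀ (by positivity)] at he
    have h3 : ε * AH ≤ ε * |AH| := mul_le_mul_of_nonneg_left (le_abs_self _) he0.le
    nlinarith

/-- Let `H` be positive outside a set of curves on which `D` and `H` vanish, as above; `D` not nef, `D c ≥ 0`
for the curves `c` with `φ(c) ^ 2 < 0`.  Let `t` be the least real number with `D + t H` nef.  Then `t > 0` and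
`(D + t H) ^ 2 = 0`: if it is `> 0`, then for `s < t` near to `t` the class `D + s H` has positive square and positive first
coordinate, so it is `≥ 0` on all `φ(c)` with `φ(c) ^ 2 ≥ 0` (`cone_mul`), and on the other ones, too. -/
theorem threshold (h : Y.Ctr R φ) {D H : Fin m → ℚ} (hD : φ D = D) (hH : φ H = H)
    (hH2 : 0 < Y.dot H H) (hH0 : Y.Nef H) {T : Set Y.C}
    (hT : ∀ c ∈ T, Y.dot D (Y.v ℚ c) = 0 ∧ Y.dot H (Y.v ℚ c) = 0)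
    (hT' : ∀ c, c ∉ T → Y.dot (Y.AC ℚ) (Y.v ℚ c) ≤ Y.dot H (Y.v ℚ c)) (hR : ∀ c ∈ R, c ∈ T)
    (hneg : ∀ c, c ∉ T → Y.dot (φ (Y.v ℚ c)) (φ (Y.v ℚ c)) < 0 → 0 ≤ Y.dot D (Y.v ℚ c))
    (hnn : ¬ Y.Nef D) :
    ∃ t : ℝ, 0 < t ∧ Y.Nef (rl D + t • rl H) ∧
      Y.dot (rl D + t • rl H) (rl D + t • rl H) = 0 := by
  classical
  let S : Set ℝ := {t | 0 ≤ t ∧
    ∀ c, 0 ≤ ((Y.dot D (Y.v ℚ c) : ℚ) : ℝ) + t * ((Y.dot H (Y.v ℚ c) : ℚ) : ℝ)}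
  have hSne : S.Nonempty := by
    obtain ⟨t, h1, h2⟩ := z2_nonempty Y hT hT'
    exact ⟨t, h1, h2⟩
  have hSbd : BddBelow S := ⟨0, fun t ht => ht.1⟩
  have hScl : IsClosed S := by
    have h1 : S = Set.Ici 0 ∩ ⋂ c : Y.C, {t : ℝ | 0 ≤ ((Y.dot D (Y.v ℚ c) : ℚ) : ℝ) +
        t * ((Y.dot H (Y.v ℚ c) : ℚ) : ℝ)} := by
      ext t
      simp only [S, Set.mem_ofPred_eq, Set.mem_inter_iff, Set.mem_Ici, Set.mem_iInter]
    rw [h1]
    refine isClosed_Ici.inter (isClosed_iInter fun c => ?_)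
    exact isClosed_le continuous_const (by fun_prop)
  have htS : sInf S ∈ S := hScl.csInf_mem hSne hSbd
  set t := sInf S with htdef
  have hnef : Y.Nef (rl D + t • rl H) := by
    intro c
    rw [z2_v]
    exact htS.2 c
  have ht0 : 0 < t := by
    rcases htS.1.lt_or_eq with h0 | h0
    · exact h0
    · exfalso
      apply hnn
      intro c
      have h1 := htS.2 c
      rw [← h0, zero_mul, add_zero] at h1
      exact_mod_cast h1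
  refine ⟨t, ht0, hnef, le_antisymm ?_ (Y.nef_sq hnef)⟩
  by_contra hcon
  push Not at hcon
  have hA0 : 0 < Y.dot (Y.AC ℝ) (rl D + t • rl H) := by
    rcases (Y.nef_A hnef).lt_or_eq with h0 | h0
    · exact h0
    · exfalso
      have hne : rl D + t • rl H ≠ 0 := by
        intro hz
        rw [hz, dot_zero_left] at hcon
        exact lt_irrefl _ hcon
      have := Y.hodge_real h0.symm hne
      linarith
  obtain ⟨ε, he0, het, he1, he2⟩ := z2_eps (PP := Y.dot (rl D + t • rl H) (rl D + t • rl H))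
    (HP := Y.dot (rl D + t • rl H) (rl H)) (HH := Y.dot (rl H) (rl H))
    (AP := Y.dot (Y.AC ℝ) (rl D + t • rl H)) (AH := Y.dot (Y.AC ℝ) (rl H)) ht0 hcon hA0
    (by
      rw [dot_rl]
      exact_mod_cast hH2.le)
  have hQ : rl D + (t - ε) • rl H = (rl D + t • rl H) - ε • rl H := by
    rw [sub_smul]
    abel
  have hQ2 : 0 ≤ Y.dot (rl D + (t - ε) • rl H) (rl D + (t - ε) • rl H) := by
    rw [hQ]
    simp only [dot_sub_left, dot_sub_right, dot_smul_left, dot_smul_right] at *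
    rw [Y.dot_comm (rl H) (rl D + t • rl H)]
    nlinarith
  have hQA : 0 ≤ Y.dot (Y.AC ℝ) (rl D + (t - ε) • rl H) := by
    rw [hQ, dot_sub_right, dot_smul_right]
    exact he2
  have hmem : t - ε ∈ S := by
    refine ⟨by linarith, fun c => ?_⟩
    by_cases hc : c ∈ T
    · rw [(hT c hc).1, (hT c hc).2]
      simp
    · have hcR : c ∉ R := fun h' => hc (hR c h')
      have hH1 : 0 ≤ Y.dot H (Y.v ℚ c) := hH0 c
      by_cases hn : Y.dot (φ (Y.v ℚ c)) (φ (Y.v ℚ c)) < 0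
      · have h1 := hneg c hc hn
        have h2 : (0 : ℝ) ≤ ((Y.dot D (Y.v ℚ c) : ℚ) : ℝ) := by exact_mod_cast h1
        have h3 : (0 : ℝ) ≤ ((Y.dot H (Y.v ℚ c) : ℚ) : ℝ) := by exact_mod_cast hH1
        have h4 : 0 ≤ (t - ε) * ((Y.dot H (Y.v ℚ c) : ℚ) : ℝ) := mul_nonneg (by linarith) h3
        linarith
      · push Not at hn
        have hDc : Y.dot D (Y.v ℚ c) = Y.dot D (φ (Y.v ℚ c)) := by
          rw [← h.adj, hD]
        have hHc : Y.dot H (Y.v ℚ c) = Y.dot H (φ (Y.v ℚ c)) := by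
          rw [← h.adj, hH]
        rw [hDc, hHc, ← z2_dot]
        apply Y.cone_mul Y.hasHodge_real hQA hQ2
        · have h1 : 0 ≤ Y.dot (Y.AC ℚ) (φ (Y.v ℚ c) - Y.v ℚ c) :=
            Y.nef_qeff Y.A_nef (Y.qeff_sp (h.exp c hcR))
          rw [dot_sub_right] at h1
          have h2 := z2_A_v Y c
          have h3 : 0 ≤ Y.dot (Y.AC ℚ) (φ (Y.v ℚ c)) := by linarith
          have h4 : Y.AC ℝ = rl (Y.AC ℚ) := (rl_cst _).symm
          rw [h4, dot_rl]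
          exact_mod_cast h3
        · rw [dot_rl]
          exact_mod_cast hn
  have h1 := csInf_le hSbd hmem
  rw [← htdef] at h1
  linarith

/-! ### row Z4: the first case -/

/-- `P = D' + t H ≠ 0`: `K P < 0`, so there is a curve `c` with `c ^ 2 ≥ 0`, `P c = 0` (`exists_fibre`); it is
proportional to `P` (`null_prop`), `c ^ 2 = 0`, `K c = -2`, and `α = c` is good. -/
theorem St0.fibre (h : Y.St0 SS Γ R φ CC γ) {H : Fin m → ℚ} (hH : φ H = H)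
    (hH2 : 0 < Y.dot H H) (hH0 : Y.Nef H) (hHC : ∀ c ∈ CC, Y.dot H (Y.v ℚ c) = 0) {t : ℝ}
    (ht : 0 < t) (hP : Y.Nef (rl (Y.DD φ SS γ) + t • rl H))
    (hP2 : Y.dot (rl (Y.DD φ SS γ) + t • rl H) (rl (Y.DD φ SS γ) + t • rl H) = 0)
    (hP0 : rl (Y.DD φ SS γ) + t • rl H ≠ 0) (d : ℕ) : Y.Good SS Γ d 2 := by
  have hctr : Y.Ctr R φ := h.ctr
  have hφD : φ (Y.DD φ SS γ) = Y.DD φ SS γ := hctr.φ_DD SS γ
  have hDdef : Y.DD φ SS γ = φ (Y.KC ℚ) + Y.cb φ SS γ := rfl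
  have hfib := fun hK => Y.exists_fibre (X := Y.DD φ SS γ) (H := H) (t := t) hP hH0 hP2 hK
  obtain ⟨D, hD⟩ : ∃ D : Fin m → ℚ, D = Y.DD φ SS γ := ⟨_, rfl⟩
  have heq : ∀ c ∈ CC, Y.dot D (Y.v ℚ c) = 0 := by
    rw [hD]
    exact h.eq
  rw [← hD] at hP hP2 hP0 hφD hDdef hfib
  obtain ⟨P, hPd⟩ : ∃ P : Fin m → ℝ, P = rl D + t • rl H := ⟨_, rfl⟩
  rw [← hPd] at hP hP2 hP0 hfib
  have hf : ∀ x : Fin m → ℚ, Y.dot (rl x) P =
      ((Y.dot x D : ℚ) : ℝ) + t * ((Y.dot x H : ℚ) : ℝ) := by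
    intro x
    rw [hPd, Y.dot_add_right, Y.dot_smul_right, Y.dot_rl, Y.dot_rl]
  have hfφ : ∀ x : Fin m → ℚ, Y.dot (rl (φ x)) P = Y.dot (rl x) P := by
    intro x
    rw [hf, hf, hctr.adj, hctr.adj, hφD, hH]
  have hfv : ∀ c, 0 ≤ Y.dot (rl (Y.v ℚ c)) P := by
    intro c
    rw [Y.rl_v, Y.dot_comm]
    exact hP c
  -- `H P > 0`
  have hHP : 0 < Y.dot (rl H) P := by
    refine Y.cone_mul_pos Y.hasHodge_real (Y.nef_A (Y.nef_rl hH0)) ?_ (Y.nef_A hP) hP2.ge hP0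
    rw [Y.dot_rl]
    exact_mod_cast hH2
  -- `D P < 0`
  have hDP : Y.dot (rl D) P < 0 := by
    have h3 : rl D = P - t • rl H := by rw [hPd, add_sub_cancel_right]
    rw [h3, Y.dot_sub_left, Y.dot_smul_left, hP2]
    have h4 := mul_pos ht hHP
    linarith
  -- `K P < 0`
  have hKP : Y.dot (Y.KC ℝ) P < 0 := by
    have h3 : Y.KC ℝ = rl (Y.KC ℚ) := (rl_cst Y.K).symm
    have h4 : Y.dot (rl D) P = Y.dot (rl (φ (Y.KC ℚ))) P + Y.dot (rl (Y.cb φ SS γ)) P := by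
      rw [hDdef, rl_add, Y.dot_add_left]
    have h5 : 0 ≤ Y.dot (rl (Y.cb φ SS γ)) P := by
      rw [hf, dot_cb, dot_cb]
      push_cast
      rw [Finset.mul_sum, ← Finset.sum_add_distrib]
      refine Finset.sum_nonneg fun c _ => ?_
      have h6 : 0 ≤ Y.dot (rl (φ (Y.v ℚ c))) P := by
        rw [hfφ]
        exact hfv c
      rw [hf] at h6
      have h7 : (0 : ℝ) ≤ ((γ c : ℚ) : ℝ) := by exact_mod_cast h.nonneg c
      have h8 := mul_nonneg h7 h6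
      linarith
    rw [h3, ← hfφ]
    linarith
  obtain ⟨c, hc0, hcP⟩ := hfib hKP
  have hvv : Y.dot (Y.v ℝ c) (Y.v ℝ c) = ((Y.dot (Y.cl c) (Y.cl c) : ℤ) : ℝ) := Y.dot_cst _ _
  obtain ⟨s, hs⟩ := Y.null_prop Y.hasHodge_real hP2 hP0 hcP (by
    rw [hvv]
    exact_mod_cast hc0)
  have hs0 : 0 < s := by
    have h3 : (1 : ℝ) ≤ Y.dot (Y.AC ℝ) (Y.v ℝ c) := by
      have h4 : Y.dot (Y.AC ℝ) (Y.v ℝ c) = ((Y.dot Y.A (Y.cl c) : ℤ) : ℝ) := Y.dot_cst _ _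
      rw [h4]
      exact_mod_cast Y.deg c
    have h5 := Y.nef_A hP
    rw [hs, Y.dot_smul_right] at h3
    by_contra hcon
    push Not at hcon
    have h6 := mul_nonpos_of_nonpos_of_nonneg hcon h5
    linarith
  -- `c ^ 2 = 0`, `K c = -2`
  have hcc : Y.dot (Y.cl c) (Y.cl c) = 0 := by
    have h3 : Y.dot (Y.v ℝ c) (Y.v ℝ c) = 0 := by
      rw [hs, Y.dot_smul_left, Y.dot_smul_right, hP2, mul_zero, mul_zero]
    rw [hvv] at h3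
    exact_mod_cast h3
  have hKc : Y.dot Y.K (Y.cl c) = -2 := by
    have h3 : Y.dot (Y.KC ℝ) (Y.v ℝ c) = ((Y.dot Y.K (Y.cl c) : ℤ) : ℝ) := Y.dot_cst _ _
    have h4 : Y.dot (Y.KC ℝ) (Y.v ℝ c) < 0 := by
      rw [hs, Y.dot_smul_right]
      exact mul_neg_of_pos_of_neg hs0 hKP
    rw [h3] at h4
    have h5 : Y.dot Y.K (Y.cl c) < 0 := by exact_mod_cast h4
    have h6 : -2 ≤ Y.dot (Y.cl c) (Y.cl c) + Y.dot Y.K (Y.cl c) := Y.pa c
    have h7 : (2 : ℤ) ∣ Y.dot (Y.cl c) (Y.cl c) + Y.dot Y.K (Y.cl c) := Y.parity (Y.cl c)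
    rw [hcc] at h6 h7
    omega
  -- products with `c`
  have hprod : ∀ x : Fin m → ℚ, ((Y.dot x (Y.v ℚ c) : ℚ) : ℝ) = s * Y.dot (rl x) P := by
    intro x
    rw [← Y.dot_rl, Y.rl_v, hs, Y.dot_smul_right]
  have hnef : Y.Nef (Y.v ℚ c) := by
    intro c'
    have h3 := hprod (Y.v ℚ c')
    have h4 : (0 : ℝ) ≤ ((Y.dot (Y.v ℚ c') (Y.v ℚ c) : ℚ) : ℝ) := by
      rw [h3]
      exact mul_nonneg hs0.le (hfv c')
    rw [Y.dot_comm]
    exact_mod_cast h4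
  have hzero : ∀ x : Fin m → ℚ, Y.dot (rl x) P = 0 → Y.dot x (Y.v ℚ c) = 0 := by
    intro x hx
    have h3 := hprod x
    rw [hx, mul_zero] at h3
    exact_mod_cast h3
  have hsp : ∀ S : Finset Y.C, (∀ c' ∈ S, Y.dot (rl (Y.v ℚ c')) P = 0) → ∀ x, Y.Sp S x →
      Y.dot x (Y.v ℚ c) = 0 := by
    rintro S hS x ⟨a, _, rfl⟩
    rw [Y.dot_sum_left]
    refine Finset.sum_eq_zero fun c' hc' => ?_
    rw [Y.dot_smul_left, hzero _ (hS c' hc'), mul_zero]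
  have hKG : Y.dot (Y.KG SS Γ) (Y.v ℚ c) < 0 := by
    obtain ⟨x, y, hx, hy, hxy⟩ := h.sp
    rw [← hD] at hxy
    have h3 : Y.dot (Y.KG SS Γ - D) (Y.v ℚ c) = 0 := by
      rw [hxy, Y.dot_add_left, hsp R (fun r hr => ?_) x hx, hsp CC (fun r hr => ?_) y hy, add_zero]
      · rw [hf, Y.dot_comm _ D, Y.dot_comm _ H, heq r hr, hHC r hr]
        simp
      · rw [← hfφ, hctr.ker r hr, hf, Y.dot_zero_left, Y.dot_zero_left]
        simp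
    have h4 : ((Y.dot D (Y.v ℚ c) : ℚ) : ℝ) < 0 := by
      rw [hprod]
      exact mul_neg_of_pos_of_neg hs0 hDP
    have h5 : Y.dot D (Y.v ℚ c) < 0 := by exact_mod_cast h4
    rw [Y.dot_sub_left] at h3
    linarith
  have hKq : Y.dot (Y.KC ℚ) (Y.v ℚ c) = -2 := by
    have h3 : Y.dot (Y.KC ℚ) (Y.v ℚ c) = ((Y.dot Y.K (Y.cl c) : ℤ) : ℚ) := Y.dot_cst _ _
    rw [h3, hKc]
    norm_num
  refine ⟨Y.v ℚ c, hnef, ?_, hKG, ?_, ?_⟩
  · have h3 := isInt_smul (Y.isInt_v c) (d : ℤ)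
    rwa [Int.cast_natCast] at h3
  · rw [hKq]
    norm_num
  · rw [hKq]
    norm_num

/-! ### row Z5: the second case -/

lemma Z5_isInt_sum {ι : Type} (s : Finset ι) (x : ι → Fin m → ℚ) (h : ∀ i ∈ s, IsInt (x i)) :
    IsInt (∑ i ∈ s, x i) := by
  classical
  induction s using Finset.induction_on with
  | empty => exact ⟨0, by rw [Finset.sum_empty]; exact cst_zero.symm⟩
  | insert i s hi ih =>
    rw [Finset.sum_insert hi]
    exact isInt_add (h i (Finset.mem_insert_self i s))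
      (ih fun j hj => h j (Finset.mem_insert_of_mem hj))

lemma Z5_isInt_neg {x : Fin m → ℚ} (h : IsInt x) : IsInt (-x) := by
  have h1 := isInt_smul h (-1)
  rwa [Int.cast_neg, Int.cast_one, neg_smul, one_smul] at h1

/-- for `x = φ x`: `x c = x φ(c)`. -/
lemma Z5_dot (h : Y.Ctr R φ) {x : Fin m → ℚ} (hx : φ x = x) (y : Fin m → ℚ) :
    Y.dot x y = Y.dot x (φ y) := by
  rw [← h.adj, hx]

lemma Z5_R (h : Y.Ctr R φ) {x : Fin m → ℚ} (hx : φ x = x) {c : Y.C} (hc : c ∈ R) :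
    Y.dot x (Y.v ℚ c) = 0 := by
  rw [Z5_dot h hx, h.ker c hc, Y.dot_zero_right]

lemma Z5_sp {T : Finset Y.C} {x y : Fin m → ℚ} (hx : Y.Sp T x)
    (h : ∀ c ∈ T, Y.dot y (Y.v ℚ c) = 0) : Y.dot y x = 0 := by
  obtain ⟨a, _, rfl⟩ := hx
  rw [Y.dot_sum_right]
  refine Finset.sum_eq_zero fun c hc => ?_
  rw [Y.dot_smul_right, h c hc, mul_zero]

/-- the value of `K + Γ` on a class orthogonal to `R` and `CC`. -/
lemma Z5_KG (h : Y.St SS Γ R φ CC γ) {α : Fin m → ℚ}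
    (h1 : ∀ c ∈ R, Y.dot α (Y.v ℚ c) = 0) (h2 : ∀ c ∈ CC, Y.dot α (Y.v ℚ c) = 0) :
    Y.dot (Y.KG SS Γ) α = Y.dot (Y.DD φ SS γ) α := by
  obtain ⟨x, y, hx, hy, hxy⟩ := h.sp
  have e : Y.KG SS Γ = Y.DD φ SS γ + (x + y) := by
    rw [← hxy]
    abel
  rw [e, Y.dot_add_left, Y.dot_add_left, Y.dot_comm x, Y.dot_comm y, Z5_sp hx h1, Z5_sp hy h2,
    add_zero, add_zero]

lemma Z5_cbγ (h : Y.Ctr R φ) {x : Fin m → ℚ} (hx : φ x = x) (hn : Y.Nef x)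
    (hγ : ∀ c, 0 ≤ γ c) : 0 ≤ Y.dot (Y.cb φ SS γ) x := by
  rw [dot_cb]
  refine Finset.sum_nonneg fun c _ => mul_nonneg (hγ c) ?_
  rw [Y.dot_comm, ← Z5_dot h hx]
  exact hn c

/-- `K α ≤ D' α`. -/
lemma Z5_K (h : Y.St SS Γ R φ CC γ) {x : Fin m → ℚ} (hx : φ x = x) (hn : Y.Nef x) :
    Y.dot (Y.KC ℚ) x ≤ Y.dot (Y.DD φ SS γ) x := by
  have h1 := Z5_cbγ (SS := SS) h.ctr hx hn h.nonneg
  have h2 : Y.dot (Y.DD φ SS γ) x = Y.dot (Y.KC ℚ) x + Y.dot (Y.cb φ SS γ) x := by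
    unfold DD
    rw [Y.dot_add_left, h.ctr.adj, hx]
  linarith

/-- some curve is not in `CC` or `R`. -/
lemma Z5_exists (h : Y.Ctr R φ) {H : Fin m → ℚ} (hH : φ H = H) (hH2 : 0 < Y.dot H H)
    (hH0 : Y.Nef H) (hHC : ∀ c ∈ CC, Y.dot H (Y.v ℚ c) = 0) : ∃ c, c ∉ CC ∧ c ∉ R := by
  by_contra hcon
  push Not at hcon
  have hall : ∀ c, Y.dot H (Y.v ℚ c) = 0 := fun c => by
    by_cases hc : c ∈ CC
    · exact hHC c hc
    · exact Z5_R h hH (hcon c hc)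
  obtain ⟨b, hb, hb0⟩ := Y.A_eff
  obtain ⟨a, ha⟩ := Y.exists_sum hb0
  have h1 : Y.dot H (cst ℚ (b • Y.A)) = 0 := by
    rw [ha, Y.dot_fsum_right]
    refine Finset.sum_eq_zero fun c _ => ?_
    change (a c : ℚ) * Y.dot H (Y.v ℚ c) = 0
    rw [hall c, mul_zero]
  have h2 : cst ℚ (b • Y.A) = (b : ℚ) • Y.AC ℚ := cst_nsmul _ _
  rw [h2, Y.dot_smul_right] at h1
  have h3 : (b : ℚ) ≠ 0 := by exact_mod_cast hb.ne'
  have h4 : Y.dot H (Y.AC ℚ) = 0 := (mul_eq_zero.1 h1).resolve_left h3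
  have hA : 0 < Y.dot (Y.AC ℚ) (Y.AC ℚ) := Y.AC_sq
  have h5 : 0 < Y.dot H (Y.AC ℚ) := by
    refine Y.cone_mul_pos Y.hasHodge_rat (Y.nef_A hH0) hH2 hA.le hA.le ?_
    intro h0
    rw [h0, Y.dot_zero_left] at hA
    exact lt_irrefl _ hA
  exact absurd h4 h5.ne'

lemma Z5_cross (h : Y.Ctr R φ) {c c' : Y.C} (hc : c ∉ R) (hcc : c ≠ c') :
    0 ≤ Y.dot (φ (Y.v ℚ c)) (φ (Y.v ℚ c')) := by
  by_cases hc' : c' ∈ R
  · rw [h.ker c' hc', Y.dot_zero_right]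
  · exact h.pos hc hc' hcc

/-- the sum of the `w c' φ(c')` is `≥ 0` on `φ(c)` for `c` not in `CC`. -/
lemma Z5_cb (h : Y.Ctr R φ) {c : Y.C} (hc : c ∉ R) (hcc : c ∉ CC) {w : Y.C → ℚ}
    (hw : ∀ c ∈ CC, 0 ≤ w c) : 0 ≤ Y.dot (φ (Y.v ℚ c)) (Y.cb φ CC w) := by
  rw [Y.dot_comm, dot_cb]
  refine Finset.sum_nonneg fun c' hc' => mul_nonneg (hw c' hc') ?_
  rw [Y.dot_comm]
  exact Z5_cross h hc fun e => hcc (e ▸ hc')

/-- positivity of `α = - φ K - cb z` outside `CC` and `R`. -/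
lemma Z5_pos (h : Y.St0 SS Γ R φ CC γ) {H : Fin m → ℚ} (hH : φ H = H)
    (hHC : ∀ c ∈ CC, Y.dot H (Y.v ℚ c) = 0) {t : ℚ} (hP : Y.DD φ SS γ = -(t • H))
    (hsq : ∀ c, c ∉ CC → c ∉ R → 0 ≤ Y.dot (φ (Y.v ℚ c)) (φ (Y.v ℚ c)))
    {z : Y.C → ℚ} {α : Fin m → ℚ} (hα : α = -φ (Y.KC ℚ) - Y.cb φ CC z)
    (hα0 : ∀ c ∈ CC, Y.dot α (φ (Y.v ℚ c)) = 0) {c : Y.C} (hc : c ∉ CC) (hcR : c ∉ R) :
    t * Y.dot H (Y.v ℚ c) ≤ Y.dot α (φ (Y.v ℚ c)) := by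
  obtain ⟨w, hw⟩ := h.nd.solve fun c' => -Y.dot (φ (Y.v ℚ c)) (φ (Y.v ℚ c'))
  have hw0 : ∀ c' ∈ CC, 0 ≤ w c' := by
    refine ND.nonneg h.ctr h.nd h.disj fun c' hc' => ?_
    rw [hw c' hc', neg_nonpos]
    exact h.ctr.pos hcR (h.disj c' hc') fun e => hc (e ▸ hc')
  have hβ : ∀ c' ∈ CC, Y.dot (φ (Y.v ℚ c')) (φ (Y.v ℚ c) + Y.cb φ CC w) = 0 := by
    intro c' hc'
    rw [Y.dot_comm, Y.dot_add_left, hw c' hc', add_neg_cancel]
  have e1 : Y.dot α (φ (Y.v ℚ c)) = Y.dot α (φ (Y.v ℚ c) + Y.cb φ CC w) := by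
    rw [Y.dot_add_right, Y.dot_comm α (Y.cb φ CC w), dot_cb]
    rw [Finset.sum_eq_zero, add_zero]
    intro c' hc'
    rw [Y.dot_comm, hα0 c' hc', mul_zero]
  have e2 : Y.dot (Y.cb φ CC z) (φ (Y.v ℚ c) + Y.cb φ CC w) = 0 := by
    rw [dot_cb]
    refine Finset.sum_eq_zero fun c' hc' => ?_
    rw [hβ c' hc', mul_zero]
  have e3 : Y.dot H (φ (Y.v ℚ c) + Y.cb φ CC w) = Y.dot H (Y.v ℚ c) := by
    rw [Y.dot_add_right, ← Z5_dot h.ctr hH, Y.dot_comm H (Y.cb φ CC w), dot_cb,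
      Finset.sum_eq_zero, add_zero]
    intro c' hc'
    rw [Y.dot_comm, ← Z5_dot h.ctr hH, hHC c' hc', mul_zero]
  have e4 : 0 ≤ Y.dot (Y.cb φ SS γ) (φ (Y.v ℚ c) + Y.cb φ CC w) := by
    rw [dot_cb]
    refine Finset.sum_nonneg fun c' _ => mul_nonneg (h.nonneg c') ?_
    by_cases h1 : c' ∈ CC
    · exact (hβ c' h1).ge
    by_cases h2 : c' ∈ R
    · rw [h.ctr.ker c' h2, Y.dot_zero_left]
    rw [Y.dot_add_right]
    refine add_nonneg ?_ (Z5_cb h.ctr h2 h1 hw0)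
    by_cases h3 : c' = c
    · rw [h3]
      exact hsq c hc hcR
    · exact h.ctr.pos h2 hcR h3
  have e5 : -φ (Y.KC ℚ) = Y.cb φ SS γ + t • H := by
    have : φ (Y.KC ℚ) + Y.cb φ SS γ = -(t • H) := hP
    rw [← neg_eq_iff_eq_neg, neg_add] at this
    rw [← this]
    abel
  rw [e1, hα, Y.dot_sub_left, e2, sub_zero, e5, Y.dot_add_left, Y.dot_smul_left, e3]
  linarith

/-- `K φ(c) ≤ n0` for `c ∈ CC`. -/
lemma Z5_le (h : Y.St0 SS Γ R φ CC γ) {n0 : ℕ}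
    (hSS : ∀ c ∈ SS, -(n0 : ℚ) ≤ Y.dot (Y.v ℚ c) (Y.v ℚ c)) {c : Y.C} (hc : c ∈ CC) :
    Y.dot (Y.KC ℚ) (φ (Y.v ℚ c)) ≤ n0 := by
  have h1 := h.eq c hc
  rw [Z5_dot h.ctr (h.ctr.φ_DD SS γ)] at h1
  have h2 : Y.dot (Y.DD φ SS γ) (φ (Y.v ℚ c)) =
      Y.dot (Y.KC ℚ) (φ (Y.v ℚ c)) + ∑ c' ∈ SS, γ c' * Y.dot (φ (Y.v ℚ c')) (φ (Y.v ℚ c)) := by
    unfold DD
    rw [Y.dot_add_left, h.ctr.dot_φ', dot_cb]
  have h3 : γ c * Y.dot (φ (Y.v ℚ c)) (φ (Y.v ℚ c)) ≤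
      ∑ c' ∈ SS, γ c' * Y.dot (φ (Y.v ℚ c')) (φ (Y.v ℚ c)) := by
    classical
    rw [← Finset.add_sum_erase SS _ (h.sub hc)]
    have : 0 ≤ ∑ c' ∈ SS.erase c, γ c' * Y.dot (φ (Y.v ℚ c')) (φ (Y.v ℚ c)) := by
      refine Finset.sum_nonneg fun c' hc' => mul_nonneg (h.nonneg c') ?_
      rw [Y.dot_comm]
      exact Z5_cross h.ctr (h.disj c hc) (Finset.ne_of_mem_erase hc').symm
    linarith
  have h4 := (hSS c (h.sub hc)).trans (h.ctr.sq_v c)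
  have h5 := h.nonneg c
  have h6 := h.lt c
  have h7 : -(n0 : ℚ) ≤ γ c * Y.dot (φ (Y.v ℚ c)) (φ (Y.v ℚ c)) := by
    have h8 : γ c * -(n0 : ℚ) ≤ γ c * Y.dot (φ (Y.v ℚ c)) (φ (Y.v ℚ c)) :=
      mul_le_mul_of_nonneg_left h4 h5
    have h9 : (0 : ℚ) ≤ n0 := Nat.cast_nonneg _
    nlinarith
  linarith

/-- `D' = - t H`: then `φ(c) ^ 2 ≥ 0` for all curves `c` not in `CC` or `R`; `α = - K' - Z`, the projection of
`-K'` to the orthogonal complement of `CC`. -/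
theorem St0.mult (h : Y.St0 SS Γ R φ CC γ) {n0 : ℕ} (hn0 : 1 ≤ n0)
    (hSS : ∀ c ∈ SS, -(n0 : ℚ) ≤ Y.dot (Y.v ℚ c) (Y.v ℚ c)) {H : Fin m → ℚ} (hH : φ H = H)
    (hH2 : 0 < Y.dot H H) (hH0 : Y.Nef H) (hHC : ∀ c ∈ CC, Y.dot H (Y.v ℚ c) = 0)
    (hHC' : ∀ c, c ∉ CC → c ∉ R → 0 < Y.dot H (Y.v ℚ c)) {t : ℚ}
    (ht : 0 < t) (hP : Y.DD φ SS γ = -(t • H))
    (hneg : ∀ c, c ∉ CC → c ∉ R → Y.dot (φ (Y.v ℚ c)) (φ (Y.v ℚ c)) < 0 →
      0 ≤ Y.dot (Y.DD φ SS γ) (Y.v ℚ c)) :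
    Y.Good SS Γ (SS.card.factorial * n0 ^ SS.card).factorial
      (10 + SS.card * n0 * (SS.card.factorial * n0 ^ SS.card : ℕ)) := by
  classical
  have hsq : ∀ c, c ∉ CC → c ∉ R → 0 ≤ Y.dot (φ (Y.v ℚ c)) (φ (Y.v ℚ c)) := by
    intro c hc hcR
    by_contra hcon
    have h1 := hneg c hc hcR (not_le.1 hcon)
    rw [hP, Y.dot_neg_left, Y.dot_smul_left] at h1
    have h2 := mul_pos ht (hHC' c hc hcR)
    linarith
  obtain ⟨z, hz⟩ := h.nd.solve fun c => -Y.dot (Y.KC ℚ) (φ (Y.v ℚ c))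
  have hz0 : ∀ c ∈ CC, 0 ≤ z c := by
    refine ND.nonneg h.ctr h.nd h.disj fun c hc => ?_
    rw [hz c hc, neg_nonpos]
    exact h.kpos c hc
  obtain ⟨α, hα⟩ : ∃ α, α = -φ (Y.KC ℚ) - Y.cb φ CC z := ⟨_, rfl⟩
  have hφα : φ α = α := by
    rw [hα, map_sub, map_neg, h.ctr.idem, h.ctr.φ_cb]
  have hα0 : ∀ c ∈ CC, Y.dot α (φ (Y.v ℚ c)) = 0 := by
    intro c hc
    rw [hα, Y.dot_sub_left, Y.dot_neg_left, h.ctr.dot_φ', hz c hc, sub_neg_eq_add,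
      neg_add_cancel]
  have hαC : ∀ c ∈ CC, Y.dot α (Y.v ℚ c) = 0 := fun c hc => by
    rw [Z5_dot h.ctr hφα, hα0 c hc]
  have hαR : ∀ c ∈ R, Y.dot α (Y.v ℚ c) = 0 := fun c hc => Z5_R h.ctr hφα hc
  have hαp : ∀ c, c ∉ CC → c ∉ R → 0 < Y.dot α (Y.v ℚ c) := by
    intro c hc hcR
    rw [Z5_dot h.ctr hφα]
    exact lt_of_lt_of_le (mul_pos ht (hHC' c hc hcR)) (Z5_pos h hH hHC hP hsq hα hα0 hc hcR)
  have hnef : Y.Nef α := by
    intro c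
    by_cases hc : c ∈ CC
    · exact (hαC c hc).ge
    by_cases hcR : c ∈ R
    · exact (hαR c hcR).ge
    exact (hαp c hc hcR).le
  have hαne : α ≠ 0 := by
    obtain ⟨c, hc, hcR⟩ := Z5_exists h.ctr hH hH2 hH0 hHC
    rintro rfl
    have h1 := hαp c hc hcR
    rw [Y.dot_zero_left] at h1
    exact lt_irrefl _ h1
  have hHα : 0 < Y.dot H α :=
    Y.cone_mul_pos Y.hasHodge_rat (Y.nef_A hH0) hH2 (Y.nef_A hnef) (Y.nef_sq' hnef) hαne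
  have hDα : Y.dot (Y.DD φ SS γ) α < 0 := by
    rw [hP, Y.dot_neg_left, Y.dot_smul_left, neg_lt_zero]
    exact mul_pos ht hHα
  have hKα : Y.dot (Y.KC ℚ) α < 0 := lt_of_le_of_lt (Z5_K h.toSt hφα hnef) hDα
  -- integrality and bounds
  have hint : ∀ c, ∃ a : ℤ, Y.dot (Y.KC ℚ) (φ (Y.v ℚ c)) = a := fun c =>
    Y.isInt_dot Y.isInt_KC (h.ctr.int _ (Y.isInt_v c))
  choose b hb using hint
  have hcard : CC.card ≤ SS.card := Finset.card_le_card h.sub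
  have hden := ND.denom h.ctr h.nd hn0
    (fun c hc => (hSS c (h.sub hc)).trans (h.ctr.sq_v c)) hcard (z := z) (b := fun c => -b c)
    (fun c hc => by rw [hz c hc, hb c]; push_cast; rfl)
  have hzle : ∀ c ∈ CC, z c ≤ (SS.card.factorial * n0 ^ SS.card : ℕ) := by
    intro c hc
    refine (le_abs_self _).trans ((hden c hc).2 n0 le_rfl fun c' hc' => ?_)
    rw [abs_neg]
    have h1 := Z5_le h hSS hc'
    have h2 := h.kpos c' hc'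
    rw [hb c'] at h1 h2
    have h3 : b c' ≤ (n0 : ℤ) := by exact_mod_cast h1
    have h4 : 0 ≤ b c' := by exact_mod_cast h2
    rwa [abs_of_nonneg h4]
  refine ⟨α, hnef, ?_, ?_, ?_, ?_⟩
  · have e : (((SS.card.factorial * n0 ^ SS.card).factorial : ℕ) : ℚ) • α =
        -((((SS.card.factorial * n0 ^ SS.card).factorial : ℤ) : ℚ) • φ (Y.KC ℚ)) +
        -(∑ c ∈ CC, ((((SS.card.factorial * n0 ^ SS.card).factorial : ℕ) : ℚ) * z c) •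
          φ (Y.v ℚ c)) := by
      rw [hα, cb, smul_sub, smul_neg, Finset.smul_sum, sub_eq_add_neg, Int.cast_natCast]
      simp only [smul_smul]
    rw [e]
    refine isInt_add (Z5_isInt_neg (isInt_smul (h.ctr.int _ Y.isInt_KC) _))
      (Z5_isInt_neg (Z5_isInt_sum _ _ fun c hc => ?_))
    obtain ⟨a, ha⟩ := (hden c hc).1
    rw [ha]
    exact isInt_smul (h.ctr.int _ (Y.isInt_v c)) a
  · rw [Z5_KG h.toSt hαR hαC]
    exact hDα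
  · linarith
  · have e1 : -Y.dot (Y.KC ℚ) α = Y.dot (φ (Y.KC ℚ)) (φ (Y.KC ℚ)) +
        ∑ c ∈ CC, z c * Y.dot (Y.KC ℚ) (φ (Y.v ℚ c)) := by
      rw [hα, Y.dot_sub_right, Y.dot_neg_right, h.ctr.dot_φ', Y.dot_comm (Y.KC ℚ) (Y.cb φ CC z),
        dot_cb]
      have : ∑ c ∈ CC, z c * Y.dot (φ (Y.v ℚ c)) (Y.KC ℚ) =
          ∑ c ∈ CC, z c * Y.dot (Y.KC ℚ) (φ (Y.v ℚ c)) :=
        Finset.sum_congr rfl fun c _ => by rw [Y.dot_comm]
      rw [this]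
      ring
    have e2 : Y.dot (φ (Y.KC ℚ)) (φ (Y.KC ℚ)) ≤ 10 := by
      have h1 := h.ctr.kk
      have h2 : (0 : ℚ) ≤ (Module.finrank ℚ (LinearMap.range φ) : ℚ) := Nat.cast_nonneg _
      linarith
    have e3 : ∑ c ∈ CC, z c * Y.dot (Y.KC ℚ) (φ (Y.v ℚ c)) ≤
        CC.card • (((SS.card.factorial * n0 ^ SS.card : ℕ) : ℚ) * n0) := by
      refine Finset.sum_le_card_nsmul _ _ _ fun c hc => ?_
      exact mul_le_mul (hzle c hc) (Z5_le h hSS hc) (h.kpos c hc) (Nat.cast_nonneg _)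
    have e4 : CC.card • (((SS.card.factorial * n0 ^ SS.card : ℕ) : ℚ) * n0) ≤
        SS.card * n0 * (SS.card.factorial * n0 ^ SS.card : ℕ) := by
      rw [nsmul_eq_mul]
      have h1 : (CC.card : ℚ) ≤ SS.card := by exact_mod_cast hcard
      have h2 : (0 : ℚ) ≤ ((SS.card.factorial * n0 ^ SS.card : ℕ) : ℚ) * n0 := by positivity
      calc (CC.card : ℚ) * (((SS.card.factorial * n0 ^ SS.card : ℕ) : ℚ) * n0)
          ≤ SS.card * (((SS.card.factorial * n0 ^ SS.card : ℕ) : ℚ) * n0) :=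
            mul_le_mul_of_nonneg_right h1 h2
        _ = _ := by ring
    rw [e1]
    linarith

/-! ### row Z6: assembly of the last state -/

theorem St0.last (h : Y.St0 SS Γ R φ CC γ) {n0 : ℕ} (hn0 : 1 ≤ n0)
    (hSS : ∀ c ∈ SS, -(n0 : ℚ) ≤ Y.dot (Y.v ℚ c) (Y.v ℚ c)) (hG : ¬ Y.QEff (Y.KG SS Γ))
    (hneg : ∀ c, c ∉ CC → c ∉ R → Y.dot (φ (Y.v ℚ c)) (φ (Y.v ℚ c)) < 0 →
      0 ≤ Y.dot (Y.DD φ SS γ) (Y.v ℚ c)) :
    Y.Good SS Γ (SS.card.factorial * n0 ^ SS.card).factorial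
      (10 + SS.card * n0 * (SS.card.factorial * n0 ^ SS.card : ℕ)) := by
  have hctr : Y.Ctr R φ := h.ctr
  have hφD : φ (Y.DD φ SS γ) = Y.DD φ SS γ := hctr.φ_DD SS γ
  obtain ⟨H, hH, hH2, hHC, hHR, hHo⟩ := exists_H h.ctr h.nd h.disj
  have hdeg : ∀ c, (1 : ℚ) ≤ Y.dot (Y.AC ℚ) (Y.v ℚ c) := by
    intro c
    have h4 : Y.dot (Y.AC ℚ) (Y.v ℚ c) = ((Y.dot Y.A (Y.cl c) : ℤ) : ℚ) := Y.dot_cst _ _
    rw [h4]
    exact_mod_cast Y.deg c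
  have hHC' : ∀ c, c ∉ CC → c ∉ R → 0 < Y.dot H (Y.v ℚ c) := by
    intro c h1 h2
    linarith [hHo c h1 h2, hdeg c]
  have hH0 : Y.Nef H := by
    intro c
    by_cases h1 : c ∈ CC
    · exact (hHC c h1).ge
    · by_cases h2 : c ∈ R
      · exact (hHR c h2).ge
      · exact (hHC' c h1 h2).le
  have hDR : ∀ c ∈ R, Y.dot (Y.DD φ SS γ) (Y.v ℚ c) = 0 := by
    intro c hc
    rw [← hφD, hctr.adj, hctr.ker c hc, Y.dot_zero_right]
  obtain ⟨t, ht, hP, hP2⟩ := threshold (Y := Y) h.ctr hφD hH hH2 hH0 (T := {c | c ∈ CC ∨ c ∈ R})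
    (by
      rintro c (hc | hc)
      · exact ⟨h.eq c hc, hHC c hc⟩
      · exact ⟨hDR c hc, hHR c hc⟩)
    (by
      intro c hc
      exact hHo c (fun h1 => hc (Or.inl h1)) (fun h1 => hc (Or.inr h1)))
    (fun c hc => Or.inr hc)
    (by
      intro c hc hc2
      exact hneg c (fun h1 => hc (Or.inl h1)) (fun h1 => hc (Or.inr h1)) hc2)
    (h.not_nef hG)
  by_cases hP0 : rl (Y.DD φ SS γ) + t • rl H = 0
  · have hHne : ∃ i, H i ≠ 0 := by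
      by_contra hcon
      push Not at hcon
      have h1 : H = 0 := funext hcon
      rw [h1, Y.dot_zero_left] at hH2
      exact lt_irrefl _ hH2
    obtain ⟨i, hi⟩ := hHne
    have hiR : ((H i : ℚ) : ℝ) ≠ 0 := by exact_mod_cast hi
    obtain ⟨q, hq⟩ : ∃ q : ℚ, (q : ℝ) = t := by
      refine ⟨-(Y.DD φ SS γ i) / H i, ?_⟩
      have h1 := congrFun hP0 i
      have h2 : ((Y.DD φ SS γ i : ℚ) : ℝ) + t * ((H i : ℚ) : ℝ) = 0 := h1
      push_cast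
      rw [div_eq_iff hiR]
      linarith
    rw [← hq] at ht hP0
    have hq0 : 0 < q := by exact_mod_cast ht
    have hPq : Y.DD φ SS γ = -(q • H) := by
      have h1 : rl (Y.DD φ SS γ + q • H) = 0 := by
        rw [rl_add, rl_smul]
        exact hP0
      have h2 := rl_eq_zero h1
      exact eq_neg_of_add_eq_zero_left h2
    exact h.mult hn0 hSS hH hH2 hH0 hHC hHC' hq0 hPq hneg
  · obtain ⟨α, h1, h2, h3, h4, h5⟩ := h.fibre hH hH2 hH0 hHC ht hP hP2 hP0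
      (SS.card.factorial * n0 ^ SS.card).factorial
    refine ⟨α, h1, h2, h3, h4, h5.trans ?_⟩
    have h6 : (0 : ℚ) ≤ SS.card * n0 * (SS.card.factorial * n0 ^ SS.card : ℕ) := by positivity
    linarith

/-! ### row Z7: the criterion -/

lemma Z7_mono {d : ℕ} {B B' : ℚ} (h : Y.Good SS Γ d B) (hB : B ≤ B') : Y.Good SS Γ d B' := by
  obtain ⟨α, h1, h2, h3, h4, h5⟩ := h
  exact ⟨α, h1, h2, h3, h4, h5.trans hB⟩

lemma Z7_one (n0 : ℕ) : (1 : ℚ) ≤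
    10 + SS.card * n0 * (SS.card.factorial * n0 ^ SS.card : ℕ) := by
  have h : (0 : ℚ) ≤ SS.card * n0 * (SS.card.factorial * n0 ^ SS.card : ℕ) := by positivity
  linarith

theorem Z7_aux {n0 : ℕ} (hn0 : 1 ≤ n0)
    (hSS : ∀ c ∈ SS, -(n0 : ℚ) ≤ Y.dot (Y.v ℚ c) (Y.v ℚ c)) (hG : ¬ Y.QEff (Y.KG SS Γ)) :
    ∀ (N : ℕ) (R CC : Finset Y.C) (φ : (Fin m → ℚ) →ₗ[ℚ] (Fin m → ℚ)) (γ : Y.C → ℚ),
      Module.finrank ℚ (LinearMap.range φ) * (SS.card + 1) + (SS.card - CC.card) < N →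
      Y.St SS Γ R φ CC γ →
      Y.Good SS Γ (SS.card.factorial * n0 ^ SS.card).factorial
        (10 + SS.card * n0 * (SS.card.factorial * n0 ^ SS.card : ℕ)) := by
  classical
  intro N
  induction N with
  | zero =>
    intro R CC φ γ h
    exact absurd h (Nat.not_lt_zero _)
  | succ N ih =>
    intro R CC φ γ hN h
    have contr : ∀ {R' CC' : Finset Y.C} {e : Fin m → ℚ}, φ e = e → Y.dot e e = -1 →
        Y.St SS Γ R' (Y.nx φ e) CC' γ ∨ (∃ γ', Y.St SS Γ R' (Y.nx φ e) CC' γ') →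
        Y.Good SS Γ (SS.card.factorial * n0 ^ SS.card).factorial
          (10 + SS.card * n0 * (SS.card.factorial * n0 ^ SS.card : ℕ)) := by
      intro R' CC' e he he2 hst
      have hr := h.ctr.rank_nx he he2
      have hm : Module.finrank ℚ (LinearMap.range (Y.nx φ e)) * (SS.card + 1) +
          (SS.card - CC'.card) < N := by
        rw [← hr, add_mul, one_mul] at hN
        have h1 : SS.card - CC'.card ≤ SS.card := Nat.sub_le _ _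
        omega
      rcases hst with hst | ⟨γ', hst⟩
      · exact ih R' CC' _ γ hm hst
      · exact ih R' CC' _ γ' hm hst
    by_cases hA : ∃ c ∈ CC, Y.dot (Y.KC ℚ) (φ (Y.v ℚ c)) < 0
    · obtain ⟨c, hc, h1⟩ := hA
      obtain ⟨h2, h3⟩ := h.stepA hc h1
      exact contr (h.ctr.idem _) h3 (Or.inl h2)
    · have hK : ∀ c ∈ CC, 0 ≤ Y.dot (Y.KC ℚ) (φ (Y.v ℚ c)) := fun c hc =>
        not_lt.1 fun h1 => hA ⟨c, hc, h1⟩
      obtain ⟨γ', h0⟩ := h.stepB hK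
      by_cases hB : ∃ c0, c0 ∉ R ∧ c0 ∉ CC ∧ Y.dot (Y.DD φ SS γ') (Y.v ℚ c0) < 0 ∧
          Y.dot (φ (Y.v ℚ c0)) (φ (Y.v ℚ c0)) < 0
      · obtain ⟨c0, hR, hCC, h1, h2⟩ := hB
        obtain ⟨z, hz⟩ := h.nd.solve fun c => -Y.dot (φ (Y.v ℚ c0)) (φ (Y.v ℚ c))
        have hz' : ∀ c ∈ CC, Y.dot (φ (Y.v ℚ c0) + Y.cb φ CC z) (φ (Y.v ℚ c)) = 0 := by
          intro c hc
          rw [Y.dot_add_left, hz c hc, add_neg_cancel]
        by_cases hα : 0 ≤ Y.dot (φ (Y.v ℚ c0) + Y.cb φ CC z) (φ (Y.v ℚ c0) + Y.cb φ CC z)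
        · exact Z7_mono (h0.stop hn0 hSS hR hCC h1 h2 hz' hα) (Z7_one n0)
        · have hnd := h.nd.cons hCC hz' (not_le.1 hα)
          rcases h0.next hR hCC h1 h2 hnd with h3 | ⟨h3, h4⟩
          · refine ih R (insert c0 CC) φ γ' ?_ h3
            have h5 : (insert c0 CC).card ≤ SS.card := Finset.card_le_card h3.sub
            rw [Finset.card_insert_of_notMem hCC] at h5 ⊢
            omega
          · exact contr (h.ctr.idem _) h4 (Or.inr ⟨γ', h3⟩)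
      · refine h0.last hn0 hSS hG fun c hc1 hc2 hc3 => not_lt.1 fun hc4 =>
          hB ⟨c, hc2, hc1, hc4, hc3⟩

/-- Induction on `(finrank (range φ), #SS - #CC)`, lexicographically. -/
theorem St.good (h : Y.St SS Γ R φ CC γ) {n0 : ℕ} (hn0 : 1 ≤ n0)
    (hSS : ∀ c ∈ SS, -(n0 : ℚ) ≤ Y.dot (Y.v ℚ c) (Y.v ℚ c)) (hG : ¬ Y.QEff (Y.KG SS Γ)) :
    Y.Good SS Γ (SS.card.factorial * n0 ^ SS.card).factorial
      (10 + SS.card * n0 * (SS.card.factorial * n0 ^ SS.card : ℕ)) :=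
  Z7_aux hn0 hSS hG _ R CC φ γ (Nat.lt_succ_self _) h

variable (Y) in
theorem criterion (SS : Finset Y.C) : ∃ (d : ℕ) (B : ℚ), 0 < d ∧ ∀ Γ : Y.C → ℚ,
    (∀ c, 0 ≤ Γ c) → (∀ c, Γ c < 1) → ¬ Y.QEff (Y.KG SS Γ) → Y.Good SS Γ d B := by
  have hn : ∃ n0 : ℕ, 1 ≤ n0 ∧ ∀ c ∈ SS, -(n0 : ℚ) ≤ Y.dot (Y.v ℚ c) (Y.v ℚ c) := by
    refine ⟨(∑ c ∈ SS, (Y.dot (Y.cl c) (Y.cl c)).natAbs) + 1, by omega, fun c hc => ?_⟩
    have h1 : (Y.dot (Y.cl c) (Y.cl c)).natAbs ≤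
        ∑ c ∈ SS, (Y.dot (Y.cl c) (Y.cl c)).natAbs :=
      Finset.single_le_sum (f := fun c => (Y.dot (Y.cl c) (Y.cl c)).natAbs)
        (fun _ _ => Nat.zero_le _) hc
    have h2 : -(((∑ c ∈ SS, (Y.dot (Y.cl c) (Y.cl c)).natAbs) + 1 : ℕ) : ℤ) ≤
        Y.dot (Y.cl c) (Y.cl c) := by
      generalize (∑ c ∈ SS, (Y.dot (Y.cl c) (Y.cl c)).natAbs) = t at h1
      omega
    have h3 : Y.dot (Y.v ℚ c) (Y.v ℚ c) = ((Y.dot (Y.cl c) (Y.cl c) : ℤ) : ℚ) :=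
      Y.dot_cst _ _
    rw [h3]
    exact_mod_cast h2
  obtain ⟨n0, hn0, hSS⟩ := hn
  refine ⟨_, _, Nat.factorial_pos _, fun Γ hΓ0 hΓ1 hG => (st_init hΓ0 hΓ1).good hn0 hSS hG⟩

/-! ### row Z8: finitely many conditions (Dickson) -/

variable (Y) in
/-- The vectors `(d α c)_{c ∈ SS}` in `ℕ ^ SS` for the good `α` with `-d K α = j`, `1 ≤ j ≤ d B`: finitely many
minimal ones for every `j`.  If `(K + Γ) α < 0` then `(K + Γ) α' < 0` for a minimal `α' ≤ α`. -/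
theorem polytope (SS : Finset Y.C) : ∃ T : Finset (Fin m → ℚ), (∀ α ∈ T, Y.Nef α) ∧
    ∀ Γ : Y.C → ℚ, (∀ c, 0 ≤ Γ c) → (∀ c, Γ c < 1) →
      (Y.QEff (Y.KG SS Γ) ↔ ∀ α ∈ T, 0 ≤ Y.dot (Y.KG SS Γ) α) := by
  classical
  obtain ⟨d, B, hd, hcr⟩ := Y.criterion SS
  have hdQ : (0 : ℚ) < d := by exact_mod_cast hd
  obtain ⟨N, hN⟩ : ∃ N : ℕ, (d : ℚ) * B ≤ N := exists_nat_ge _
  -- the good classes
  obtain ⟨good, hgood⟩ : ∃ good : (Fin m → ℚ) → Prop, ∀ α, good α ↔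
      (Y.Nef α ∧ IsInt ((d : ℚ) • α) ∧ 0 < -Y.dot (Y.KC ℚ) α ∧ -Y.dot (Y.KC ℚ) α ≤ B) :=
    ⟨_, fun α => Iff.rfl⟩
  have hK : ∀ α, good α → ∃ n : ℕ, (n : ℚ) = d * -Y.dot (Y.KC ℚ) α ∧ n ≤ N := by
    intro α hα
    obtain ⟨h1, h2, h3, h4⟩ := (hgood α).1 hα
    obtain ⟨z, hz⟩ := isInt_dot (Y := Y) Y.isInt_KC h2
    rw [Y.dot_smul_right] at hz
    have h5 : (0 : ℚ) < d * -Y.dot (Y.KC ℚ) α := mul_pos hdQ h3
    have h6 : (0 : ℚ) ≤ ((-z : ℤ) : ℚ) := by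
      push_cast
      linarith
    have h7 : 0 ≤ -z := by exact_mod_cast h6
    obtain ⟨n, hn⟩ := Int.eq_ofNat_of_zero_le h7
    have h8 : (n : ℚ) = d * -Y.dot (Y.KC ℚ) α := by
      have h9 : ((-z : ℤ) : ℚ) = n := by
        rw [hn]
        simp
      push_cast at h9
      linarith
    refine ⟨n, h8, ?_⟩
    have h9 : (n : ℚ) ≤ N := by
      rw [h8]
      exact le_trans (mul_le_mul_of_nonneg_left h4 hdQ.le) hN
    exact_mod_cast h9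
  have hC : ∀ α, good α → ∀ c : Y.C, ∃ n : ℕ, (n : ℚ) = d * Y.dot (Y.v ℚ c) α := by
    intro α hα c
    obtain ⟨h1, h2, h3, h4⟩ := (hgood α).1 hα
    obtain ⟨z, hz⟩ := isInt_dot (Y := Y) (Y.isInt_v c) h2
    rw [Y.dot_smul_right] at hz
    have h5 : (0 : ℚ) ≤ d * Y.dot (Y.v ℚ c) α := by
      refine mul_nonneg hdQ.le ?_
      rw [Y.dot_comm]
      exact h1 c
    have h6 : (0 : ℚ) ≤ ((z : ℤ) : ℚ) := by
      linarith
    have h7 : 0 ≤ z := by exact_mod_cast h6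
    obtain ⟨n, hn⟩ := Int.eq_ofNat_of_zero_le h7
    refine ⟨n, ?_⟩
    rw [hz, hn]
    simp
  -- the vectors
  obtain ⟨W, hW⟩ : ∃ W : Set (Bool ⊕ SS → ℕ), ∀ w, w ∈ W ↔ ∃ α, good α ∧
      (w (Sum.inl true) : ℚ) = d * -Y.dot (Y.KC ℚ) α ∧
      w (Sum.inl false) + w (Sum.inl true) = N ∧
      ∀ c : SS, (w (Sum.inr c) : ℚ) = d * Y.dot (Y.v ℚ c.1) α :=
    ⟨{w | _}, fun w => Iff.rfl⟩
  have hmin : {w | Minimal (· ∈ W) w}.Finite := by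
    have h1 : IsAntichain (· ≤ ·) {w | Minimal (· ∈ W) w} := setOfPred_minimal_antichain _
    exact IsAntichain.finite_of_partiallyWellOrderedOn h1
      (Set.isPWO_of_wellQuasiOrderedLE _)
  have hch : ∀ w, ∃ α, w ∈ W → good α ∧
      (w (Sum.inl true) : ℚ) = d * -Y.dot (Y.KC ℚ) α ∧
      w (Sum.inl false) + w (Sum.inl true) = N ∧
      ∀ c : SS, (w (Sum.inr c) : ℚ) = d * Y.dot (Y.v ℚ c.1) α := by
    intro w
    by_cases h : w ∈ W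
    · obtain ⟨α, hα⟩ := (hW w).1 h
      exact ⟨α, fun _ => hα⟩
    · exact ⟨0, fun h' => absurd h' h⟩
  choose F hF using hch
  have hdot : ∀ (Γ : Y.C → ℚ) (α : Fin m → ℚ), Y.dot (Y.KG SS Γ) α =
      Y.dot (Y.KC ℚ) α + ∑ c ∈ SS, Γ c * Y.dot (Y.v ℚ c) α := by
    intro Γ α
    unfold KG
    rw [Y.dot_add_left, Y.dot_sum_left]
    congr 1
    refine Finset.sum_congr rfl fun c _ => ?_
    rw [Y.dot_smul_left]
  refine ⟨hmin.toFinset.image F, ?_, ?_⟩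
  · intro α hα
    obtain ⟨w, hw, rfl⟩ := Finset.mem_image.1 hα
    have h1 : Minimal (· ∈ W) w := by
      have := hmin.mem_toFinset.1 hw
      exact this
    exact ((hgood _).1 (hF w h1.1).1).1
  · intro Γ hΓ0 hΓ1
    constructor
    · intro h α hα
      obtain ⟨w, hw, rfl⟩ := Finset.mem_image.1 hα
      have h1 : Minimal (· ∈ W) w := by
        have := hmin.mem_toFinset.1 hw
        exact this
      rw [Y.dot_comm]
      exact Y.nef_qeff ((hgood _).1 (hF w h1.1).1).1 h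
    · intro h
      by_contra hq
      obtain ⟨α, h1, h2, h3, h4, h5⟩ := hcr Γ hΓ0 hΓ1 hq
      have hα : good α := (hgood α).2 ⟨h1, h2, h4, h5⟩
      obtain ⟨n, hn, hnN⟩ := hK α hα
      choose e he using hC α hα
      have hw : (Sum.elim (fun b : Bool => if b then n else N - n) (fun c : SS => e c.1) :
          Bool ⊕ SS → ℕ) ∈ W := by
        rw [hW]
        refine ⟨α, hα, ?_, ?_, ?_⟩
        · simpa using hn
        · simp only [Sum.elim_inl, if_true, Bool.false_eq_true, if_false]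
          omega
        · intro c
          simpa using he c.1
      obtain ⟨w', hle, hw'⟩ := exists_minimal_le_of_wellFoundedLT (· ∈ W) _ hw
      obtain ⟨h6, h7, h8, h9⟩ := hF w' hw'.1
      have h10 := hle (Sum.inl true)
      have h11 := hle (Sum.inl false)
      simp only [Sum.elim_inl, if_true, Bool.false_eq_true, if_false] at h10 h11
      have h12 : w' (Sum.inl true) = n := by omega
      have h13 : Y.dot (Y.KC ℚ) (F w') = Y.dot (Y.KC ℚ) α := by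
        rw [h12, hn] at h7
        have h14 := mul_left_cancel₀ hdQ.ne' h7
        linarith
      have h14 : ∀ c ∈ SS, Y.dot (Y.v ℚ c) (F w') ≤ Y.dot (Y.v ℚ c) α := by
        intro c hc
        have h15 := hle (Sum.inr ⟨c, hc⟩)
        simp only [Sum.elim_inr] at h15
        have h16 : ((w' (Sum.inr ⟨c, hc⟩) : ℕ) : ℚ) ≤ (e c : ℚ) := by exact_mod_cast h15
        rw [h9 ⟨c, hc⟩, he c] at h16
        exact le_of_mul_le_mul_left h16 hdQ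
      have h15 := h (F w') (Finset.mem_image_of_mem F (hmin.mem_toFinset.2 hw'))
      rw [hdot, h13] at h15
      rw [hdot] at h3
      have h16 : ∑ c ∈ SS, Γ c * Y.dot (Y.v ℚ c) (F w') ≤
          ∑ c ∈ SS, Γ c * Y.dot (Y.v ℚ c) α :=
        Finset.sum_le_sum fun c hc => mul_le_mul_of_nonneg_left (h14 c hc) (hΓ0 c)
      linarith

end NS

end Pool.Agent.LibKA2
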