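import Pool.Agent.LibKA2.Defs

/-!
The form: bilinearity, casts, parity, Hodge index.
-/

set_option autoImplicit false

namespace Pool.Agent.LibKA2

open Finset

variable {m : ℕ}

namespace NS

variable (Y : NS m)

section ring

variable {k : Type} [CommRing k]

/-! ### row L1: bilinearity -/

lemma dot_comm (x y : Fin m → k) : Y.dot x y = Y.dot y x := by
  unfold dot fm
  rw [Finset.sum_comm]
  refine Finset.sum_congr rfl fun i _ => Finset.sum_congr rfl fun j _ => ?_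
  rw [Y.symm j i, mul_comm (x j)]

lemma dot_add_left (x y z : Fin m → k) : Y.dot (x + y) z = Y.dot x z + Y.dot y z := by
  unfold dot fm
  rw [← Finset.sum_add_distrib]
  refine Finset.sum_congr rfl fun i _ => ?_
  rw [← Finset.sum_add_distrib]
  refine Finset.sum_congr rfl fun j _ => ?_
  rw [Pi.add_apply]
  ring

lemma dot_add_right (x y z : Fin m → k) : Y.dot x (y + z) = Y.dot x y + Y.dot x z := by
  rw [Y.dot_comm x, Y.dot_add_left, Y.dot_comm y, Y.dot_comm z]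

lemma dot_smul_left (a : k) (x y : Fin m → k) : Y.dot (a • x) y = a * Y.dot x y := by
  unfold dot fm
  rw [Finset.mul_sum]
  refine Finset.sum_congr rfl fun i _ => ?_
  rw [Finset.mul_sum]
  refine Finset.sum_congr rfl fun j _ => ?_
  rw [Pi.smul_apply, smul_eq_mul]
  ring

lemma dot_smul_right (a : k) (x y : Fin m → k) : Y.dot x (a • y) = a * Y.dot x y := by
  rw [Y.dot_comm x, Y.dot_smul_left, Y.dot_comm y]

lemma dot_nsmul_left (a : ℕ) (x y : Fin m → k) : Y.dot (a • x) y = a * Y.dot x y := by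
  rw [← Y.dot_smul_left, Nat.cast_smul_eq_nsmul]

lemma dot_nsmul_right (a : ℕ) (x y : Fin m → k) : Y.dot x (a • y) = a * Y.dot x y := by
  rw [← Y.dot_smul_right, Nat.cast_smul_eq_nsmul]

lemma dot_neg_left (x y : Fin m → k) : Y.dot (-x) y = -Y.dot x y := by
  rw [← neg_one_smul k x, Y.dot_smul_left, neg_one_mul]

lemma dot_neg_right (x y : Fin m → k) : Y.dot x (-y) = -Y.dot x y := by
  rw [← neg_one_smul k y, Y.dot_smul_right, neg_one_mul]

lemma dot_sub_left (x y z : Fin m → k) : Y.dot (x - y) z = Y.dot x z - Y.dot y z := by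
  rw [sub_eq_add_neg, Y.dot_add_left, Y.dot_neg_left, ← sub_eq_add_neg]

lemma dot_sub_right (x y z : Fin m → k) : Y.dot x (y - z) = Y.dot x y - Y.dot x z := by
  rw [sub_eq_add_neg, Y.dot_add_right, Y.dot_neg_right, ← sub_eq_add_neg]

lemma dot_zero_left (y : Fin m → k) : Y.dot 0 y = 0 := by
  unfold dot fm
  simp

lemma dot_zero_right (y : Fin m → k) : Y.dot y 0 = 0 := by
  unfold dot fm
  simp

lemma dot_sum_left {ι : Type} (s : Finset ι) (f : ι → Fin m → k) (y : Fin m → k) :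
    Y.dot (∑ i ∈ s, f i) y = ∑ i ∈ s, Y.dot (f i) y := by
  classical
  induction s using Finset.induction_on with
  | empty => rw [Finset.sum_empty, Finset.sum_empty, Y.dot_zero_left]
  | insert a s ha ih => rw [Finset.sum_insert ha, Finset.sum_insert ha, Y.dot_add_left, ih]

lemma dot_sum_right {ι : Type} (s : Finset ι) (f : ι → Fin m → k) (y : Fin m → k) :
    Y.dot y (∑ i ∈ s, f i) = ∑ i ∈ s, Y.dot y (f i) := by
  classical
  rw [Y.dot_comm, Y.dot_sum_left]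
  exact Finset.sum_congr rfl fun i _ => Y.dot_comm _ _

private lemma L1_cst_nsmul (b : ℕ) (x : Fin m → ℤ) : cst k (b • x) = (b : k) • cst k x := by
  funext i
  simp [cst]

private lemma L1_cst_sum {ι : Type} (s : Finset ι) (f : ι → Fin m → ℤ) :
    cst k (∑ i ∈ s, f i) = ∑ i ∈ s, cst k (f i) := by
  funext j
  simp [cst, Finset.sum_apply]

/-- sums of curves. -/
lemma dot_fsum_right (a : Y.C →₀ ℕ) (y : Fin m → k) :
    Y.dot y (cst k (a.sum fun c b => b • Y.cl c)) =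
      a.sum fun c b => (b : k) * Y.dot y (Y.v k c) := by
  unfold Finsupp.sum
  rw [L1_cst_sum, Y.dot_sum_right]
  refine Finset.sum_congr rfl fun c _ => ?_
  rw [L1_cst_nsmul, Y.dot_smul_right]
  rfl

/-! ### row L2: casts -/

lemma dot_cst (x y : Fin m → ℤ) : Y.dot (cst k x) (cst k y) = ((Y.dot x y : ℤ) : k) := by
  simp only [dot, fm, cst, Int.cast_sum, Int.cast_mul, Int.cast_id]

lemma cst_add (x y : Fin m → ℤ) : cst k (x + y) = cst k x + cst k y := by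
  funext i
  simp only [cst, Pi.add_apply, Int.cast_add]

lemma cst_sub (x y : Fin m → ℤ) : cst k (x - y) = cst k x - cst k y := by
  funext i
  simp only [cst, Pi.sub_apply, Int.cast_sub]

lemma cst_neg (x : Fin m → ℤ) : cst k (-x) = -cst k x := by
  funext i
  simp only [cst, Pi.neg_apply, Int.cast_neg]

lemma cst_zero : cst k (0 : Fin m → ℤ) = 0 := by
  funext i
  simp only [cst, Pi.zero_apply, Int.cast_zero]

lemma cst_zsmul (a : ℤ) (x : Fin m → ℤ) : cst k (a • x) = (a : k) • cst k x := by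
  funext i
  simp only [cst, Pi.smul_apply, smul_eq_mul, Int.cast_mul]

lemma cst_nsmul (a : ℕ) (x : Fin m → ℤ) : cst k (a • x) = (a : k) • cst k x := by
  funext i
  simp only [cst, Pi.smul_apply, nsmul_eq_mul, smul_eq_mul, Int.cast_mul, Int.cast_natCast]

lemma cst_sum {ι : Type} (s : Finset ι) (f : ι → Fin m → ℤ) :
    cst k (∑ i ∈ s, f i) = ∑ i ∈ s, cst k (f i) := by
  classical
  funext i
  simp only [cst, Finset.sum_apply, Int.cast_sum]

end ring

lemma dot_rl (x y : Fin m → ℚ) : Y.dot (rl x) (rl y) = ((Y.dot x y : ℚ) : ℝ) := by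
  simp only [dot, fm, rl, Rat.cast_sum, Rat.cast_mul, Rat.cast_intCast]

lemma rl_add (x y : Fin m → ℚ) : rl (x + y) = rl x + rl y := by
  funext i
  simp only [rl, Pi.add_apply, Rat.cast_add]

lemma rl_sub (x y : Fin m → ℚ) : rl (x - y) = rl x - rl y := by
  funext i
  simp only [rl, Pi.sub_apply, Rat.cast_sub]

lemma rl_smul (a : ℚ) (x : Fin m → ℚ) : rl (a • x) = (a : ℝ) • rl x := by
  funext i
  simp only [rl, Pi.smul_apply, smul_eq_mul, Rat.cast_mul]

lemma rl_cst (x : Fin m → ℤ) : rl (cst ℚ x) = cst ℝ x := by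
  funext i
  simp only [rl, cst, Rat.cast_intCast]

lemma rl_v (c : Y.C) : rl (Y.v ℚ c) = Y.v ℝ c :=
  rl_cst _

lemma rl_eq_zero {x : Fin m → ℚ} (h : rl x = 0) : x = 0 := by
  funext i
  have h1 := congrFun h i
  simp only [rl, Pi.zero_apply, Rat.cast_eq_zero] at h1
  exact h1

lemma cst_eq_zero {k : Type} [CommRing k] [CharZero k] {x : Fin m → ℤ} (h : cst k x = 0) :
    x = 0 := by
  funext i
  have h1 := congrFun h i
  simp only [cst, Pi.zero_apply, Int.cast_eq_zero] at h1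
  exact h1

lemma isInt_cst (x : Fin m → ℤ) : IsInt (cst ℚ x) :=
  ⟨x, rfl⟩

lemma isInt_v (c : Y.C) : IsInt (Y.v ℚ c) :=
  ⟨Y.cl c, rfl⟩

lemma isInt_KC : IsInt (Y.KC ℚ) :=
  ⟨Y.K, rfl⟩

lemma isInt_add {x y : Fin m → ℚ} (hx : IsInt x) (hy : IsInt y) : IsInt (x + y) := by
  obtain ⟨a, rfl⟩ := hx
  obtain ⟨b, rfl⟩ := hy
  exact ⟨a + b, (cst_add a b).symm⟩

lemma isInt_smul {x : Fin m → ℚ} (hx : IsInt x) (a : ℤ) : IsInt ((a : ℚ) • x) := by
  obtain ⟨b, rfl⟩ := hx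
  exact ⟨a • b, (cst_zsmul a b).symm⟩

lemma isInt_dot {x y : Fin m → ℚ} (hx : IsInt x) (hy : IsInt y) :
    ∃ a : ℤ, Y.dot x y = a := by
  obtain ⟨a, rfl⟩ := hx
  obtain ⟨b, rfl⟩ := hy
  exact ⟨Y.dot a b, Y.dot_cst a b⟩

/-- every rational class has an integral multiple. -/
lemma exists_isInt (x : Fin m → ℚ) : ∃ a : ℕ, 0 < a ∧ IsInt ((a : ℚ) • x) := by
  classical
  refine ⟨∏ i, (x i).den, Finset.prod_pos fun i _ => (x i).den_pos,
    fun i => (x i).num * ∏ j ∈ Finset.univ.erase i, ((x j).den : ℤ), ?_⟩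
  funext i
  have h1 : ((∏ i, (x i).den : ℕ) : ℚ) = (x i).den * ∏ j ∈ Finset.univ.erase i, ((x j).den : ℚ) := by
    rw [Nat.cast_prod, Finset.mul_prod_erase Finset.univ (fun j => ((x j).den : ℚ)) (Finset.mem_univ i)]
  rw [Pi.smul_apply, smul_eq_mul, h1]
  simp only [cst, Int.cast_mul, Int.cast_prod, Int.cast_natCast]
  have h2 := Rat.mul_den_eq_num (x i)
  calc ((x i).den : ℚ) * (∏ j ∈ Finset.univ.erase i, ((x j).den : ℚ)) * x i =
        (x i * ((x i).den : ℚ)) * ∏ j ∈ Finset.univ.erase i, ((x j).den : ℚ) := by ring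
    _ = _ := by rw [h2]

/-- parity. -/
lemma parity' {x : Fin m → ℚ} (hx : IsInt x) :
    ∃ a : ℤ, Y.dot x x + Y.dot (Y.KC ℚ) x = 2 * a := by
  obtain ⟨b, rfl⟩ := hx
  obtain ⟨a, ha⟩ := Y.parity b
  refine ⟨a, ?_⟩
  have h1 : Y.dot (cst ℚ b) (cst ℚ b) + Y.dot (Y.KC ℚ) (cst ℚ b) = ((Y.dot b b + Y.dot Y.K b : ℤ) : ℚ) := by
    rw [Int.cast_add, ← Y.dot_cst, ← Y.dot_cst]
    rfl
  rw [h1]
  have h2 : Y.dot b b + Y.dot Y.K b = 2 * a := ha
  rw [h2]
  push_cast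
  ring

/-! ### row L3: the form is negative definite on the orthogonal complement of `A` -/

/-- clear denominators and use `Y.hodge`. -/
lemma hodge_rat {x : Fin m → ℚ} (h : Y.dot (Y.AC ℚ) x = 0) (hx : x ≠ 0) : Y.dot x x < 0 := by
  obtain ⟨a, ha, y, hy⟩ := exists_isInt x
  have ha' : (0 : ℚ) < a := by exact_mod_cast ha
  have h1 : Y.dot Y.A y = 0 := by
    have h2 : ((Y.dot Y.A y : ℤ) : ℚ) = 0 := by
      rw [← Y.dot_cst, ← hy, Y.dot_smul_right]
      have h3 : Y.dot (cst ℚ Y.A) x = 0 := h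
      rw [h3, mul_zero]
    exact_mod_cast h2
  have hy0 : y ≠ 0 := by
    rintro rfl
    rw [cst_zero] at hy
    rcases smul_eq_zero.1 hy with h2 | h2
    · exact ha'.ne' h2
    · exact hx h2
  have h2 : Y.dot y y < 0 := Y.hodge y h1 hy0
  have h3 : (a : ℚ) * ((a : ℚ) * Y.dot x x) < 0 := by
    rw [← Y.dot_smul_right, ← Y.dot_smul_left, hy, Y.dot_cst]
    exact_mod_cast h2
  have h4 : (a : ℚ) * ((a : ℚ) * Y.dot x x) = ((a : ℚ) * (a : ℚ)) * Y.dot x x := by ring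
  rw [h4] at h3
  by_contra h5
  rw [not_lt] at h5
  have h6 : 0 ≤ ((a : ℚ) * (a : ℚ)) * Y.dot x x := mul_nonneg (mul_self_nonneg _) h5
  linarith

lemma L3_dot_mulVec {k : Type} [CommRing k] (x y : Fin m → k) :
    Y.dot y x = ∑ i, y i * (Matrix.mulVec (Y.G.map (Int.cast : ℤ → k)) x) i := by
  simp only [dot, fm, Matrix.mulVec, dotProduct, Matrix.map_apply, Finset.mul_sum]
  refine Finset.sum_congr rfl fun i _ => Finset.sum_congr rfl fun j _ => ?_
  ring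

lemma L3_det : Y.G.det ≠ 0 := by
  intro h
  obtain ⟨v, hv, hv0⟩ := Matrix.exists_mulVec_eq_zero_iff.2 h
  have hG : Y.G.map (Int.cast : ℤ → ℤ) = Y.G := by
    ext i j
    simp
  have h1 : ∀ y : Fin m → ℤ, Y.dot y v = 0 := by
    intro y
    rw [Y.L3_dot_mulVec, hG, hv0]
    simp
  have h2 : Y.dot v v < 0 := Y.hodge v (h1 _) hv
  rw [h1] at h2
  exact lt_irrefl _ h2

lemma L3_semi (y : Fin m → ℚ) :
    Y.dot (Y.AC ℚ) (Y.AC ℚ) * Y.dot y y ≤ Y.dot (Y.AC ℚ) y ^ 2 := by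
  obtain ⟨a, ha⟩ : ∃ a, a = Y.dot (Y.AC ℚ) (Y.AC ℚ) := ⟨_, rfl⟩
  obtain ⟨b, hb⟩ : ∃ b, b = Y.dot (Y.AC ℚ) y := ⟨_, rfl⟩
  have ha0 : 0 < a := by
    have h1 : Y.dot (Y.AC ℚ) (Y.AC ℚ) = ((Y.dot Y.A Y.A : ℤ) : ℚ) := Y.dot_cst _ _
    rw [ha, h1]
    have h2 : 0 < Y.dot Y.A Y.A := Y.A_sq
    exact_mod_cast h2
  have h1 : Y.dot (Y.AC ℚ) (a • y - b • Y.AC ℚ) = 0 := by
    rw [Y.dot_sub_right, Y.dot_smul_right, Y.dot_smul_right, ← ha, ← hb]
    ring
  have h2 : Y.dot (a • y - b • Y.AC ℚ) (a • y - b • Y.AC ℚ) ≤ 0 := by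
    by_cases h3 : a • y - b • Y.AC ℚ = 0
    · rw [h3, Y.dot_zero_left]
    · exact (Y.hodge_rat h1 h3).le
  have h3 : Y.dot (a • y - b • Y.AC ℚ) (a • y - b • Y.AC ℚ) = a * (a * Y.dot y y - b ^ 2) := by
    simp only [Y.dot_sub_right, Y.dot_sub_left, Y.dot_smul_right, Y.dot_smul_left]
    rw [Y.dot_comm y (Y.AC ℚ), ← ha, ← hb]
    ring
  rw [h3] at h2
  rw [← ha, ← hb]
  by_contra h4
  rw [not_le] at h4
  have h5 : 0 < a * (a * Y.dot y y - b ^ 2) := mul_pos ha0 (by linarith)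
  linarith

lemma L3_semi_real (y : Fin m → ℝ) :
    Y.dot (Y.AC ℝ) (Y.AC ℝ) * Y.dot y y ≤ Y.dot (Y.AC ℝ) y ^ 2 := by
  have hd : DenseRange (fun x : Fin m → ℚ => (rl x : Fin m → ℝ)) := by
    have h1 : DenseRange (Pi.map (fun _ : Fin m => (Rat.cast : ℚ → ℝ))) :=
      DenseRange.piMap fun _ => Rat.denseRange_cast
    exact h1
  refine isClosed_property (p := fun y : Fin m → ℝ =>
    Y.dot (Y.AC ℝ) (Y.AC ℝ) * Y.dot y y ≤ Y.dot (Y.AC ℝ) y ^ 2) hd ?_ ?_ y
  · refine isClosed_le ?_ ?_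
    · unfold dot fm
      fun_prop
    · unfold dot fm
      fun_prop
  · intro x
    have h1 := Y.L3_semi x
    have h2 : (rl (Y.AC ℚ) : Fin m → ℝ) = Y.AC ℝ := rl_cst _
    have h3 : ((Y.dot (Y.AC ℚ) (Y.AC ℚ) * Y.dot x x : ℚ) : ℝ) ≤ ((Y.dot (Y.AC ℚ) x ^ 2 : ℚ) : ℝ) := by
      exact_mod_cast h1
    rw [Rat.cast_mul, Rat.cast_pow, ← Y.dot_rl, ← Y.dot_rl, ← Y.dot_rl, h2] at h3
    exact h3

/-- The real form is `≤ 0` on the complement of `A` by continuity (rational vectors of the hyperplane are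
dense: for rational `y` near `x` take `y - (A y / A ^ 2) A`).  It is nondegenerate: the determinant of `Y.G` is not
zero, because a rational vector in the kernel is zero by `hodge_rat`.  If `x ^ 2 = 0`, `A x = 0`, then
`x y = 0` for all `y` in the complement (a semidefinite form), so for all `y`; `x = 0`. -/
theorem hodge_real {x : Fin m → ℝ} (h : Y.dot (Y.AC ℝ) x = 0) (hx : x ≠ 0) :
    Y.dot x x < 0 := by
  obtain ⟨a, ha⟩ : ∃ a, a = Y.dot (Y.AC ℝ) (Y.AC ℝ) := ⟨_, rfl⟩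
  have ha0 : 0 < a := by
    have h1 : Y.dot (Y.AC ℝ) (Y.AC ℝ) = ((Y.dot Y.A Y.A : ℤ) : ℝ) := Y.dot_cst _ _
    rw [ha, h1]
    have h2 : 0 < Y.dot Y.A Y.A := Y.A_sq
    exact_mod_cast h2
  have hle : Y.dot x x ≤ 0 := by
    have h1 := Y.L3_semi_real x
    rw [h, ← ha] at h1
    by_contra h2
    rw [not_le] at h2
    have h3 := mul_pos ha0 h2
    nlinarith
  refine lt_of_le_of_ne hle fun h0 => hx ?_
  have hall : ∀ y : Fin m → ℝ, Y.dot x y = 0 := by
    intro y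
    by_contra hp
    obtain ⟨p, hpe⟩ : ∃ p, p = Y.dot x y := ⟨_, rfl⟩
    obtain ⟨c, hc⟩ : ∃ c, c = Y.dot (Y.AC ℝ) y ^ 2 - a * Y.dot y y := ⟨_, rfl⟩
    rw [← hpe] at hp
    have key : ∀ t : ℝ, 2 * a * p * t ≤ c * t ^ 2 := by
      intro t
      have h1 := Y.L3_semi_real (x + t • y)
      rw [Y.dot_add_right (Y.AC ℝ), Y.dot_smul_right, h, zero_add, Y.dot_add_right, Y.dot_add_left,
        Y.dot_add_left, Y.dot_smul_right, Y.dot_smul_right, Y.dot_smul_left, Y.dot_smul_left, h0,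
        Y.dot_comm y x, ← ha, ← hpe] at h1
      rw [hc]
      nlinarith
    have hc1 : 0 < |c| + 1 := by positivity
    have h1 := key (a * p / (|c| + 1))
    have h2 : c * (a * p / (|c| + 1)) ^ 2 ≤ (|c| + 1) * (a * p / (|c| + 1)) ^ 2 := by
      refine mul_le_mul_of_nonneg_right ?_ (sq_nonneg _)
      linarith [le_abs_self c]
    have h3 : (|c| + 1) * (a * p / (|c| + 1)) ^ 2 = a * p * (a * p / (|c| + 1)) := by
      field_simp
    have h4 : 0 < a * p * (a * p / (|c| + 1)) := by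
      have h5 : a * p * (a * p / (|c| + 1)) = (a * p) ^ 2 / (|c| + 1) := by ring
      rw [h5]
      have h6 : a * p ≠ 0 := mul_ne_zero ha0.ne' hp
      positivity
    have h5 : 2 * a * p * (a * p / (|c| + 1)) = 2 * (a * p * (a * p / (|c| + 1))) := by ring
    rw [h5] at h1
    linarith
  have hmv : Matrix.mulVec (Y.G.map (Int.cast : ℤ → ℝ)) x = 0 := by
    funext i
    have h1 := Y.L3_dot_mulVec x (Pi.single i (1:ℝ))
    rw [Y.dot_comm, hall] at h1
    rw [Finset.sum_eq_single i, Pi.single_eq_same, one_mul] at h1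
    · exact h1.symm
    · intro j _ hj
      rw [Pi.single_eq_of_ne hj, zero_mul]
    · intro h2
      exact absurd (Finset.mem_univ i) h2
  by_contra hne
  have hdet : (Y.G.map (Int.cast : ℤ → ℝ)).det = 0 := Matrix.exists_mulVec_eq_zero_iff.1 ⟨x, hne, hmv⟩
  have hdet2 : (Y.G.map (Int.cast : ℤ → ℝ)).det = ((Y.G.det : ℤ) : ℝ) := by
    exact (Int.cast_det Y.G).symm
  rw [hdet2] at hdet
  exact Y.L3_det (by exact_mod_cast hdet)

/-- The common form of both. -/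
def HasHodge (k : Type) [CommRing k] [LT k] : Prop :=
  ∀ x : Fin m → k, Y.dot (Y.AC k) x = 0 → x ≠ 0 → Y.dot x x < 0

lemma hasHodge_rat : Y.HasHodge ℚ := fun _ h hx => Y.hodge_rat h hx

lemma hasHodge_real : Y.HasHodge ℝ := fun _ h hx => Y.hodge_real h hx

/-! ### row L4: the positive cone -/

section order

variable {k : Type} [Field k] [LinearOrder k] [IsStrictOrderedRing k]

lemma AC_sq : 0 < Y.dot (Y.AC k) (Y.AC k) := by
  have h := Y.A_sq
  unfold AC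
  rw [Y.dot_cst]
  exact_mod_cast h

private lemma L4_orth_le (hk : Y.HasHodge k) {x : Fin m → k} (hx : Y.dot (Y.AC k) x = 0) :
    Y.dot x x ≤ 0 := by
  by_cases h : x = 0
  · rw [h, Y.dot_zero_left]
  · exact (hk x hx h).le

private lemma L4_cs (hk : Y.HasHodge k) {x y : Fin m → k} (hx : Y.dot (Y.AC k) x = 0)
    (hy : Y.dot (Y.AC k) y = 0) : Y.dot x y ^ 2 ≤ Y.dot x x * Y.dot y y := by
  by_cases h : y = 0
  · rw [h, Y.dot_zero_right, Y.dot_zero_left]
    simp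
  · have h1 := hk y hy h
    have h2 : Y.dot (Y.AC k) (Y.dot y y • x - Y.dot x y • y) = 0 := by
      rw [Y.dot_sub_right, Y.dot_smul_right, Y.dot_smul_right, hx, hy]
      ring
    have h3 := Y.L4_orth_le hk h2
    have h4 : Y.dot (Y.dot y y • x - Y.dot x y • y) (Y.dot y y • x - Y.dot x y • y) =
        Y.dot y y * (Y.dot x x * Y.dot y y - Y.dot x y ^ 2) := by
      simp only [Y.dot_sub_right, Y.dot_sub_left, Y.dot_smul_right, Y.dot_smul_left]
      rw [Y.dot_comm y x]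
      ring
    rw [h4] at h3
    by_contra hc
    push Not at hc
    have : 0 < Y.dot y y * (Y.dot x x * Y.dot y y - Y.dot x y ^ 2) :=
      mul_pos_of_neg_of_neg h1 (by linarith)
    linarith

private lemma L4_orth (x : Fin m → k) :
    Y.dot (Y.AC k) (x - (Y.dot (Y.AC k) x / Y.dot (Y.AC k) (Y.AC k)) • Y.AC k) = 0 := by
  have h := (Y.AC_sq (k := k)).ne'
  rw [Y.dot_sub_right, Y.dot_smul_right, div_mul_cancel₀ _ h, sub_self]

private lemma L4_dot (x y : Fin m → k) :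
    Y.dot (x - (Y.dot (Y.AC k) x / Y.dot (Y.AC k) (Y.AC k)) • Y.AC k)
      (y - (Y.dot (Y.AC k) y / Y.dot (Y.AC k) (Y.AC k)) • Y.AC k) =
    Y.dot x y - Y.dot (Y.AC k) x * Y.dot (Y.AC k) y / Y.dot (Y.AC k) (Y.AC k) := by
  have h := (Y.AC_sq (k := k)).ne'
  simp only [Y.dot_sub_right, Y.dot_sub_left, Y.dot_smul_right, Y.dot_smul_left]
  rw [Y.dot_comm x (Y.AC k)]
  field_simp
  ring

/-- Write `x = a A + x'`, `y = b A + y'` with `x'`, `y'` orthogonal to `A`, `a, b ≥ 0`: `-x' ^ 2 ≤ a ^ 2 A ^ 2`,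
`-y' ^ 2 ≤ b ^ 2 A ^ 2` and `(x' y') ^ 2 ≤ x' ^ 2 y' ^ 2` (negative definite), so `|x' y'| ≤ a b A ^ 2`. -/
lemma cone_mul (hk : Y.HasHodge k) {x y : Fin m → k} (hx0 : 0 ≤ Y.dot (Y.AC k) x)
    (hx : 0 ≤ Y.dot x x) (hy0 : 0 ≤ Y.dot (Y.AC k) y) (hy : 0 ≤ Y.dot y y) :
    0 ≤ Y.dot x y := by
  have hq := Y.AC_sq (k := k)
  have h1 := Y.L4_cs hk (Y.L4_orth x) (Y.L4_orth y)
  have h2 := Y.L4_orth_le hk (Y.L4_orth x)
  have h3 := Y.L4_orth_le hk (Y.L4_orth y)
  rw [Y.L4_dot] at h2 h3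
  rw [Y.L4_dot, Y.L4_dot, Y.L4_dot] at h1
  set q := Y.dot (Y.AC k) (Y.AC k)
  set a := Y.dot (Y.AC k) x
  set b := Y.dot (Y.AC k) y
  have h4 : (Y.dot x y - a * b / q) ^ 2 ≤ (a * b / q) ^ 2 := by
    refine h1.trans ?_
    have e1 : (Y.dot x x - a * a / q) * (Y.dot y y - b * b / q) =
        (a * a / q - Y.dot x x) * (b * b / q - Y.dot y y) := by ring
    have e2 : (a * b / q) ^ 2 = (a * a / q) * (b * b / q) := by ring
    rw [e1, e2]
    refine mul_le_mul (by linarith) (by linarith) (by linarith) (by positivity)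
  have h5 : 0 ≤ a * b / q := by positivity
  have h6 := abs_le_of_sq_le_sq' h4 h5
  linarith [h6.1]

lemma cone_mul_pos (hk : Y.HasHodge k) {x y : Fin m → k} (hx0 : 0 ≤ Y.dot (Y.AC k) x)
    (hx : 0 < Y.dot x x) (hy0 : 0 ≤ Y.dot (Y.AC k) y) (hy : 0 ≤ Y.dot y y) (hy' : y ≠ 0) :
    0 < Y.dot x y := by
  have hq := Y.AC_sq (k := k)
  have hb : 0 < Y.dot (Y.AC k) y := by
    rcases hy0.lt_or_eq with h | h
    · exact h
    · have := hk y h.symm hy'
      linarith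
  have ha : 0 < Y.dot (Y.AC k) x := by
    rcases hx0.lt_or_eq with h | h
    · exact h
    · have := Y.L4_orth_le hk h.symm
      linarith
  have h1 := Y.L4_cs hk (Y.L4_orth x) (Y.L4_orth y)
  have h2 := Y.L4_orth_le hk (Y.L4_orth x)
  have h3 := Y.L4_orth_le hk (Y.L4_orth y)
  rw [Y.L4_dot] at h2 h3
  rw [Y.L4_dot, Y.L4_dot, Y.L4_dot] at h1
  set q := Y.dot (Y.AC k) (Y.AC k)
  set a := Y.dot (Y.AC k) x
  set b := Y.dot (Y.AC k) y
  have h4 : (Y.dot x y - a * b / q) ^ 2 < (a * b / q) ^ 2 := by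
    refine lt_of_le_of_lt h1 ?_
    have e1 : (Y.dot x x - a * a / q) * (Y.dot y y - b * b / q) =
        (a * a / q - Y.dot x x) * (b * b / q - Y.dot y y) := by ring
    have e2 : (a * b / q) ^ 2 = (a * a / q) * (b * b / q) := by ring
    rw [e1, e2]
    have e3 : (a * a / q - Y.dot x x) * (b * b / q - Y.dot y y) ≤
        (a * a / q - Y.dot x x) * (b * b / q) :=
      mul_le_mul_of_nonneg_left (by linarith) (by linarith)
    have e4 : (a * a / q - Y.dot x x) * (b * b / q) < (a * a / q) * (b * b / q) :=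
      mul_lt_mul_of_pos_right (by linarith) (by positivity)
    exact lt_of_le_of_lt e3 e4
  have h5 : 0 ≤ a * b / q := by positivity
  have h6 := abs_lt_of_sq_lt_sq' h4 h5
  linarith [h6.1]

private lemma L4_sign (x : Fin m → k) : ∃ e : k, e ≠ 0 ∧ 0 ≤ Y.dot (Y.AC k) (e • x) := by
  rcases le_total 0 (Y.dot (Y.AC k) x) with h | h
  · exact ⟨1, one_ne_zero, by rwa [one_smul]⟩
  · refine ⟨-1, by norm_num, ?_⟩
    rw [Y.dot_smul_right]
    linarith

private lemma L4_key (hk : Y.HasHodge k) {x y : Fin m → k} (hx : 0 < Y.dot x x)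
    (h : Y.dot x y = 0) (hy : 0 ≤ Y.dot y y) : y = 0 := by
  by_contra hy'
  obtain ⟨e, he, h1⟩ := Y.L4_sign x
  obtain ⟨f, hf, h2⟩ := Y.L4_sign y
  have h3 : 0 < Y.dot (e • x) (e • x) := by
    rw [Y.dot_smul_left, Y.dot_smul_right, ← mul_assoc]
    exact mul_pos (mul_self_pos.2 he) hx
  have h4 : 0 ≤ Y.dot (f • y) (f • y) := by
    rw [Y.dot_smul_left, Y.dot_smul_right, ← mul_assoc]
    exact mul_nonneg (mul_self_nonneg f) hy
  have h5 := Y.cone_mul_pos hk h1 h3 h2 h4 (smul_ne_zero hf hy')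
  rw [Y.dot_smul_left, Y.dot_smul_right, h] at h5
  simp at h5

/-- Hodge index. -/
lemma hodge_le (hk : Y.HasHodge k) {x y : Fin m → k} (hx : 0 < Y.dot x x)
    (h : Y.dot x y = 0) : Y.dot y y ≤ 0 := by
  by_contra hc
  push Not at hc
  have := Y.L4_key hk hx h hc.le
  rw [this, Y.dot_zero_left] at hc
  exact lt_irrefl _ hc

lemma hodge_eq (hk : Y.HasHodge k) {x y : Fin m → k} (hx : 0 < Y.dot x x)
    (h : Y.dot x y = 0) (h' : Y.dot y y = 0) : y = 0 :=
  Y.L4_key hk hx h h'.ge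

/-- `x ^ 2 = 0`, `x y = 0`, `y ^ 2 ≥ 0`: proportional.  `w = (A y) x - (A x) y` is orthogonal to `A` with square
`(A x) ^ 2 y ^ 2 ≥ 0`, so `w = 0`; `A x ≠ 0`. -/
lemma null_prop (hk : Y.HasHodge k) {x y : Fin m → k} (hx : Y.dot x x = 0) (hx' : x ≠ 0)
    (h : Y.dot x y = 0) (hy : 0 ≤ Y.dot y y) : ∃ t : k, y = t • x := by
  have hA : Y.dot (Y.AC k) x ≠ 0 := fun h0 => by
    have := hk x h0 hx'
    linarith
  have h1 : Y.dot (Y.AC k) (Y.dot (Y.AC k) y • x - Y.dot (Y.AC k) x • y) = 0 := by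
    rw [Y.dot_sub_right, Y.dot_smul_right, Y.dot_smul_right]
    ring
  have h2 : Y.dot (Y.dot (Y.AC k) y • x - Y.dot (Y.AC k) x • y)
      (Y.dot (Y.AC k) y • x - Y.dot (Y.AC k) x • y) = Y.dot (Y.AC k) x ^ 2 * Y.dot y y := by
    have e1 : Y.dot y x = 0 := by rw [Y.dot_comm]; exact h
    simp only [Y.dot_sub_right, Y.dot_sub_left, Y.dot_smul_right, Y.dot_smul_left]
    rw [hx, h, e1]
    ring
  have h3 : Y.dot (Y.AC k) y • x - Y.dot (Y.AC k) x • y = 0 := by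
    by_contra hc
    have h4 := hk _ h1 hc
    rw [h2] at h4
    have : 0 ≤ Y.dot (Y.AC k) x ^ 2 * Y.dot y y := mul_nonneg (sq_nonneg _) hy
    linarith
  refine ⟨Y.dot (Y.AC k) y / Y.dot (Y.AC k) x, ?_⟩
  have h5 := sub_eq_zero.1 h3
  rw [div_eq_inv_mul, mul_smul, h5, smul_smul, inv_mul_cancel₀ hA, one_smul]

end order

end NS

end Pool.Agent.LibKA2
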