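import Pool.Agent.LibKA2.Lat

/-!
Nef classes, sections of big classes, non-vanishing.
-/

set_option autoImplicit false

namespace Pool.Agent.LibKA2

open Finset

variable {m : ℕ}

namespace NS

variable (Y : NS m)

/-! ### row N1: effective classes -/

private lemma N1_cst_int (x : Fin m → ℤ) : cst ℤ x = x := by
  funext i
  simp [cst]

private lemma N1_l_nef : Y.Nef (k := ℤ) Y.l := by
  intro c
  have h := Y.l_nef c
  unfold v
  rw [N1_cst_int]
  exact h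

private lemma N1_A_nef : Y.Nef (k := ℤ) Y.A := by
  intro c
  have h := Y.deg c
  unfold v
  rw [N1_cst_int]
  exact le_trans zero_le_one h

private lemma N1_qeff_of_sum (s : Finset Y.C) (f : Y.C → ℚ) (hf : ∀ c, 0 ≤ f c) :
    Y.QEff (∑ c ∈ s, f c • Y.v ℚ c) := by
  classical
  refine ⟨Finsupp.onFinset s (fun c => if c ∈ s then f c else 0) ?_, ?_, ?_⟩
  · intro c hc
    by_contra h
    exact hc (if_neg h)
  · intro c
    rw [Finsupp.onFinset_apply]
    split_ifs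
    · exact hf c
    · exact le_rfl
  · rw [Finsupp.onFinset_sum (g := fun c (b : ℚ) => b • Y.v ℚ c) _ (fun c => zero_smul ℚ _)]
    refine Finset.sum_congr rfl fun c hc => ?_
    rw [if_pos hc]

/-- a class with a section is a sum of curves (`Y.mem` with the empty set). -/
lemma exists_sum {D : Fin m → ℤ} (h : 0 < Y.h0 D) :
    ∃ a : Y.C →₀ ℕ, D = a.sum fun c b => b • Y.cl c := by
  obtain ⟨a, _, ha⟩ := Y.mem D h ∅ (by simp)
  exact ⟨a, ha⟩

/-- for nef `x` (real or rational) and `h0 D > 0`: `x D ≥ 0`. -/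
lemma nef_mul {k : Type} [CommRing k] [LinearOrder k] [IsStrictOrderedRing k]
    {x : Fin m → k} (hx : Y.Nef x) {D : Fin m → ℤ} (h : 0 < Y.h0 D) :
    0 ≤ Y.dot x (cst k D) := by
  obtain ⟨a, rfl⟩ := Y.exists_sum h
  rw [Y.dot_fsum_right]
  exact Finset.sum_nonneg fun c _ => mul_nonneg (Nat.cast_nonneg _) (hx c)

/-- `K - D` has no section if `K l < D l`. -/
lemma h0_K_sub {D : Fin m → ℤ} (h : Y.dot Y.K Y.l < Y.dot D Y.l) : Y.h0 (Y.K - D) = 0 := by
  by_contra hne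
  have h1 := Y.nef_mul Y.N1_l_nef (Nat.pos_of_ne_zero hne)
  rw [N1_cst_int, Y.dot_sub_right, Y.dot_comm Y.l Y.K, Y.dot_comm Y.l D] at h1
  linarith

/-- Riemann-Roch for classes with `K l < D l`. -/
lemma rr' {D : Fin m → ℤ} (h : Y.dot Y.K Y.l < Y.dot D Y.l) :
    2 + Y.dot D D - Y.dot Y.K D ≤ 2 * (Y.h0 D : ℤ) := by
  have h1 := Y.rr D
  rw [Y.h0_K_sub h] at h1
  simpa [dot] using h1

/-- `l` is a sum of curves and not zero, so `A l > 0`. -/
lemma A_l : 0 < Y.dot Y.A Y.l := by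
  obtain ⟨a, ha⟩ := Y.exists_sum Y.l_eff
  have h0 : ∀ c, 0 ≤ Y.dot Y.A (Y.v ℤ c) := Y.N1_A_nef
  have h1 : Y.dot Y.A Y.l = a.sum fun c b => (b : ℤ) * Y.dot Y.A (Y.v ℤ c) := by
    have h2 := Y.dot_fsum_right (k := ℤ) a Y.A
    rw [← ha, N1_cst_int] at h2
    exact h2
  have h3 : ∀ c ∈ a.support, 0 ≤ ((a c : ℕ) : ℤ) * Y.dot Y.A (Y.v ℤ c) := fun c _ =>
    mul_nonneg (Int.natCast_nonneg _) (h0 c)
  rcases lt_or_eq_of_le (Finset.sum_nonneg h3) with h4 | h4
  · rw [h1]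
    exact h4
  · exfalso
    have h5 := (Finset.sum_eq_zero_iff_of_nonneg h3).1 h4.symm
    have h6 : a = 0 := by
      ext c
      by_contra hc
      have hc' : c ∈ a.support := Finsupp.mem_support_iff.2 hc
      have h7 := h5 c hc'
      have h8 : 1 ≤ Y.dot Y.A (Y.v ℤ c) := by
        unfold v
        rw [N1_cst_int]
        exact Y.deg c
      have h9 : (1 : ℤ) ≤ ((a c : ℕ) : ℤ) := by
        have : 1 ≤ a c := Nat.one_le_iff_ne_zero.2 hc
        exact_mod_cast this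
      nlinarith
    rw [h6, Finsupp.sum_zero_index] at ha
    have h10 := Y.K_l
    rw [ha] at h10
    have h11 : fm Y.G Y.K 0 = 0 := Y.dot_zero_right Y.K
    rw [h11] at h10
    exact lt_irrefl _ h10

/-- `rr'` for `b A`, `b` large. -/
lemma A_eff : ∃ b : ℕ, 0 < b ∧ 0 < Y.h0 (b • Y.A) := by
  set b : ℕ := (Y.dot Y.K Y.A).natAbs + 1 with hb
  have hb1 : (1 : ℤ) ≤ (b : ℤ) := by
    rw [hb]
    push_cast
    linarith [abs_nonneg (Y.dot Y.K Y.A)]
  have hb2 : Y.dot Y.K Y.A ≤ (b : ℤ) - 1 := by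
    rw [hb]
    push_cast
    linarith [le_abs_self (Y.dot Y.K Y.A)]
  have hA : 1 ≤ Y.dot Y.A Y.A := Y.A_sq
  have hl := Y.A_l
  have hK : Y.dot Y.K Y.l < 0 := Y.K_l
  have h1 : Y.dot Y.K Y.l < Y.dot (b • Y.A) Y.l := by
    rw [Y.dot_nsmul_left]
    have : 0 < (b : ℤ) * Y.dot Y.A Y.l := mul_pos (by linarith) hl
    linarith
  have h2 := Y.rr' h1
  rw [Y.dot_nsmul_left, Y.dot_nsmul_right, Y.dot_nsmul_right] at h2
  refine ⟨b, by omega, ?_⟩
  have h3 : (b : ℤ) * ((b : ℤ) * 1) ≤ (b : ℤ) * ((b : ℤ) * Y.dot Y.A Y.A) :=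
    mul_le_mul_of_nonneg_left (mul_le_mul_of_nonneg_left hA (by linarith)) (by linarith)
  have h4 : (b : ℤ) * Y.dot Y.K Y.A ≤ (b : ℤ) * ((b : ℤ) - 1) :=
    mul_le_mul_of_nonneg_left hb2 (by linarith)
  have h5 : 0 < (Y.h0 (b • Y.A) : ℤ) := by
    nlinarith
  exact_mod_cast h5

lemma A_nef : Y.Nef (Y.AC ℚ) := by
  intro c
  have h1 : Y.dot (Y.AC ℚ) (Y.v ℚ c) = ((Y.dot Y.A (Y.cl c) : ℤ) : ℚ) := Y.dot_cst _ _
  rw [h1]
  have h2 : (0 : ℤ) ≤ Y.dot Y.A (Y.cl c) := le_trans zero_le_one (Y.deg c)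
  exact_mod_cast h2

lemma qeff_of_h0 {D : Fin m → ℤ} {b : ℕ} (hb : 0 < b) {x : Fin m → ℚ}
    (hx : (b : ℚ) • x = cst ℚ D) (h : 0 < Y.h0 D) : Y.QEff x := by
  obtain ⟨a, ha⟩ := Y.exists_sum h
  have hb0 : (b : ℚ) ≠ 0 := by exact_mod_cast hb.ne'
  have h1 : x = ∑ c ∈ a.support, (((a c : ℕ) : ℚ) / b) • Y.v ℚ c := by
    have h2 : x = (b : ℚ)⁻¹ • cst ℚ D := by
      rw [← hx, smul_smul, inv_mul_cancel₀ hb0, one_smul]
    rw [h2, ha]
    unfold Finsupp.sum
    rw [cst_sum, Finset.smul_sum]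
    refine Finset.sum_congr rfl fun c _ => ?_
    rw [cst_nsmul, smul_smul]
    congr 1
    rw [div_eq_mul_inv, mul_comm]
  rw [h1]
  exact Y.N1_qeff_of_sum _ _ fun c => div_nonneg (Nat.cast_nonneg _) (Nat.cast_nonneg _)

lemma qeff_add {x y : Fin m → ℚ} (hx : Y.QEff x) (hy : Y.QEff y) : Y.QEff (x + y) := by
  classical
  obtain ⟨a, ha, rfl⟩ := hx
  obtain ⟨b, hb, rfl⟩ := hy
  refine ⟨a + b, fun c => ?_, ?_⟩
  · rw [Finsupp.add_apply]
    exact add_nonneg (ha c) (hb c)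
  · rw [Finsupp.sum_add_index']
    · intro c
      exact zero_smul ℚ _
    · intro c q r
      exact add_smul q r _

lemma qeff_sp {R : Finset Y.C} {x : Fin m → ℚ} (hx : Y.Sp R x) : Y.QEff x := by
  obtain ⟨a, ha, rfl⟩ := hx
  exact Y.N1_qeff_of_sum R a ha

lemma nef_qeff {x y : Fin m → ℚ} (hx : Y.Nef x) (hy : Y.QEff y) : 0 ≤ Y.dot x y := by
  obtain ⟨a, ha, rfl⟩ := hy
  unfold Finsupp.sum
  rw [Y.dot_sum_right]
  refine Finset.sum_nonneg fun c _ => ?_
  rw [Y.dot_smul_right]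
  exact mul_nonneg (ha c) (hx c)

/-! ### row N2: nef classes have square `≥ 0` -/

/-- a multiple of `A` has a section. -/
lemma nef_A {k : Type} [CommRing k] [LinearOrder k] [IsStrictOrderedRing k]
    {x : Fin m → k} (hx : Y.Nef x) : 0 ≤ Y.dot (Y.AC k) x := by
  obtain ⟨b, hb, h⟩ := Y.A_eff
  have h1 := Y.nef_mul hx h
  rw [cst_nsmul, dot_smul_right, dot_comm] at h1
  have hb' : (0 : k) < b := by exact_mod_cast hb
  exact nonneg_of_mul_nonneg_right h1 hb'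

private lemma N2_AZ : Y.Nef (cst ℤ Y.A) := by
  intro c
  have h := Y.deg c
  have e : Y.dot (cst ℤ Y.A) (Y.v ℤ c) = ((Y.dot Y.A (Y.cl c) : ℤ) : ℤ) := Y.dot_cst _ _
  rw [e]
  exact le_trans (by norm_num) h

/-- `D ^ 2 > 0`, `A D > 0`: a multiple has a section.  `Y.rr` for `b D`, `b` large: if `h0 (K - b D) > 0` then
`A (K - b D) ≥ 0` because `A` is nef, which is false for large `b`. -/
lemma big {D : Fin m → ℤ} (h : 0 < Y.dot D D) (h0 : 0 < Y.dot Y.A D) :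
    ∃ b : ℕ, 0 < b ∧ 0 < Y.h0 (b • D) := by
  set b : ℕ := (Y.dot Y.K D).natAbs + (Y.dot Y.A Y.K).natAbs + 1 with hb
  refine ⟨b, by omega, ?_⟩
  have hbz : (b : ℤ) = |Y.dot Y.K D| + |Y.dot Y.A Y.K| + 1 := by
    rw [hb]; push_cast; ring
  have h1 := Y.rr (b • D)
  have e1 : fm Y.G (b • D) (b • D) = (b : ℤ) * ((b : ℤ) * Y.dot D D) := by
    exact (Y.dot_nsmul_left b D (b • D)).trans (by rw [Y.dot_nsmul_right])
  have e2 : fm Y.G Y.K (b • D) = (b : ℤ) * Y.dot Y.K D := Y.dot_nsmul_right b Y.K D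
  rw [e1, e2] at h1
  have h2 : Y.h0 (Y.K - b • D) = 0 := by
    by_contra hne
    have hp : 0 < Y.h0 (Y.K - b • D) := Nat.pos_of_ne_zero hne
    have h3 := Y.nef_mul (N2_AZ Y) hp
    rw [Y.dot_cst, Y.dot_sub_right, Y.dot_nsmul_right] at h3
    simp only [Int.cast_id] at h3
    have h4 : Y.dot Y.A Y.K ≤ |Y.dot Y.A Y.K| := le_abs_self _
    have h5 : (0 : ℤ) ≤ |Y.dot Y.K D| := abs_nonneg _
    have hb1 : (0 : ℤ) < b := by have := abs_nonneg (Y.dot Y.A Y.K); omega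
    have h6 : (b : ℤ) * 1 ≤ (b : ℤ) * Y.dot Y.A D := mul_le_mul_of_nonneg_left (by omega) hb1.le
    omega
  rw [h2] at h1
  have h4 : Y.dot Y.K D ≤ |Y.dot Y.K D| := le_abs_self _
  have h5 : (0 : ℤ) ≤ |Y.dot Y.A Y.K| := abs_nonneg _
  have hb1 : (0 : ℤ) < b := by have := abs_nonneg (Y.dot Y.K D); omega
  have h6 : (b : ℤ) * 1 ≤ (b : ℤ) * Y.dot D D := mul_le_mul_of_nonneg_left (by omega) hb1.le
  have h7 : (b : ℤ) * (Y.dot Y.K D) ≤ (b : ℤ) * ((b : ℤ) * Y.dot D D) :=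
    mul_le_mul_of_nonneg_left (by omega) hb1.le
  have h8 : 0 < (Y.h0 (b • D) : ℤ) := by
    push_cast at h1
    omega
  exact_mod_cast h8

private lemma N2_cont {x : Fin m → ℝ} : Continuous fun y : Fin m → ℝ => Y.dot x y := by
  unfold dot fm
  fun_prop

private lemma N2_cont2 : Continuous fun y : Fin m → ℝ => Y.dot y y := by
  unfold dot fm
  fun_prop

private lemma N2_dense : DenseRange (rl : (Fin m → ℚ) → (Fin m → ℝ)) := by
  have h : DenseRange (Pi.map (fun (_ : Fin m) (q : ℚ) => (q : ℝ))) :=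
    DenseRange.piMap fun _ => Rat.denseRange_cast
  exact h

private lemma N2_sq {x : Fin m → ℝ} (hx : Y.Nef x) {s : ℝ}
    (h1 : 0 < Y.dot (x + s • Y.AC ℝ) (x + s • Y.AC ℝ))
    (h2 : 0 < Y.dot (Y.AC ℝ) (x + s • Y.AC ℝ)) :
    0 ≤ Y.dot x (x + s • Y.AC ℝ) := by
  by_contra hneg
  push Not at hneg
  have hU : IsOpen {y : Fin m → ℝ | 0 < Y.dot y y ∧ 0 < Y.dot (Y.AC ℝ) y ∧ Y.dot x y < 0} := by
    refine IsOpen.inter (isOpen_lt continuous_const (N2_cont2 Y)) ?_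
    exact IsOpen.inter (isOpen_lt continuous_const (N2_cont Y)) (isOpen_lt (N2_cont Y) continuous_const)
  obtain ⟨z, hz1, hz2, hz3⟩ := N2_dense.exists_mem_open hU ⟨_, h1, h2, hneg⟩
  obtain ⟨a, ha, D, hD⟩ := exists_isInt z
  have haR : (0 : ℝ) < a := by exact_mod_cast ha
  have hDr : cst ℝ D = (a : ℝ) • rl z := by
    rw [← rl_cst, ← hD, rl_smul]
    simp
  have hDD : 0 < Y.dot D D := by
    have e : (0 : ℝ) < Y.dot (cst ℝ D) (cst ℝ D) := by
      rw [hDr, dot_smul_left, dot_smul_right]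
      exact mul_pos haR (mul_pos haR hz1)
    rw [dot_cst] at e
    exact_mod_cast e
  have hAD : 0 < Y.dot Y.A D := by
    have e : (0 : ℝ) < Y.dot (cst ℝ Y.A) (cst ℝ D) := by
      rw [hDr, dot_smul_right]
      exact mul_pos haR hz2
    rw [dot_cst] at e
    exact_mod_cast e
  obtain ⟨b, hb, hb0⟩ := big Y hDD hAD
  have h3 := Y.nef_mul hx hb0
  rw [cst_nsmul, hDr, dot_smul_right, dot_smul_right] at h3
  have hbR : (0 : ℝ) < b := by exact_mod_cast hb
  have : (b : ℝ) * ((a : ℝ) * Y.dot x (rl z)) < 0 :=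
    mul_neg_of_pos_of_neg hbR (mul_neg_of_pos_of_neg haR hz3)
  linarith

/-- Real nef classes have square `≥ 0`.  -/
theorem nef_sq {x : Fin m → ℝ} (hx : Y.Nef x) : 0 ≤ Y.dot x x := by
  by_contra hneg
  push Not at hneg
  set a : ℝ := Y.dot (Y.AC ℝ) x with ha
  set q : ℝ := Y.dot (Y.AC ℝ) (Y.AC ℝ) with hq
  set w : ℝ := Y.dot x x with hw
  have ha0 : 0 ≤ a := nef_A Y hx
  have hq0 : 0 < q := Y.AC_sq
  have hd : 0 ≤ a ^ 2 - q * w := by nlinarith
  set r : ℝ := Real.sqrt (a ^ 2 - q * w) with hr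
  have hr2 : r ^ 2 = a ^ 2 - q * w := Real.sq_sqrt hd
  have hr0 : 0 ≤ r := Real.sqrt_nonneg _
  have hra : a < r := by
    by_contra hh
    push Not at hh
    nlinarith [mul_pos hq0 (neg_pos.2 hneg)]
  set t : ℝ := (r - a) / q with ht
  have ht0 : 0 < t := div_pos (by linarith) hq0
  have hqt : q * t = r - a := by rw [ht]; field_simp
  have hroot : w + 2 * t * a + t ^ 2 * q = 0 := by
    have h1 : q * (w + 2 * t * a + t ^ 2 * q) = 0 := by
      have : q * (w + 2 * t * a + t ^ 2 * q) = q * w + 2 * a * (q * t) + (q * t) ^ 2 := by ring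
      rw [this, hqt]
      nlinarith
    rcases mul_eq_zero.1 h1 with h | h
    · exact absurd h hq0.ne'
    · exact h
  have hxs : ∀ s : ℝ, Y.dot x (x + s • Y.AC ℝ) = w + s * a := by
    intro s
    rw [dot_add_right, dot_smul_right, Y.dot_comm x (Y.AC ℝ)]
  have hAs : ∀ s : ℝ, Y.dot (Y.AC ℝ) (x + s • Y.AC ℝ) = a + s * q := by
    intro s
    rw [dot_add_right, dot_smul_right]
  have hss : ∀ s : ℝ, Y.dot (x + s • Y.AC ℝ) (x + s • Y.AC ℝ) = w + 2 * s * a + s ^ 2 * q := by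
    intro s
    rw [dot_add_left, hxs, dot_smul_left, hAs]
    ring
  have key : ∀ s : ℝ, t < s → 0 ≤ w + s * a := by
    intro s hs
    rw [← hxs]
    refine N2_sq Y hx ?_ ?_
    · rw [hss]
      have : w + 2 * s * a + s ^ 2 * q =
          (w + 2 * t * a + t ^ 2 * q) + 2 * (s - t) * a + (s - t) * (s + t) * q := by ring
      rw [this, hroot]
      have h1 : 0 ≤ 2 * (s - t) * a := mul_nonneg (by linarith) ha0
      have h2 : 0 < (s - t) * (s + t) * q :=
        mul_pos (mul_pos (by linarith) (by linarith)) hq0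
      linarith
    · rw [hAs]
      have : 0 < s * q := mul_pos (by linarith) hq0
      linarith
  have hlim : 0 ≤ w + t * a := by
    by_contra hh
    push Not at hh
    have hpos : 0 < -(w + t * a) := by linarith
    have ha1 : 0 < 2 * (a + 1) := by linarith
    have h1 := key (t + -(w + t * a) / (2 * (a + 1))) (by
      have := div_pos hpos ha1
      linarith)
    have h2 : -(w + t * a) / (2 * (a + 1)) * a ≤ -(w + t * a) / 2 := by
      rw [div_mul_eq_mul_div, div_le_div_iff₀ ha1 (by norm_num)]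
      nlinarith
    nlinarith
  have h1 : 0 ≤ t * a := mul_nonneg ht0.le ha0
  have h2 : 0 < t ^ 2 * q := mul_pos (by positivity) hq0
  nlinarith

lemma nef_rl {x : Fin m → ℚ} (hx : Y.Nef x) : Y.Nef (rl x) := by
  intro c
  rw [← rl_v, dot_rl]
  exact_mod_cast hx c

lemma nef_sq' {x : Fin m → ℚ} (hx : Y.Nef x) : 0 ≤ Y.dot x x := by
  have h := nef_sq Y (nef_rl Y hx)
  rw [dot_rl] at h
  exact_mod_cast h

/-! ### row N3: non-vanishing, finiteness -/

private lemma N3_cst_int (x : Fin m → ℤ) : cst ℤ x = x := by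
  funext i
  simp [cst]

/-- `x` nef, `K x ≤ x ^ 2`: `rr'` for an integral multiple `b x`. (`l x ≥ 0` by `nef_mul`.) -/
theorem nonvanish {x : Fin m → ℚ} (hx : Y.Nef x) (h : Y.dot (Y.KC ℚ) x ≤ Y.dot x x) :
    Y.QEff x := by
  obtain ⟨b, hb, D, hD⟩ := exists_isInt x
  have hb1 : (1 : ℚ) ≤ b := by exact_mod_cast hb
  have hxx := Y.nef_sq' hx
  have hlx : 0 ≤ Y.dot x (cst ℚ Y.l) := Y.nef_mul hx Y.l_eff
  have e1 : ((Y.dot D Y.l : ℤ) : ℚ) = b * Y.dot x (cst ℚ Y.l) := by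
    rw [← Y.dot_cst (k := ℚ) D Y.l, ← hD, Y.dot_smul_left]
  have e2 : ((Y.dot D D : ℤ) : ℚ) = b * (b * Y.dot x x) := by
    rw [← Y.dot_cst (k := ℚ) D D, ← hD, Y.dot_smul_left, Y.dot_smul_right]
  have e3 : ((Y.dot Y.K D : ℤ) : ℚ) = b * Y.dot (Y.KC ℚ) x := by
    rw [← Y.dot_cst (k := ℚ) Y.K D, ← hD, Y.dot_smul_right]
    rfl
  have h1 : (0 : ℤ) ≤ Y.dot D Y.l := by
    have h2 : (0 : ℚ) ≤ ((Y.dot D Y.l : ℤ) : ℚ) := by
      rw [e1]
      exact mul_nonneg (by linarith) hlx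
    exact_mod_cast h2
  have h3 : Y.dot Y.K Y.l < Y.dot D Y.l := lt_of_lt_of_le Y.K_l h1
  have h4 := Y.rr' h3
  have h5 : Y.dot Y.K D ≤ Y.dot D D := by
    have h6 : ((Y.dot Y.K D : ℤ) : ℚ) ≤ ((Y.dot D D : ℤ) : ℚ) := by
      rw [e2, e3]
      apply mul_le_mul_of_nonneg_left _ (by linarith)
      nlinarith
    exact_mod_cast h6
  have h7 : 0 < Y.h0 D := by
    have h8 : (0 : ℤ) < (Y.h0 D : ℤ) := by linarith
    exact_mod_cast h8
  exact Y.qeff_of_h0 hb hD h7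

/-- there are finitely many classes of curves of bounded degree: for every integral `F` both
`N A + F` and `N A - F` are nef for some `N`, so `|F c|` is bounded; and `c` is determined by the numbers
`F_i c`, `F_i` the unit vectors (the form is nondegenerate: `hodge_rat`). -/
theorem finite_cl (B : ℤ) : {x : Fin m → ℤ | ∃ c, x = Y.cl c ∧ Y.dot Y.A x ≤ B}.Finite := by
  classical
  have hbd : ∀ F : Fin m → ℤ, ∃ M : ℤ, ∀ c, Y.dot Y.A (Y.cl c) ≤ B → -M ≤ Y.dot F (Y.cl c) := by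
    intro F
    obtain ⟨N, hN⟩ := Y.ample F
    refine ⟨N * B, fun c hc => ?_⟩
    have h1 : 0 ≤ Y.dot ((N : ℤ) • Y.A + F) (Y.cl c) := hN c
    rw [Y.dot_add_left, Y.dot_smul_left] at h1
    have h2 : (N : ℤ) * Y.dot Y.A (Y.cl c) ≤ N * B :=
      mul_le_mul_of_nonneg_left hc (Int.natCast_nonneg N)
    linarith
  choose M hM using hbd
  set f : (Fin m → ℤ) → (Fin m → ℤ) := fun x i => Y.dot (Pi.single i 1) x with hf
  have hinj : Function.Injective f := by
    intro x y hxy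
    have h1 : ∀ i, Y.dot (Pi.single i 1) (x - y) = 0 := by
      intro i
      rw [Y.dot_sub_right]
      have := congrFun hxy i
      simp only [hf] at this
      linarith
    have h2 : ∀ w : Fin m → ℤ, Y.dot w (x - y) = 0 := by
      intro w
      have h3 : w = ∑ i, w i • (Pi.single i 1 : Fin m → ℤ) := by
        funext j
        rw [Finset.sum_apply, Finset.sum_eq_single j]
        · simp
        · intro i _ hi
          simp [Pi.single_eq_of_ne (Ne.symm hi)]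
        · intro hj
          exact absurd (Finset.mem_univ j) hj
      rw [h3, Y.dot_sum_left]
      refine Finset.sum_eq_zero fun i _ => ?_
      rw [Y.dot_smul_left, h1 i, mul_zero]
    by_contra hne
    have h4 : x - y ≠ 0 := sub_ne_zero.2 hne
    have h5 := Y.hodge (x - y) (h2 Y.A) h4
    have h6 : fm Y.G (x - y) (x - y) = 0 := h2 (x - y)
    rw [h6] at h5
    exact lt_irrefl _ h5
  refine Set.Finite.of_finite_image (f := f) ?_ hinj.injOn
  refine (Set.Finite.pi' (t := fun i : Fin m => Set.Icc (-M (Pi.single i 1)) (M (-Pi.single i 1)))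
    (fun i => Set.finite_Icc _ _)).subset ?_
  rintro _ ⟨x, ⟨c, rfl, hc⟩, rfl⟩ i
  have h1 := hM (Pi.single i 1) c hc
  have h2 := hM (-Pi.single i 1) c hc
  rw [Y.dot_neg_left] at h2
  exact ⟨h1, by simp only [hf]; linarith⟩

/-- two curves of the same class with negative square are equal. -/
theorem finite_neg (B : ℤ) :
    {c : Y.C | Y.dot (Y.cl c) (Y.cl c) < 0 ∧ Y.dot Y.A (Y.cl c) ≤ B}.Finite := by
  refine Set.Finite.of_finite_image (f := Y.cl) ((Y.finite_cl B).subset ?_) ?_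
  · rintro _ ⟨c, ⟨_, hc⟩, rfl⟩
    exact ⟨c, rfl, hc⟩
  · intro c hc c' hc' he
    by_contra hne
    have h1 := Y.pos c c' hne
    rw [← he] at h1
    have h2 : fm Y.G (Y.cl c) (Y.cl c) < 0 := hc.1
    linarith

end NS

end Pool.Agent.LibKA2
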